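import Pool.Agent.Lib.MP_0d8f30_al.BV.Def
import Pool.Agent.Lib.MP_0d8f30_al.BV.A3

section

set_option autoImplicit false

/-! # Task A2: averages of subgroups -/

namespace Pool.Agent.Bovdi

open Finset

variable {G : Type} [Group G] [Fintype G]

open Classical in
private theorem a02_card (H : Subgroup G) :
    ((univ : Finset G).filter (fun g => g ∈ H)).card = Nat.card H := by
  rw [Nat.card_eq_fintype_card, Fintype.card_subtype]

private theorem a02_ne (H : Subgroup G) : (Nat.card H : ℚ) ≠ 0 := by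
  have : 0 < Nat.card H := Nat.card_pos
  exact_mod_cast this.ne'

open Classical in
private theorem a02_def (H : Subgroup G) :
    avg H = (Nat.card H : ℚ)⁻¹ • ∑ g ∈ (univ : Finset G).filter (fun g => g ∈ H), el g := by
  unfold avg
  rfl

theorem avg_mul_el (H : Subgroup G) {h : G} (hh : h ∈ H) : avg H * el h = avg H := by
  classical
  rw [a02_def, smul_mul_assoc, Finset.sum_mul]
  congr 1
  refine Finset.sum_nbij' (fun g => g * h) (fun g => g * h⁻¹) ?_ ?_ ?_ ?_ ?_
  · intro g hg
    simp only [mem_filter, mem_univ, true_and] at hg ⊢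
    exact H.mul_mem hg hh
  · intro g hg
    simp only [mem_filter, mem_univ, true_and] at hg ⊢
    exact H.mul_mem hg (H.inv_mem hh)
  · intro g _
    simp
  · intro g _
    simp
  · intro g _
    simp only [map_mul]

theorem el_mul_avg (H : Subgroup G) {h : G} (hh : h ∈ H) : el h * avg H = avg H := by
  classical
  rw [a02_def, mul_smul_comm, Finset.mul_sum]
  congr 1
  refine Finset.sum_nbij' (fun g => h * g) (fun g => h⁻¹ * g) ?_ ?_ ?_ ?_ ?_
  · intro g hg
    simp only [mem_filter, mem_univ, true_and] at hg ⊢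
    exact H.mul_mem hh hg
  · intro g hg
    simp only [mem_filter, mem_univ, true_and] at hg ⊢
    exact H.mul_mem (H.inv_mem hh) hg
  · intro g _
    simp
  · intro g _
    simp
  · intro g _
    simp only [map_mul]

/-- `avg H * y = y` if all `h ∈ H` fix `y` -/
theorem avg_mul_of_fix (H : Subgroup G) (y : MonoidAlgebra ℚ G) (hy : ∀ h ∈ H, el h * y = y) :
    avg H * y = y := by
  classical
  rw [a02_def, smul_mul_assoc, Finset.sum_mul]
  have h1 : ∑ g ∈ (univ : Finset G).filter (fun g => g ∈ H), el g * y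
      = ∑ _g ∈ (univ : Finset G).filter (fun g => g ∈ H), y := by
    refine Finset.sum_congr rfl ?_
    intro g hg
    simp only [mem_filter, mem_univ, true_and] at hg
    exact hy g hg
  rw [h1, Finset.sum_const, a02_card, ← Nat.cast_smul_eq_nsmul ℚ, smul_smul,
    inv_mul_cancel₀ (a02_ne H), one_smul]

theorem mul_avg_of_fix (H : Subgroup G) (y : MonoidAlgebra ℚ G) (hy : ∀ h ∈ H, y * el h = y) :
    y * avg H = y := by
  classical
  rw [a02_def, mul_smul_comm, Finset.mul_sum]
  have h1 : ∑ g ∈ (univ : Finset G).filter (fun g => g ∈ H), y * el g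
      = ∑ _g ∈ (univ : Finset G).filter (fun g => g ∈ H), y := by
    refine Finset.sum_congr rfl ?_
    intro g hg
    simp only [mem_filter, mem_univ, true_and] at hg
    exact hy g hg
  rw [h1, Finset.sum_const, a02_card, ← Nat.cast_smul_eq_nsmul ℚ, smul_smul,
    inv_mul_cancel₀ (a02_ne H), one_smul]

theorem avg_idem (H : Subgroup G) : avg H * avg H = avg H :=
  avg_mul_of_fix H _ (fun _ hh => el_mul_avg H hh)

theorem avg_mul_avg_of_le {H M : Subgroup G} (h : H ≤ M) : avg H * avg M = avg M :=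
  avg_mul_of_fix H _ (fun _ hh => el_mul_avg M (h hh))

theorem avg_mul_avg_of_ge {H M : Subgroup G} (h : H ≤ M) : avg M * avg H = avg M :=
  mul_avg_of_fix H _ (fun _ hh => avg_mul_el M (h hh))

theorem el_avg_of_comm (H : Subgroup G) (g : G) (h : ∀ a ∈ H, g * a = a * g) :
    el g * avg H = avg H * el g := by
  classical
  rw [a02_def, mul_smul_comm, smul_mul_assoc, Finset.mul_sum, Finset.sum_mul]
  congr 1
  refine Finset.sum_congr rfl ?_
  intro a ha
  simp only [mem_filter, mem_univ, true_and] at ha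
  rw [← map_mul, ← map_mul, h a ha]

open Classical in
private theorem a02_image (H : Subgroup G) (g : G) (h : ∀ a ∈ H, g * a * g⁻¹ ∈ H) :
    ((univ : Finset G).filter (fun g => g ∈ H)).image (fun a => g * a * g⁻¹)
      = (univ : Finset G).filter (fun g => g ∈ H) := by
  apply Finset.eq_of_subset_of_card_le
  · intro x hx
    simp only [mem_image, mem_filter, mem_univ, true_and] at hx ⊢
    obtain ⟨a, ha, rfl⟩ := hx
    exact h a ha
  · rw [Finset.card_image_of_injective]
    intro a b hab
    simpa using hab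

/-- `g` normalizes `H` (`G` is finite) -/
theorem el_avg_of_normalize (H : Subgroup G) (g : G) (h : ∀ a ∈ H, g * a * g⁻¹ ∈ H) :
    el g * avg H = avg H * el g := by
  classical
  rw [a02_def, mul_smul_comm, smul_mul_assoc, Finset.mul_sum, Finset.sum_mul]
  congr 1
  conv_rhs => rw [← a02_image H g h]
  rw [Finset.sum_image]
  · refine Finset.sum_congr rfl ?_
    intro a _
    rw [← map_mul, ← map_mul]
    congr 1
    group
  · intro a _ b _ hab
    simpa using hab

/-- `avg (g H g⁻¹) = g avg(H) g⁻¹` -/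
theorem avg_map_conj (H : Subgroup G) (g : G) :
    avg (H.map (MulAut.conj g).toMonoidHom) = el g * avg H * el g⁻¹ := by
  classical
  have hc : Nat.card (H.map (MulAut.conj g).toMonoidHom) = Nat.card H := by
    refine (Nat.card_congr (H.equivMapOfInjective _ ?_).toEquiv).symm
    exact (MulAut.conj g).injective
  rw [a02_def, a02_def, hc, mul_smul_comm, smul_mul_assoc, Finset.mul_sum, Finset.sum_mul]
  congr 1
  refine Finset.sum_nbij' (fun a => g⁻¹ * a * g) (fun a => g * a * g⁻¹) ?_ ?_ ?_ ?_ ?_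
  · intro a ha
    simp only [mem_filter, mem_univ, true_and] at ha ⊢
    obtain ⟨b, hb, rfl⟩ := ha
    have : g⁻¹ * ((MulAut.conj g).toMonoidHom b) * g = b := by
      simp only [MulEquiv.toMonoidHom_eq_coe, MonoidHom.coe_coe, MulAut.conj_apply]
      group
    rw [this]
    exact hb
  · intro a ha
    simp only [mem_filter, mem_univ, true_and] at ha ⊢
    exact ⟨a, ha, by simp⟩
  · intro a _
    group
  · intro a _
    group
  · intro a _
    rw [← map_mul, ← map_mul]
    congr 1
    group

/-- inside a commutative subgroup `M` with `M = H₁H₂` (both `y = avg H₁ avg H₂` and `avg M` absorb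
each other) -/
theorem avg_mul_avg_of_prod {H₁ H₂ M : Subgroup G} (h₁ : H₁ ≤ M) (h₂ : H₂ ≤ M)
    (hc : ∀ a ∈ M, ∀ b ∈ M, a * b = b * a) (hp : ∀ m ∈ M, ∃ a ∈ H₁, ∃ b ∈ H₂, m = a * b) :
    avg H₁ * avg H₂ = avg M := by
  have h3 : avg H₁ * avg H₂ * avg M = avg H₁ * avg H₂ := by
    apply mul_avg_of_fix
    intro m hm
    obtain ⟨a, ha, b, hb, rfl⟩ := hp m hm
    rw [map_mul, ← mul_assoc, mul_assoc (avg H₁) (avg H₂) (el a),
      ← el_avg_of_comm H₂ a (fun c hcc => hc a (h₁ ha) c (h₂ hcc)), ← mul_assoc,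
      avg_mul_el H₁ ha, mul_assoc, avg_mul_el H₂ hb]
  rw [← h3, mul_assoc, avg_mul_avg_of_le h₂, avg_mul_avg_of_le h₁]

/-- `avg M = avg H · (1 + x + x²)/3` if `M = H⟨x⟩` commutative and `x³ = 1` -/
theorem avg_eq_of_prod_three {H M : Subgroup G} (hH : H ≤ M) {x : G} (hx : x ∈ M) (x3 : x ^ 3 = 1)
    (hc : ∀ a ∈ M, ∀ b ∈ M, a * b = b * a) (hp : ∀ m ∈ M, ∃ a ∈ H, ∃ k : ℕ, m = a * x ^ k) :
    avg M = avg H * ((1 / 3 : ℚ) • ∑ k ∈ range 3, el (x ^ k)) := by
  have hxt : el x * ((1 / 3 : ℚ) • ∑ k ∈ range 3, el (x ^ k))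
      = (1 / 3 : ℚ) • ∑ k ∈ range 3, (el (x ^ k) : MonoidAlgebra ℚ G) := by
    rw [mul_smul_comm]
    congr 1
    rw [Finset.sum_range_succ, Finset.sum_range_succ, Finset.sum_range_succ, Finset.sum_range_zero,
      zero_add, mul_add, mul_add, ← map_mul, ← map_mul, ← map_mul]
    have e0 : x * x ^ 0 = x ^ 1 := by simp
    have e1 : x * x ^ 1 = x ^ 2 := by rw [← pow_succ']
    have e2 : x * x ^ 2 = x ^ 0 := by rw [← pow_succ', x3, pow_zero]
    rw [e0, e1, e2]
    abel
  have hkt : ∀ k : ℕ, el (x ^ k) * ((1 / 3 : ℚ) • ∑ k ∈ range 3, el (x ^ k))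
      = (1 / 3 : ℚ) • ∑ k ∈ range 3, (el (x ^ k) : MonoidAlgebra ℚ G) := by
    intro k
    induction k with
    | zero => rw [pow_zero, map_one, one_mul]
    | succ k ih => rw [pow_succ, map_mul, mul_assoc, hxt, ih]
  have h1 : avg M * (avg H * ((1 / 3 : ℚ) • ∑ k ∈ range 3, el (x ^ k)))
      = avg H * ((1 / 3 : ℚ) • ∑ k ∈ range 3, el (x ^ k)) := by
    apply avg_mul_of_fix
    intro m hm
    obtain ⟨a, ha, k, rfl⟩ := hp m hm
    have hxk : x ^ k ∈ M := M.pow_mem hx k
    rw [map_mul, ← mul_assoc, mul_assoc (el a) (el (x ^ k)) (avg H),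
      el_avg_of_comm H (x ^ k) (fun c hcc => hc _ hxk c (hH hcc)), mul_assoc, mul_assoc, hkt,
      ← mul_assoc, el_mul_avg H ha]
  rw [← h1, ← mul_assoc, avg_mul_avg_of_ge hH, mul_smul_comm, Finset.mul_sum]
  have h2 : ∑ k ∈ range 3, avg M * el (x ^ k) = ∑ _k ∈ range 3, avg M := by
    refine Finset.sum_congr rfl ?_
    intro k _
    exact avg_mul_el M (M.pow_mem hx k)
  rw [h2, Finset.sum_const, Finset.card_range, ← Nat.cast_smul_eq_nsmul ℚ, smul_smul]
  norm_num

theorem avg_comm_avg {H M : Subgroup G} (h : ∀ a ∈ H, ∀ b ∈ M, a * b = b * a) :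
    avg H * avg M = avg M * avg H := by
  classical
  conv_lhs => rw [a02_def H, smul_mul_assoc, Finset.sum_mul]
  conv_rhs => rw [a02_def H, mul_smul_comm, Finset.mul_sum]
  congr 1
  refine Finset.sum_congr rfl ?_
  intro a ha
  simp only [mem_filter, mem_univ, true_and] at ha
  exact el_avg_of_comm M a (h a ha)

omit [Fintype G] in
private theorem a02_single (g : G) (r : ℚ) : MonoidAlgebra.single g r = r • el g := by
  simp [el, MonoidAlgebra.of_apply]

/-- the average of a normal subgroup is central -/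
theorem avg_central (H : Subgroup G) [H.Normal] (y : MonoidAlgebra ℚ G) : avg H * y = y * avg H := by
  induction y using MonoidAlgebra.induction_linear with
  | zero => rw [mul_zero, zero_mul]
  | add x y hx hy => rw [mul_add, add_mul, hx, hy]
  | single g r =>
    rw [a02_single, mul_smul_comm, smul_mul_assoc, el_avg_of_normalize]
    intro a ha
    exact Subgroup.Normal.conj_mem inferInstance a ha g

/-- if all commutators of `G` lie in `H` then `ζ ℚG` is commutative, `ζ = avg H` -/
theorem avg_mul_commute (H : Subgroup G) [H.Normal] (h : ∀ a b : G, a * b * a⁻¹ * b⁻¹ ∈ H)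
    (y y' : MonoidAlgebra ℚ G) : avg H * (y * y') = avg H * (y' * y) := by
  induction y using MonoidAlgebra.induction_linear with
  | zero => rw [mul_zero, zero_mul]
  | add x y hx hy => rw [mul_add, add_mul, mul_add, mul_add, hx, hy]
  | single a r =>
    induction y' using MonoidAlgebra.induction_linear with
    | zero => rw [mul_zero, zero_mul]
    | add x y hx hy => rw [mul_add, add_mul, mul_add, mul_add, hx, hy]
    | single b s =>
      rw [a02_single, a02_single, smul_mul_smul_comm, smul_mul_smul_comm, mul_comm s r,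
        mul_smul_comm, mul_smul_comm]
      congr 1
      rw [← map_mul, ← map_mul]
      have e : a * b = (a * b * a⁻¹ * b⁻¹) * (b * a) := by group
      rw [e, map_mul, ← mul_assoc, avg_mul_el H (h a b)]

/-- augmentation of an average -/
theorem avg_sum_coeff (H : Subgroup G) : ∑ g : G, (avg H).coeff g = 1 := by
  classical
  rw [a02_def]
  simp only [MonoidAlgebra.coeff_smul, MonoidAlgebra.coeff_sum, Finsupp.coe_smul, Pi.smul_apply,
    Finsupp.coe_finsetSum, Finset.sum_apply, smul_eq_mul]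
  rw [← Finset.mul_sum, Finset.sum_comm]
  have h1 : ∀ a : G, ∑ g : G, (MonoidAlgebra.coeff (el a : MonoidAlgebra ℚ G)) g = 1 := by
    intro a
    simp [el, MonoidAlgebra.of_apply, Finsupp.single_apply]
  rw [Finset.sum_congr rfl (fun a _ => h1 a), Finset.sum_const, a02_card, nsmul_eq_mul, mul_one,
    inv_mul_cancel₀ (a02_ne H)]

end Pool.Agent.Bovdi
end

section

set_option autoImplicit false

/-! # Task A4: the polynomial path of section 5 -/

namespace Pool.Agent.Bovdi

open Finset

section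
variable {A : Type*} [Ring A] [Algebra ℚ A]

theorem path_zero (l : List A) (u : A) : path l u 0 = u := by
  simp [path]

theorem path_one (l : List A) (u : A) :
    path l u 1 = (l.map (fun a => 1 + a)).prod * u * (l.reverse.map (fun a => 1 - a)).prod := by
  simp [path]

private theorem a04_cons (a : A) (l : List A) (u : A) (t : ℚ) :
    path (a :: l) u t = (1 + t • a) * path l u t * (1 - t • a) := by
  simp only [path, List.map_cons, List.prod_cons, List.reverse_cons, List.map_append,
    List.prod_append, List.map_nil, List.prod_nil, mul_one, mul_assoc]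

/-- the path consists of conjugates: `1 + ta` has the inverse `1 - ta` -/
theorem path_conj (l : List A) (hl : ∀ a ∈ l, a * a = 0) (u : A) (t : ℚ) :
    ∃ c : Aˣ, (c : A) = (l.map (fun a => 1 + t • a)).prod ∧ path l u t = c * u * (c⁻¹ : Aˣ) := by
  induction l with
  | nil => exact ⟨1, by simp, by simp [path]⟩
  | cons a l ih =>
    obtain ⟨c, hc, hp⟩ := ih (fun b hb => hl b (List.mem_cons_of_mem _ hb))
    have haa : a * a = 0 := hl a List.mem_cons_self
    have h1 : (t • a) * (t • a) = 0 := by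
      rw [smul_mul_smul_comm, haa, smul_zero]
    have e1 : (1 + t • a) * (1 - t • a) = 1 := by
      rw [add_mul, one_mul, mul_sub, mul_one, h1]
      abel
    have e2 : (1 - t • a) * (1 + t • a) = 1 := by
      rw [sub_mul, one_mul, mul_add, mul_one, h1]
      abel
    refine ⟨⟨1 + t • a, 1 - t • a, e1, e2⟩ * c, ?_, ?_⟩
    · rw [Units.val_mul, hc, List.map_cons, List.prod_cons]
    · rw [a04_cons, hp, mul_inv_rev, Units.val_mul, Units.val_mul]
      simp only [Units.inv_mk, mul_assoc]

private theorem a04_extend {F : ℚ → A} {q : ℕ} {c : ℕ → A}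
    (h : ∀ t : ℚ, F t = ∑ i ∈ range q, t ^ i • c i) {Q : ℕ} (hQ : q ≤ Q) :
    ∃ c' : ℕ → A, ∀ t : ℚ, F t = ∑ i ∈ range Q, t ^ i • c' i := by
  refine ⟨fun i => if i < q then c i else 0, ?_⟩
  intro t
  rw [h t]
  have h1 : ∑ i ∈ range q, t ^ i • c i = ∑ i ∈ range q, t ^ i • (if i < q then c i else 0) := by
    refine Finset.sum_congr rfl ?_
    intro i hi
    rw [if_pos (Finset.mem_range.1 hi)]
  rw [h1]
  refine Finset.sum_subset (Finset.range_subset_range.2 hQ) ?_
  intro i _ hi
  rw [if_neg (fun hh => hi (Finset.mem_range.2 hh)), smul_zero]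

private theorem a04_add {F H : ℚ → A} (hF : PolyPath F) (hH : PolyPath H) :
    PolyPath (fun t => F t + H t) := by
  obtain ⟨q, c, hc⟩ := hF
  obtain ⟨r, e, he⟩ := hH
  obtain ⟨c', hc'⟩ := a04_extend hc (Nat.le_add_right q r)
  obtain ⟨e', he'⟩ := a04_extend he (Nat.le_add_left r q)
  refine ⟨q + r, fun i => c' i + e' i, ?_⟩
  intro t
  simp only [smul_add, Finset.sum_add_distrib]
  rw [hc' t, he' t]

private theorem a04_left {F : ℚ → A} (hF : PolyPath F) (a : A) :
    PolyPath (fun t => (t • a) * F t) := by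
  obtain ⟨q, c, hc⟩ := hF
  refine ⟨q + 1, fun i => if i = 0 then 0 else a * c (i - 1), ?_⟩
  intro t
  rw [Finset.sum_range_succ']
  simp only [hc t, Finset.mul_sum, Nat.succ_ne_zero, if_false, Nat.add_sub_cancel, if_true,
    smul_zero, add_zero]
  refine Finset.sum_congr rfl ?_
  intro i _
  rw [smul_mul_smul_comm, pow_succ']

private theorem a04_right {F : ℚ → A} (hF : PolyPath F) (a : A) :
    PolyPath (fun t => F t * (t • a)) := by
  obtain ⟨q, c, hc⟩ := hF
  refine ⟨q + 1, fun i => if i = 0 then 0 else c (i - 1) * a, ?_⟩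
  intro t
  rw [Finset.sum_range_succ']
  simp only [hc t, Finset.sum_mul, Nat.succ_ne_zero, if_false, Nat.add_sub_cancel, if_true,
    smul_zero, add_zero]
  refine Finset.sum_congr rfl ?_
  intro i _
  rw [smul_mul_smul_comm, pow_succ]

/-- induction on `l`: if `F` is polynomial then so is `(1 + ta) F(t) (1 - ta)` -/
theorem polyPath_path (l : List A) (u : A) : PolyPath (path l u) := by
  induction l with
  | nil => exact ⟨1, fun _ => u, fun t => by simp [path]⟩
  | cons a l ih =>
    have h1 := a04_add ih (a04_left ih a)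
    have h2 := a04_add h1 (a04_right h1 (-a))
    have h3 : path (a :: l) u = fun t => (path l u t + (t • a) * path l u t)
        + (path l u t + (t • a) * path l u t) * (t • (-a)) := by
      funext t
      rw [a04_cons, smul_neg, add_mul 1, one_mul, mul_sub, mul_one, mul_neg, sub_eq_add_neg]
    rw [h3]
    exact h2

end

section
variable {G : Type} [Group G]

private theorem a04_dvd1 (k : ℕ) (t : ℤ) (h : (2 : ℤ) ^ k ∣ t - 1) (i : ℕ) :
    (2 : ℤ) ^ k ∣ t ^ i - 1 := by
  refine h.trans ?_
  have := sub_dvd_pow_sub_pow t 1 i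
  rwa [one_pow] at this

private theorem a04_dvd0 (d : ℤ) (t : ℤ) (h : d ∣ t) (i : ℕ) :
    d ∣ t ^ i - 0 ^ i := by
  refine h.trans ?_
  have := sub_dvd_pow_sub_pow t 0 i
  rwa [sub_zero] at this

/-- Section 5.  `F t = ∑ tⁱ cᵢ`, common denominator `2 ^ k * d` of all `cᵢ` (`exists_common_den`, product over
`i < q`); by the Chinese remainder theorem there is an integer `t` with `t ≡ 1` mod `2 ^ k` and `t ≡ 0` mod `d`.
`F t - F 1 = ∑ (tⁱ - 1) cᵢ` is `Int2` since `2 ^ k ∣ tⁱ - 1`; `F t - F 0 = ∑_{i ≥ 1} tⁱ cᵢ` is `Int3` since `d ∣ tⁱ`. -/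
theorem exists_int_of_polyPath (F : ℚ → MonoidAlgebra ℚ G) (hF : PolyPath F) (h0 : Int3 (F 0))
    (h1 : Int2 (F 1)) : ∃ (t : ℤ) (b : MonoidAlgebra ℤ G), toQ G b = F t := by
  obtain ⟨q, c, hc⟩ := hF
  choose k d b hd hb using fun i => exists_common_den (c i)
  set K : ℕ := ∑ i ∈ range q, k i with hK
  set D : ℕ := ∏ i ∈ range q, d i with hD
  have hDodd : Odd D := by
    rw [hD]
    refine Finset.prod_induction _ _ (fun _ _ => Odd.mul) odd_one ?_
    intro i _
    exact hd i
  -- an integer with the two congruences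
  have hco : IsCoprime ((2 : ℤ) ^ K) (D : ℤ) := by
    apply IsCoprime.pow_left
    have : Nat.Coprime 2 D := (Nat.coprime_two_left).2 hDodd
    exact_mod_cast Nat.isCoprime_iff_coprime.2 this
  obtain ⟨x, y, hxy⟩ := hco
  set t : ℤ := y * (D : ℤ) with ht
  have ht1 : (2 : ℤ) ^ K ∣ t - 1 := ⟨-x, by rw [ht]; linarith⟩
  have ht0 : (D : ℤ) ∣ t := ⟨y, by rw [ht]; ring⟩
  have key2 : ∀ i ∈ range q, Int2 (((2 : ℚ) ^ K) • c i) := by
    intro i hi
    have hk : k i ≤ K := by
      rw [hK]
      exact Finset.single_le_sum (f := k) (fun _ _ => Nat.zero_le _) hi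
    refine ⟨d i, hd i, ((2 : ℤ) ^ (K - k i)) • b i, ?_⟩
    rw [map_zsmul, ← Int.cast_smul_eq_zsmul ℚ, ← hb i, smul_smul, smul_smul]
    congr 1
    push_cast
    have : (2 : ℚ) ^ K = 2 ^ (K - k i) * 2 ^ (k i) := by
      rw [← pow_add, Nat.sub_add_cancel hk]
    rw [this]
    ring
  have key3 : ∀ i ∈ range q, Int3 ((D : ℚ) • c i) := by
    intro i hi
    obtain ⟨m, hm⟩ : d i ∣ D := by
      rw [hD]
      exact Finset.dvd_prod_of_mem d hi
    refine ⟨k i, (m : ℤ) • b i, ?_⟩
    rw [map_zsmul, ← Int.cast_smul_eq_zsmul ℚ, ← hb i, smul_smul, smul_smul]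
    congr 1
    rw [hm]
    push_cast
    ring
  have hF1 : Int2 (F t - F 1) := by
    rw [hc, hc, ← Finset.sum_sub_distrib]
    refine int2_sum _ _ ?_
    intro i hi
    obtain ⟨m, hm⟩ := a04_dvd1 K t ht1 i
    have e : (t : ℚ) ^ i • c i - (1 : ℚ) ^ i • c i = (m : ℚ) • (((2 : ℚ) ^ K) • c i) := by
      rw [← sub_smul, smul_smul, one_pow]
      congr 1
      have : (((t ^ i - 1 : ℤ)) : ℚ) = ((2 ^ K * m : ℤ) : ℚ) := by rw [hm]
      push_cast at this
      rw [this]
      ring
    rw [e]
    exact int2_zsmul m (key2 i hi)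
  have hF0 : Int3 (F t - F 0) := by
    rw [hc, hc, ← Finset.sum_sub_distrib]
    refine int3_sum _ _ ?_
    intro i hi
    obtain ⟨m, hm⟩ := a04_dvd0 D t ht0 i
    have e : (t : ℚ) ^ i • c i - (0 : ℚ) ^ i • c i = (m : ℚ) • ((D : ℚ) • c i) := by
      rw [← sub_smul, smul_smul]
      congr 1
      have : (((t ^ i - 0 ^ i : ℤ)) : ℚ) = ((D * m : ℤ) : ℚ) := by rw [hm]
      push_cast at this
      rw [this]
      ring
    rw [e]
    exact int3_zsmul m (key3 i hi)
  have e2 : Int2 (F t) := by
    have := int2_add hF1 h1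
    rwa [sub_add_cancel] at this
  have e3 : Int3 (F t) := by
    have := int3_add hF0 h0
    rwa [sub_add_cancel] at this
  obtain ⟨b', hb'⟩ := int_of_both e2 e3
  exact ⟨t, b', hb'⟩

end

end Pool.Agent.Bovdi
end
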