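import Pool.Agent.Lib.MP_0d8f30_al.BV.Def

section

set_option autoImplicit false

/-! # Task A1: calculus of `~` (congruence modulo commutators) -/

namespace Pool.Agent.Bovdi

open Finset

section
variable {A : Type*} [Ring A] [Algebra ℚ A]

theorem Eqv.refl (a : A) : Eqv a a := by
  unfold Eqv; rw [sub_self]; exact Submodule.zero_mem _
theorem Eqv.of_eq {a b : A} (h : a = b) : Eqv a b := by
  subst h; exact Eqv.refl a
theorem Eqv.symm {a b : A} (h : Eqv a b) : Eqv b a := by
  unfold Eqv at *
  have := Submodule.neg_mem _ h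
  rwa [neg_sub] at this
theorem Eqv.trans {a b c : A} (h : Eqv a b) (h' : Eqv b c) : Eqv a c := by
  unfold Eqv at *
  have := Submodule.add_mem _ h h'
  rwa [sub_add_sub_cancel] at this
theorem Eqv.add {a b c d : A} (h : Eqv a b) (h' : Eqv c d) : Eqv (a + c) (b + d) := by
  unfold Eqv at *
  have := Submodule.add_mem _ h h'
  rwa [← add_sub_add_comm] at this
theorem Eqv.sub {a b c d : A} (h : Eqv a b) (h' : Eqv c d) : Eqv (a - c) (b - d) := by
  unfold Eqv at *
  have := Submodule.sub_mem _ h h'
  rwa [sub_sub_sub_comm] at this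
theorem Eqv.smul {a b : A} (q : ℚ) (h : Eqv a b) : Eqv (q • a) (q • b) := by
  unfold Eqv at *
  have := Submodule.smul_mem _ q h
  rwa [smul_sub] at this
theorem Eqv.sum {ι : Type*} (s : Finset ι) {a b : ι → A} (h : ∀ i ∈ s, Eqv (a i) (b i)) :
    Eqv (∑ i ∈ s, a i) (∑ i ∈ s, b i) := by
  unfold Eqv at *
  rw [← Finset.sum_sub_distrib]
  exact Submodule.sum_mem _ h
/-- all terms equivalent to the same element -/
theorem Eqv.sum_const {ι : Type*} (s : Finset ι) {a : ι → A} {b : A} (h : ∀ i ∈ s, Eqv (a i) b) :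
    Eqv (∑ i ∈ s, a i) ((s.card : ℚ) • b) := by
  have h1 := Eqv.sum s (a := a) (b := fun _ => b) h
  rw [Finset.sum_const, ← Nat.cast_smul_eq_nsmul ℚ] at h1
  exact h1
theorem Eqv.mul_comm (a b : A) : Eqv (a * b) (b * a) :=
  Submodule.subset_span ⟨a, b, rfl⟩
theorem Eqv.conj (u v a : A) (h : v * u = 1) : Eqv (u * a * v) a := by
  have h1 := Eqv.mul_comm (u * a) v
  rw [← mul_assoc v u a, h, one_mul] at h1
  exact h1
/-- `e a ~ e a e` for an idempotent `e` -/
theorem Eqv.idem (e a : A) (h : e * e = e) : Eqv (e * a) (e * a * e) := by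
  have h1 := Eqv.mul_comm e (e * a)
  rw [← mul_assoc, h] at h1
  exact h1
theorem Eqv.idem_zero (e a : A) (h : e * e = e) (h0 : e * a * e = 0) : Eqv (e * a) 0 := by
  have h1 := Eqv.idem e a h
  rwa [h0] at h1
theorem Eqv.idem_zero' (e a : A) (h : e * e = e) (h0 : e * a * e = 0) : Eqv (a * e) 0 :=
  (Eqv.mul_comm a e).trans (Eqv.idem_zero e a h h0)
/-- a linear form killing all `ab - ba` takes equal values on equivalent elements -/
theorem Eqv.apply {M : Type*} [AddCommGroup M] [Module ℚ M] (φ : A →ₗ[ℚ] M)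
    (hφ : ∀ a b : A, φ (a * b) = φ (b * a)) {a b : A} (h : Eqv a b) : φ a = φ b := by
  have h1 : K A ≤ LinearMap.ker φ := by
    unfold K
    rw [Submodule.span_le]
    rintro c ⟨x, y, rfl⟩
    simp [LinearMap.mem_ker, map_sub, hφ x y]
  have h2 := h1 h
  rw [LinearMap.mem_ker, map_sub, sub_eq_zero] at h2
  exact h2

end

section
variable {G : Type} [Group G]

theorem Eqv.el_conj (g : G) (a : MonoidAlgebra ℚ G) : Eqv (el g * a * el g⁻¹) a :=
  Eqv.conj _ _ _ (by rw [← map_mul, inv_mul_cancel, map_one])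
theorem Eqv.el_conj' (g : G) (a : MonoidAlgebra ℚ G) : Eqv (el g⁻¹ * a * el g) a :=
  Eqv.conj _ _ _ (by rw [← map_mul, mul_inv_cancel, map_one])
theorem Eqv.el_mul_comm (g h : G) : Eqv (el (g * h)) (el (h * g)) := by
  rw [map_mul, map_mul]; exact Eqv.mul_comm _ _
/-- conjugate group elements -/
theorem Eqv.el_of_conj {g h : G} (c : G) (H : c * g = h * c) : Eqv (el g) (el h) := by
  have h1 : h = c * g * c⁻¹ := by rw [H, mul_inv_cancel_right]
  rw [h1, map_mul, map_mul]
  exact (Eqv.el_conj c (el g)).symm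

/-- the trace form `a ↦ ∑ g ∈ S, a.coeff g` -/
private noncomputable def a1Form (S : Finset G) : MonoidAlgebra ℚ G →ₗ[ℚ] ℚ where
  toFun a := ∑ g ∈ S, a.coeff g
  map_add' a b := by
    rw [← Finset.sum_add_distrib]
    exact Finset.sum_congr rfl fun g _ => by simp
  map_smul' q a := by
    rw [RingHom.id_apply, smul_eq_mul, Finset.mul_sum]
    exact Finset.sum_congr rfl fun g _ => by simp

open Classical in
private theorem a1Form_el (S : Finset G) (g : G) :
    a1Form S (el g) = if g ∈ S then 1 else 0 := by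
  show ∑ x ∈ S, (el g : MonoidAlgebra ℚ G).coeff x = _
  simp only [el, MonoidAlgebra.of_apply, MonoidAlgebra.coeff_single, Finsupp.single_apply]
  rw [Finset.sum_ite_eq]

/-- equal sums of coefficients over a conjugation invariant finite set
(the linear form `a ↦ ∑ g ∈ S, a.coeff g` is a trace form: enough on group elements, `gh` and `hg` are conjugate) -/
theorem Eqv.sum_coeff {a b : MonoidAlgebra ℚ G} (h : Eqv a b) (S : Finset G)
    (hS : ∀ g ∈ S, ∀ c : G, c * g * c⁻¹ ∈ S) : ∑ g ∈ S, a.coeff g = ∑ g ∈ S, b.coeff g := by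
  classical
  have key : ∀ x y : MonoidAlgebra ℚ G, a1Form S (x * y) = a1Form S (y * x) := by
    have hg : ∀ g k : G, a1Form S (el g * el k) = a1Form S (el k * el g) := by
      intro g k
      rw [← map_mul, ← map_mul, a1Form_el, a1Form_el]
      have hiff : g * k ∈ S ↔ k * g ∈ S := by
        constructor
        · intro hh
          have := hS _ hh k
          rwa [show k * (g * k) * k⁻¹ = k * g by group] at this
        · intro hh
          have := hS _ hh g
          rwa [show g * (k * g) * g⁻¹ = g * k by group] at this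
      simp only [hiff]
    intro x y
    induction x using MonoidAlgebra.induction_on with
    | of g =>
      induction y using MonoidAlgebra.induction_on with
      | of k => exact hg g k
      | add p q hp hq => rw [mul_add, add_mul, map_add, map_add, hp, hq]
      | smul r p hp => rw [mul_smul_comm, smul_mul_assoc, map_smul, map_smul, hp]
    | add p q hp hq => rw [mul_add, add_mul, map_add, map_add, hp, hq]
    | smul r p hp => rw [mul_smul_comm, smul_mul_assoc, map_smul, map_smul, hp]
  exact Eqv.apply (a1Form S) key h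

end

end Pool.Agent.Bovdi
end

section

set_option autoImplicit false

/-! # Task L1: equal characters over ℚ -/

namespace Pool.Agent.Bovdi

open Finset

/-- a generalized inverse of a linear map -/
private theorem L1_geninv {V W : Type} [AddCommGroup V] [Module ℚ V] [AddCommGroup W] [Module ℚ W]
    (f : V →ₗ[ℚ] W) : ∃ h : W →ₗ[ℚ] V, ∀ y, f (h (f y)) = f y := by
  obtain ⟨g, hg⟩ := f.rangeRestrict.exists_rightInverse_of_surjective
    (LinearMap.range_rangeRestrict f)
  obtain ⟨p, hp⟩ := (LinearMap.range f).subtype.exists_leftInverse_of_injective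
    (Submodule.ker_subtype _)
  refine ⟨g ∘ₗ p, fun y => ?_⟩
  have h1 : p (f y) = f.rangeRestrict y := by
    have := LinearMap.congr_fun hp (f.rangeRestrict y)
    simpa using this
  have h2 := LinearMap.congr_fun hg (f.rangeRestrict y)
  have h3 : (f.rangeRestrict (g (f.rangeRestrict y)) : W) = (f.rangeRestrict y : W) := by
    rw [LinearMap.comp_apply] at h2; rw [h2]; rfl
  simpa [h1] using h3

/-- an equivariant generalized inverse -/
private theorem L1_eqinv {H : Type} [Group H] [Finite H] {V W : Type} [AddCommGroup V] [Module ℚ V]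
    [AddCommGroup W] [Module ℚ W] (ρ : Representation ℚ H V) (σ : Representation ℚ H W)
    (f : V →ₗ[ℚ] W) (hf : ∀ (g : H) (y : V), f (ρ g y) = σ g (f y)) :
    ∃ h : W →ₗ[ℚ] V, (∀ y, f (h (f y)) = f y) ∧ (∀ y, h (f (h y)) = h y) ∧
      ∀ (g : H) (y : W), h (σ g y) = ρ g (h y) := by
  have := Fintype.ofFinite H
  obtain ⟨h0, h0f⟩ := L1_geninv f
  have hcard : (Fintype.card H : ℚ) ≠ 0 := by
    exact_mod_cast Fintype.card_ne_zero
  let h1 : W →ₗ[ℚ] V := (Fintype.card H : ℚ)⁻¹ • ∑ g : H, ρ g ∘ₗ h0 ∘ₗ σ g⁻¹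
  have h1a : ∀ y, h1 y = (Fintype.card H : ℚ)⁻¹ • ∑ g : H, ρ g (h0 (σ g⁻¹ y)) := by
    intro y; simp [h1]
  have h1f : ∀ y, f (h1 (f y)) = f y := by
    intro y
    rw [h1a, map_smul, map_sum]
    have : ∀ g ∈ (univ : Finset H), f (ρ g (h0 (σ g⁻¹ (f y)))) = f y := by
      intro g _
      rw [hf g, ← hf g⁻¹ y, h0f, hf g⁻¹ y]
      rw [← Module.End.mul_apply, ← map_mul]; simp
    rw [Finset.sum_congr rfl this, Finset.sum_const, Finset.card_univ, ← Nat.cast_smul_eq_nsmul ℚ,
      smul_smul, inv_mul_cancel₀ hcard, one_smul]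
  have h1e : ∀ (g : H) (y : W), h1 (σ g y) = ρ g (h1 y) := by
    intro g y
    rw [h1a, h1a, map_smul, map_sum]
    congr 1
    refine Fintype.sum_equiv (Equiv.mulLeft g⁻¹) _ _ fun k => ?_
    simp only [Equiv.coe_mulLeft]
    rw [← Module.End.mul_apply, ← map_mul, ← Module.End.mul_apply (ρ g), ← map_mul]
    congr 2
    · simp
    · simp
  refine ⟨h1 ∘ₗ f ∘ₗ h1, ?_, ?_, ?_⟩
  · intro y
    simp only [LinearMap.comp_apply]
    rw [h1f, h1f]
  · intro y
    simp only [LinearMap.comp_apply]
    rw [h1f, h1f]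
  · intro g y
    simp only [LinearMap.comp_apply]
    rw [h1e, hf, h1e]

/-- restriction of a representation to the kernel of an equivariant map -/
private def L1_res {H : Type} [Group H] {V W : Type} [AddCommGroup V] [Module ℚ V]
    [AddCommGroup W] [Module ℚ W] (ρ : Representation ℚ H V) (σ : Representation ℚ H W)
    (f : V →ₗ[ℚ] W) (hf : ∀ (g : H) (y : V), f (ρ g y) = σ g (f y)) :
    Representation ℚ H (LinearMap.ker f) where
  toFun g := (ρ g).restrict (p := LinearMap.ker f) (q := LinearMap.ker f) (by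
    intro y hy
    rw [LinearMap.mem_ker] at hy ⊢
    rw [hf, hy, map_zero])
  map_one' := by ext y; simp
  map_mul' g k := by ext y; simp

private theorem L1_res_coe {H : Type} [Group H] {V W : Type} [AddCommGroup V] [Module ℚ V]
    [AddCommGroup W] [Module ℚ W] (ρ : Representation ℚ H V) (σ : Representation ℚ H W)
    (f : V →ₗ[ℚ] W) (hf : ∀ (g : H) (y : V), f (ρ g y) = σ g (f y)) (g : H)
    (y : LinearMap.ker f) : ((L1_res ρ σ f hf g y : LinearMap.ker f) : V) = ρ g y := rfl

/-- the trace of the restriction -/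
private theorem L1_trace {H : Type} [Group H] {V W : Type} [AddCommGroup V] [Module ℚ V]
    [FiniteDimensional ℚ V] [AddCommGroup W] [Module ℚ W] [FiniteDimensional ℚ W]
    (ρ : Representation ℚ H V) (σ : Representation ℚ H W)
    (f : V →ₗ[ℚ] W) (hf : ∀ (g : H) (y : V), f (ρ g y) = σ g (f y)) (h : W →ₗ[ℚ] V)
    (hfh : ∀ y, f (h (f y)) = f y) (g : H) :
    LinearMap.trace ℚ V (ρ g) =
      LinearMap.trace ℚ W (σ g ∘ₗ f ∘ₗ h) + LinearMap.trace ℚ _ (L1_res ρ σ f hf g) := by
  let B : V →ₗ[ℚ] LinearMap.ker f := (LinearMap.codRestrict (LinearMap.ker f)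
    (LinearMap.id - h ∘ₗ f) (by
      intro y
      simp [LinearMap.mem_ker, hfh])) ∘ₗ ρ g
  have hB : ∀ y, (B y : V) = ρ g y - h (f (ρ g y)) := fun y => rfl
  have e1 : ρ g = h ∘ₗ (f ∘ₗ ρ g) + (LinearMap.ker f).subtype ∘ₗ B := by
    ext y
    simp [hB]
  have e2 : (f ∘ₗ ρ g) ∘ₗ h = σ g ∘ₗ f ∘ₗ h := by
    ext y; simp [hf]
  have e3 : B ∘ₗ (LinearMap.ker f).subtype = L1_res ρ σ f hf g := by
    ext y
    rw [LinearMap.comp_apply, hB, L1_res_coe]
    have : f (ρ g y) = 0 := by
      rw [hf, LinearMap.mem_ker.1 y.2, map_zero]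
    simp [this]
  conv_lhs => rw [e1]
  rw [map_add, LinearMap.trace_comp_comm' (f ∘ₗ ρ g) h, e2,
    LinearMap.trace_comp_comm' B (LinearMap.ker f).subtype, e3]

/-- a nonzero intertwining map -/
private theorem L1_hom {H : Type} [Group H] [Finite H] {V W : Type} [AddCommGroup V] [Module ℚ V]
    [FiniteDimensional ℚ V] [AddCommGroup W] [Module ℚ W] [FiniteDimensional ℚ W]
    (ρ : Representation ℚ H V) (σ : Representation ℚ H W)
    (h : ∀ g : H, LinearMap.trace ℚ V (ρ g) = LinearMap.trace ℚ W (σ g)) [Nontrivial V] :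
    ∃ f : V →ₗ[ℚ] W, f ≠ 0 ∧ ∀ (g : H) (y : V), f (ρ g y) = σ g (f y) := by
  have := Fintype.ofFinite H
  have hcard : (Nat.card H : ℚ) ≠ 0 := by
    exact_mod_cast Nat.card_pos.ne'
  let _ : Invertible (Nat.card H : ℚ) := invertibleOfNonzero hcard
  have h1 := Representation.card_inv_mul_sum_char_mul_char_eq_finrank ρ σ
  have h2 := Representation.card_inv_mul_sum_char_mul_char_eq_finrank ρ ρ
  have h3 : ∀ g, Representation.character σ g = Representation.character ρ g := fun g =>
    (h g).symm
  simp only [h3] at h1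
  rw [h2] at h1
  have h4 : Module.finrank ℚ (Representation.IntertwiningMap ρ ρ) =
      Module.finrank ℚ (Representation.IntertwiningMap ρ σ) := by exact_mod_cast h1
  by_contra hcon
  push Not at hcon
  have hsub : Subsingleton (Representation.IntertwiningMap ρ σ) := by
    refine ⟨fun a b => ?_⟩
    have key : ∀ a : Representation.IntertwiningMap ρ σ, a.toLinearMap = 0 := by
      intro a
      by_contra ha
      obtain ⟨g, y, hgy⟩ := hcon a.toLinearMap ha
      exact hgy (LinearMap.congr_fun (a.isIntertwining' g) y)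
    apply Representation.IntertwiningMap.ext
    rw [key a, key b]
  have h5 : Module.finrank ℚ (Representation.IntertwiningMap ρ σ) = 0 :=
    Module.finrank_zero_of_subsingleton
  rw [h5] at h4
  have hfin : Module.Finite ℚ (Representation.IntertwiningMap ρ ρ) := by
    let L : Representation.IntertwiningMap ρ ρ →ₗ[ℚ] (V →ₗ[ℚ] V) :=
      { toFun := fun a => a.toLinearMap
        map_add' := fun _ _ => rfl
        map_smul' := fun _ _ => rfl }
    exact Module.Finite.of_injective L (fun a b hab => Representation.IntertwiningMap.ext hab)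
  have h6 := Module.finrank_zero_iff.1 h4
  obtain ⟨y, hy⟩ := exists_ne (0 : V)
  apply hy
  have h7 : (Representation.IntertwiningMap.id ρ) = 0 := Subsingleton.elim _ _
  have h8 := congrArg (fun a : Representation.IntertwiningMap ρ ρ => a.toLinearMap y) h7
  simpa using h8

private theorem L1_ind (n : ℕ) : ∀ {H : Type} [Group H] [Finite H] {V W : Type} [AddCommGroup V]
    [Module ℚ V] [FiniteDimensional ℚ V] [AddCommGroup W] [Module ℚ W] [FiniteDimensional ℚ W]
    (ρ : Representation ℚ H V) (σ : Representation ℚ H W)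
    (_ : ∀ g : H, LinearMap.trace ℚ V (ρ g) = LinearMap.trace ℚ W (σ g)),
    Module.finrank ℚ V ≤ n →
    ∃ e : V ≃ₗ[ℚ] W, ∀ (g : H) (y : V), e (ρ g y) = σ g (e y) := by
  induction n with
  | zero =>
    intro H _ _ V W _ _ _ _ _ _ ρ σ h hV
    have hV0 : Module.finrank ℚ V = 0 := by omega
    have hdim : (Module.finrank ℚ V : ℚ) = Module.finrank ℚ W := by
      have := h 1
      simpa using this
    have hW0 : Module.finrank ℚ W = 0 := by
      rw [hV0] at hdim
      exact_mod_cast hdim.symm
    have := Module.finrank_zero_iff.1 hV0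
    have := Module.finrank_zero_iff.1 hW0
    exact ⟨0, fun g y => Subsingleton.elim _ _⟩
  | succ n ih =>
    intro H _ _ V W _ _ _ _ _ _ ρ σ h hV
    by_cases hV' : Module.finrank ℚ V ≤ n
    · exact ih ρ σ h hV'
    have hdim : (Module.finrank ℚ V : ℚ) = Module.finrank ℚ W := by
      have := h 1
      simpa using this
    have hdim' : Module.finrank ℚ V = Module.finrank ℚ W := by exact_mod_cast hdim
    have hnt : Nontrivial V := by
      apply Module.nontrivial_of_finrank_pos (R := ℚ); omega
    obtain ⟨f, hf0, hf⟩ := L1_hom ρ σ h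
    obtain ⟨k, hk1, hk2, hk⟩ := L1_eqinv ρ σ f hf
    have ht : ∀ g : H, LinearMap.trace ℚ _ (L1_res ρ σ f hf g) =
        LinearMap.trace ℚ _ (L1_res σ ρ k hk g) := by
      intro g
      have e1 := L1_trace ρ σ f hf k hk1 g
      have e2 := L1_trace σ ρ k hk f hk2 g
      have e3 : LinearMap.trace ℚ V (ρ g ∘ₗ k ∘ₗ f) = LinearMap.trace ℚ W (σ g ∘ₗ f ∘ₗ k) := by
        have e4 : ρ g ∘ₗ k ∘ₗ f = (k ∘ₗ σ g) ∘ₗ f := by
          ext y; simp [hk]
        have e5 : σ g ∘ₗ f ∘ₗ k = (f ∘ₗ ρ g) ∘ₗ k := by
          ext y; simp [hf]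
        rw [e4, LinearMap.trace_comp_comm']
        congr 1
        ext y; simp [hk, hf]
      rw [h g, e2, e3] at e1
      exact (add_left_cancel e1).symm
    have hlt : Module.finrank ℚ (LinearMap.ker f) ≤ n := by
      have : Module.finrank ℚ (LinearMap.ker f) < Module.finrank ℚ V := by
        apply Submodule.finrank_lt
        intro htop
        exact hf0 (LinearMap.ker_eq_top.1 htop)
      omega
    obtain ⟨e1, he1⟩ := ih (L1_res ρ σ f hf) (L1_res σ ρ k hk) ht hlt
    let B : V →ₗ[ℚ] LinearMap.ker f := LinearMap.codRestrict (LinearMap.ker f)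
      (LinearMap.id - k ∘ₗ f) (by
        intro y
        simp [LinearMap.mem_ker, hk1])
    have hB : ∀ y, (B y : V) = y - k (f y) := fun y => rfl
    let E : V →ₗ[ℚ] W := (LinearMap.ker k).subtype ∘ₗ e1.toLinearMap ∘ₗ B + f
    have hE : ∀ y, E y = (e1 (B y) : W) + f y := fun y => rfl
    have hinj : Function.Injective E := by
      rw [← LinearMap.ker_eq_bot, LinearMap.ker_eq_bot']
      intro y hy
      rw [hE] at hy
      have h1 : k (f y) = 0 := by
        have h2 := congrArg k hy
        rw [map_add, LinearMap.mem_ker.1 (e1 (B y)).2, zero_add, map_zero] at h2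
        exact h2
      have h2 : f y = 0 := by rw [← hk1, h1, map_zero]
      rw [h2, add_zero] at hy
      have h3 : e1 (B y) = 0 := Subtype.ext hy
      have h4 : B y = 0 := by simpa using h3
      have h5 := congrArg (fun z : LinearMap.ker f => (z : V)) h4
      simp only [hB, h1, sub_zero] at h5
      simpa using h5
    refine ⟨LinearEquiv.ofInjectiveOfFinrankEq E hinj hdim', ?_⟩
    intro g y
    change E (ρ g y) = σ g (E y)
    rw [hE, hE, map_add, hf]
    congr 1
    have h1 : B (ρ g y) = L1_res ρ σ f hf g (B y) := by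
      apply Subtype.ext
      rw [hB, L1_res_coe, hB, map_sub, hf, hk]
    rw [h1, he1, L1_res_coe]

/-- Two finite dimensional representations over ℚ of a finite group with the same character are isomorphic.
Induction on `finrank V`.  If `finrank V = 0` then `finrank W = 0` (character at 1).  Otherwise take an irreducible
subrepresentation of `V` (Maschke), i.e. an irreducible `τ` with a nonzero intertwining map `τ → ρ`; by
`Representation.card_inv_mul_sum_char_mul_char_eq_finrank` (with the reps `τ, ρ` and `τ, σ`) the spaces of intertwining maps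
`τ → ρ`, `τ → σ` have the same dimension, so there is a nonzero (hence injective) intertwining map `τ → σ`.  Split off both
images (complements by Maschke); the complements have the same character (additivity of the trace,
`LinearMap.trace_eq_sum_trace_restrict` or similar); induction.  Alternatively work with modules over `MonoidAlgebra ℚ H`. -/
theorem exists_equiv_of_char {H : Type} [Group H] [Finite H] {V W : Type} [AddCommGroup V] [Module ℚ V]
    [FiniteDimensional ℚ V] [AddCommGroup W] [Module ℚ W] [FiniteDimensional ℚ W]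
    (ρ : Representation ℚ H V) (σ : Representation ℚ H W)
    (h : ∀ g : H, LinearMap.trace ℚ V (ρ g) = LinearMap.trace ℚ W (σ g)) :
    ∃ e : V ≃ₗ[ℚ] W, ∀ (g : H) (y : V), e (ρ g y) = σ g (e y) :=
  L1_ind _ ρ σ h le_rfl

end Pool.Agent.Bovdi
end
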