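import Pool.Agent.Lib.MP_0d8f30_al.Mg.G006

section

set_option autoImplicit false

/-! # Task Mat1b: the integral matrices `U_c`, `c = ± 1` (section 3)

`U_c` is a `514 × 514` matrix over ℤ (index `Fin 508 ⊕ (Fin 3 × Fin 2)`: basis `x^i`, `ε^(j+1)`, `x ε^(j+1)`), acting on column vectors
(`Matrix.mulVec`).  `pc g v` below is `g(U) v` for a polynomial `g`. -/

namespace Pool.Agent.Bovdi

open Polynomial

/-- the index type of the basis -/
abbrev Ix : Type := Fin 508 ⊕ (Fin 3 × Fin 2)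

/-- what we need of the two matrices.  `e 0 = 1`, `e j = ε^j`.  `g(U) v = (aeval U g) *ᵥ v`. -/
structure IsU (Q : ℤ[X]) (c : ℤ) (U : Matrix Ix Ix ℤ) (e : Fin 4 → Ix → ℤ) : Prop where
  /-- `(x² - 1) ε^j = -4 (x - c) ε^(j-1)` -/
  rel : ∀ j : Fin 3, (aeval U (X ^ 2 - 1 : ℤ[X])).mulVec (e j.succ) =
    (aeval U (-4 * (X - C c) : ℤ[X])).mulVec (e j.castSucc)
  /-- `((x²-1)p₄ - 4(x-c)p₃) 1 = 4(x-c)(p₂ ε + p₁ ε² + ε³)` -/
  top : (aeval U ((X ^ 2 - 1) * (-8290560 + (3 * X ^ 2 + 1) * Q)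
      - 4 * (X - C c) * (X * (-2763520 + (X ^ 2 + 1) * Q)) : ℤ[X])).mulVec (e 0) =
    (aeval U (4 * (X - C c) * 688840 : ℤ[X])).mulVec (e 1) +
    (aeval U (4 * (X - C c) * (-1020 * X) : ℤ[X])).mulVec (e 2) +
    (aeval U (4 * (X - C c) : ℤ[X])).mulVec (e 3)
  /-- the `e j` generate -/
  gen : ∀ v : Ix → ℤ, ∃ g : Fin 4 → ℤ[X], v = ∑ j, (aeval U (g j)).mulVec (e j)

/-! ## the action of polynomials -/

section act
variable {R : Type*} [CommRing R] {ι : Type*} [Fintype ι] [DecidableEq ι] (U : Matrix ι ι R)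

theorem pc_mul (g h : R[X]) (v : ι → R) :
    (aeval U (g * h)).mulVec v = (aeval U g).mulVec ((aeval U h).mulVec v) := by
  rw [map_mul, Matrix.mulVec_mulVec]

theorem pc_add (g h : R[X]) (v : ι → R) :
    (aeval U (g + h)).mulVec v = (aeval U g).mulVec v + (aeval U h).mulVec v := by
  rw [map_add, Matrix.add_mulVec]

theorem pc_sub (g h : R[X]) (v : ι → R) :
    (aeval U (g - h)).mulVec v = (aeval U g).mulVec v - (aeval U h).mulVec v := by
  rw [map_sub, Matrix.sub_mulVec]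

theorem pc_neg (g : R[X]) (v : ι → R) :
    (aeval U (-g)).mulVec v = -(aeval U g).mulVec v := by
  rw [map_neg, Matrix.neg_mulVec]

theorem pc_C (a : R) (v : ι → R) : (aeval U (C a)).mulVec v = a • v := by
  rw [aeval_C, Algebra.algebraMap_eq_smul_one, Matrix.smul_mulVec, Matrix.one_mulVec]

theorem pc_X (v : ι → R) : (aeval U (X : R[X])).mulVec v = U.mulVec v := by
  rw [aeval_X]

theorem pc_one (v : ι → R) : (aeval U (1 : R[X])).mulVec v = v := by
  rw [map_one, Matrix.one_mulVec]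

theorem pc_sum {κ : Type*} (s : Finset κ) (g : κ → R[X]) (v : ι → R) :
    (aeval U (∑ i ∈ s, g i)).mulVec v = ∑ i ∈ s, (aeval U (g i)).mulVec v := by
  rw [map_sum, Matrix.sum_mulVec]

end act

/-! ## the matrices -/

/-- the basis vector `x^i`, zero if `i ≥ 508` -/
def b0 (i : ℕ) : Ix → ℤ := if h : i < 508 then Pi.single (Sum.inl ⟨i, h⟩) 1 else 0

/-- the basis vector `x^k ε^(j+1)` -/
def b1 (j : Fin 3) (k : Fin 2) : Ix → ℤ := Pi.single (Sum.inr (j, k)) 1

/-- the last column: `x · x^507` -/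
def lastCol (q : ℕ → ℤ) (c : ℤ) : Ix → ℤ :=
  -(∑ t ∈ Finset.range 508, q t • b0 t) + (4 * 688840 : ℤ) • (b1 0 1 - c • b1 0 0)
    - (4080 : ℤ) • (b1 1 0 - (4 : ℤ) • (b1 0 1 - c • b1 0 0) - c • b1 1 1)
    + (4 : ℤ) • (b1 2 1 - c • b1 2 0)

/-- the columns of the matrix -/
def colU (q : ℕ → ℤ) (c : ℤ) : Ix → Ix → ℤ
  | Sum.inl i => if (i : ℕ) < 507 then b0 (i + 1) else lastCol q c
  | Sum.inr (j, k) =>
    if k = 0 then b1 j 1 else
      if j = 0 then b1 0 0 - (4 : ℤ) • (b0 1 - c • b0 0)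
      else if j = 1 then b1 1 0 - (4 : ℤ) • (b1 0 1 - c • b1 0 0)
      else b1 2 0 - (4 : ℤ) • (b1 1 1 - c • b1 1 0)

/-- the matrix -/
def matU (q : ℕ → ℤ) (c : ℤ) : Matrix Ix Ix ℤ := Matrix.of fun i k => colU q c k i

theorem matU_single (q : ℕ → ℤ) (c : ℤ) (k : Ix) :
    (matU q c).mulVec (Pi.single k 1) = colU q c k := by
  rw [Matrix.mulVec_single_one]; rfl

theorem matU_b0 (q : ℕ → ℤ) (c : ℤ) {i : ℕ} (h : i < 507) :
    (matU q c).mulVec (b0 i) = b0 (i + 1) := by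
  have h' : i < 508 := by omega
  rw [b0, dif_pos h', matU_single]
  simp only [colU, h, if_true]

theorem matU_b0_last (q : ℕ → ℤ) (c : ℤ) :
    (matU q c).mulVec (b0 507) = lastCol q c := by
  have h' : 507 < 508 := by omega
  rw [b0, dif_pos h', matU_single]
  simp only [colU, lt_irrefl, if_false]

theorem matU_b1_zero (q : ℕ → ℤ) (c : ℤ) (j : Fin 3) :
    (matU q c).mulVec (b1 j 0) = b1 j 1 := by
  rw [b1, matU_single]; simp only [colU, if_true]

theorem matU_b1_01 (q : ℕ → ℤ) (c : ℤ) :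
    (matU q c).mulVec (b1 0 1) = b1 0 0 - (4 : ℤ) • (b0 1 - c • b0 0) := by
  rw [b1, matU_single]; simp [colU]

theorem matU_b1_11 (q : ℕ → ℤ) (c : ℤ) :
    (matU q c).mulVec (b1 1 1) = b1 1 0 - (4 : ℤ) • (b1 0 1 - c • b1 0 0) := by
  rw [b1, matU_single]; simp [colU]

theorem matU_b1_21 (q : ℕ → ℤ) (c : ℤ) :
    (matU q c).mulVec (b1 2 1) = b1 2 0 - (4 : ℤ) • (b1 1 1 - c • b1 1 0) := by
  rw [b1, matU_single]; simp [colU]

theorem matU_pow_b0 (q : ℕ → ℤ) (c : ℤ) (i : ℕ) (h : i ≤ 507) :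
    (aeval (matU q c) (X ^ i : ℤ[X])).mulVec (b0 0) = b0 i := by
  induction i with
  | zero => rw [pow_zero, pc_one]
  | succ i ih => rw [pow_succ', pc_mul, ih (by omega), pc_X, matU_b0 q c (by omega)]

/-- the vectors `e` -/
def vecE (j : Fin 4) : Ix → ℤ := Fin.cases (b0 0) (fun j => b1 j 0) j

theorem vecE_zero : vecE 0 = b0 0 := rfl
theorem vecE_succ (j : Fin 3) : vecE j.succ = b1 j 0 := rfl

theorem pc_X_sq_sub_one (U : Matrix Ix Ix ℤ) (v : Ix → ℤ) :
    (aeval U (X ^ 2 - 1 : ℤ[X])).mulVec v = U.mulVec (U.mulVec v) - v := by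
  rw [pc_sub, pc_one, pow_two, pc_mul, pc_X, pc_X]

theorem pc_lin (U : Matrix Ix Ix ℤ) (a c : ℤ) (v : Ix → ℤ) :
    (aeval U (C a * (X - C c) : ℤ[X])).mulVec v = a • (U.mulVec v - c • v) := by
  rw [pc_mul, pc_sub, pc_C, pc_C, pc_X]

theorem pc_lin2 (U : Matrix Ix Ix ℤ) (a b c : ℤ) (v : Ix → ℤ) :
    (aeval U (C a * (X - C c) * (C b * X) : ℤ[X])).mulVec v =
      (a * b) • (U.mulVec (U.mulVec v) - c • U.mulVec v) := by
  rw [pc_mul, pc_lin, pc_mul, pc_C, pc_X, Matrix.mulVec_smul]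
  module

theorem matU_rel (q : ℕ → ℤ) (c : ℤ) (j : Fin 3) :
    (aeval (matU q c) (X ^ 2 - 1 : ℤ[X])).mulVec (vecE j.succ) =
    (aeval (matU q c) (-4 * (X - C c) : ℤ[X])).mulVec (vecE j.castSucc) := by
  have e4 : (-4 * (X - C c) : ℤ[X]) = C (-4) * (X - C c) := by
    rw [C_neg]; rfl
  rw [e4, pc_lin, pc_X_sq_sub_one, vecE_succ, matU_b1_zero]
  fin_cases j
  · change (matU q c).mulVec (b1 0 1) - b1 0 0 = (-4 : ℤ) • ((matU q c).mulVec (b0 0) - c • b0 0)
    rw [matU_b1_01, matU_b0 q c (by omega)]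
    module
  · change (matU q c).mulVec (b1 1 1) - b1 1 0 = (-4 : ℤ) • ((matU q c).mulVec (b1 0 0) - c • b1 0 0)
    rw [matU_b1_11, matU_b1_zero]
    module
  · change (matU q c).mulVec (b1 2 1) - b1 2 0 = (-4 : ℤ) • ((matU q c).mulVec (b1 1 0) - c • b1 1 0)
    rw [matU_b1_21, matU_b1_zero]
    module

theorem matU_top (q : ℕ → ℤ) (c : ℤ) (P : ℤ[X]) (hP : P.Monic) (hd : P.natDegree = 508)
    (hq : ∀ t, t < 508 → q t = P.coeff t) :
    (aeval (matU q c) P).mulVec (vecE 0) =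
    (aeval (matU q c) (4 * (X - C c) * 688840 : ℤ[X])).mulVec (vecE 1) +
    (aeval (matU q c) (4 * (X - C c) * (-1020 * X) : ℤ[X])).mulVec (vecE 2) +
    (aeval (matU q c) (4 * (X - C c) : ℤ[X])).mulVec (vecE 3) := by
  have h1 : (4 * (X - C c) * 688840 : ℤ[X]) = C (4 * 688840) * (X - C c) := by
    rw [C_mul]; change _ = (4 : ℤ[X]) * 688840 * (X - C c); ring
  have h2 : (4 * (X - C c) * (-1020 * X) : ℤ[X]) = C 4 * (X - C c) * (C (-1020) * X) := by
    rw [C_neg]; rfl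
  have h3 : (4 * (X - C c) : ℤ[X]) = C 4 * (X - C c) := rfl
  rw [h1, h2, h3, pc_lin, pc_lin2, pc_lin]
  change (aeval (matU q c) P).mulVec (b0 0) = (4 * 688840 : ℤ) • ((matU q c).mulVec (b1 0 0) - c • b1 0 0) +
    (4 * -1020 : ℤ) • ((matU q c).mulVec ((matU q c).mulVec (b1 1 0)) - c • (matU q c).mulVec (b1 1 0)) +
    (4 : ℤ) • ((matU q c).mulVec (b1 2 0) - c • b1 2 0)
  simp only [matU_b1_zero, matU_b1_11]
  have hP' : P = ∑ t ∈ Finset.range 508, C (P.coeff t) * X ^ t + X ^ 508 := by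
    conv_lhs => rw [P.as_sum_range_C_mul_X_pow, hd, Finset.sum_range_succ]
    have : P.coeff 508 = 1 := by rw [← hd]; exact hP
    rw [this, C_1, one_mul]
  rw [hP', pc_add, pc_sum]
  have h508 : (aeval (matU q c) (X ^ 508 : ℤ[X])).mulVec (b0 0) = lastCol q c := by
    rw [show (X ^ 508 : ℤ[X]) = X * X ^ 507 by ring, pc_mul,
      matU_pow_b0 q c 507 le_rfl, pc_X, matU_b0_last]
  rw [h508, lastCol]
  have hs : ∑ i ∈ Finset.range 508, (aeval (matU q c) (C (P.coeff i) * X ^ i : ℤ[X])).mulVec (b0 0)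
      = ∑ t ∈ Finset.range 508, q t • b0 t := by
    refine Finset.sum_congr rfl fun t ht => ?_
    have ht' := Finset.mem_range.1 ht
    rw [pc_mul, pc_C, matU_pow_b0 q c t (by omega), hq t ht']
  rw [hs]
  module

theorem matU_gen (q : ℕ → ℤ) (c : ℤ) (v : Ix → ℤ) :
    ∃ g : Fin 4 → ℤ[X], v = ∑ j, (aeval (matU q c) (g j)).mulVec (vecE j) := by
  refine ⟨fun j => Fin.cases (∑ i : Fin 508, C (v (Sum.inl i)) * X ^ (i : ℕ))
    (fun j => C (v (Sum.inr (j, 0))) + C (v (Sum.inr (j, 1))) * X) j, ?_⟩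
  rw [Fin.sum_univ_succ]
  simp only [Fin.cases_zero, Fin.cases_succ, vecE_zero, vecE_succ]
  have h0 : (aeval (matU q c) (∑ i : Fin 508, C (v (Sum.inl i)) * X ^ (i : ℕ) : ℤ[X])).mulVec (b0 0) =
      ∑ i : Fin 508, v (Sum.inl i) • (Pi.single (Sum.inl i) 1 : Ix → ℤ) := by
    rw [pc_sum]
    refine Finset.sum_congr rfl fun i _ => ?_
    rw [pc_mul, pc_C, matU_pow_b0 q c i (by omega), b0, dif_pos i.2]
  have h1 : ∀ j : Fin 3, (aeval (matU q c) (C (v (Sum.inr (j, 0))) + C (v (Sum.inr (j, 1))) * X : ℤ[X])).mulVec (b1 j 0)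
      = ∑ k : Fin 2, v (Sum.inr (j, k)) • (Pi.single (Sum.inr (j, k)) 1 : Ix → ℤ) := by
    intro j
    rw [pc_add, pc_mul, pc_C, pc_C, pc_X, matU_b1_zero, Fin.sum_univ_two]
    rfl
  rw [h0, Finset.sum_congr rfl (fun j _ => h1 j)]
  have key : v = ∑ i : Ix, v i • (Pi.single i 1 : Ix → ℤ) := by
    conv_lhs => rw [← Finset.univ_sum_single v]
    refine Finset.sum_congr rfl fun i _ => ?_
    rw [← Pi.single_smul, smul_eq_mul, mul_one]
  conv_lhs => rw [key]
  rw [Fintype.sum_sum_type, Fintype.sum_prod_type]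

/-- the difference of two columns, divided by 8 -/
def colY (r : ℕ → ℤ) : Ix → Ix → ℤ
  | Sum.inl i => if (i : ℕ) < 507 then 0 else
      -(∑ t ∈ Finset.range 508, r t • b0 t) - (688840 : ℤ) • b1 0 0
      - (4080 : ℤ) • b1 0 0 + (1020 : ℤ) • b1 1 1 - b1 2 0
  | Sum.inr (j, k) =>
    if k = 0 then 0 else
      if j = 0 then b0 0
      else if j = 1 then b1 0 0
      else b1 1 0

theorem colU_sub (q q' r : ℕ → ℤ) (h : ∀ t, q t = q' t + 8 * r t) (k : Ix) :
    colU q 1 k = colU q' (-1) k + (8 : ℤ) • colY r k := by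
  rcases k with i | ⟨j, k⟩
  · by_cases hi : (i : ℕ) < 507
    · simp only [colU, colY, hi, if_true, smul_zero, add_zero]
    · simp only [colU, colY, hi, if_false]
      rw [lastCol, lastCol]
      have hs : ∑ t ∈ Finset.range 508, q t • b0 t =
          ∑ t ∈ Finset.range 508, q' t • b0 t + (8 : ℤ) • ∑ t ∈ Finset.range 508, r t • b0 t := by
        rw [Finset.smul_sum, ← Finset.sum_add_distrib]
        refine Finset.sum_congr rfl fun t _ => ?_
        rw [h t, add_smul, mul_smul]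
      rw [hs]
      module
  · by_cases hk : k = 0
    · simp only [colU, colY, hk, if_true, smul_zero, add_zero]
    · simp only [colU, colY, hk, if_false]
      by_cases hj : j = 0
      · simp only [hj, if_true]; module
      · by_cases hj1 : j = 1
        · simp only [hj1, one_ne_zero, if_false, if_true]; module
        · simp only [hj, hj1, if_false]; module

/-- The explicit matrices: `x · x^i = x^(i+1)` for `i < 507`, `x · ε^j = xε^j`, `x · xε^j = ε^j - 4(x - c)ε^(j-1)` (`ε^0 = 1`),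
`x · x^507 = x^508` = (minus the lower part of the monic polynomial `Q_c = -(X-c)⁴Q + 2763520(X-c)(X-3c)`) `· 1 + 4(x-c)(688840 ε - 1020 x ε² + ε³)`
(reduced with `x²ε² = ε² - 4(x-c)ε`).  All entries of `U_1 - U_{-1}` are divisible by 8
(`Q_1 - Q_{-1} = -8 X(...)`, `4(x-1) - 4(x+1) = -8`). -/
theorem exists_IsU (Q : ℤ[X]) (h1 : Q.natDegree = 504) (h2 : Q.leadingCoeff = -1) :
    ∃ (Up Um Y : Matrix Ix Ix ℤ) (e : Fin 4 → Ix → ℤ), IsU Q 1 Up e ∧ IsU Q (-1) Um e ∧ Up = Um + (8 : ℤ) • Y := by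
  have hp := Qc_monic Q h1 h2 1 (Or.inl rfl)
  have hm := Qc_monic Q h1 h2 (-1) (Or.inr rfl)
  rw [← Qc_eq Q 1 (Or.inl rfl)] at hp
  rw [← Qc_eq Q (-1) (Or.inr rfl)] at hm
  set Pp : ℤ[X] := (X ^ 2 - 1) * (-8290560 + (3 * X ^ 2 + 1) * Q)
    - 4 * (X - C 1) * (X * (-2763520 + (X ^ 2 + 1) * Q)) with hPp
  set Pm : ℤ[X] := (X ^ 2 - 1) * (-8290560 + (3 * X ^ 2 + 1) * Q)
    - 4 * (X - C (-1)) * (X * (-2763520 + (X ^ 2 + 1) * Q)) with hPm
  have hdiff : Pp = Pm + C 8 * (X * (-2763520 + (X ^ 2 + 1) * Q)) := by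
    rw [hPp, hPm, C_neg, C_1]
    change _ = _ + 8 * _
    ring
  refine ⟨matU (fun t => Pp.coeff t) 1, matU (fun t => Pm.coeff t) (-1),
    Matrix.of fun i k => colY (fun t => (X * (-2763520 + (X ^ 2 + 1) * Q)).coeff t) k i, vecE,
    ⟨matU_rel _ _, ?_, matU_gen _ _⟩, ⟨matU_rel _ _, ?_, matU_gen _ _⟩, ?_⟩
  · exact matU_top _ _ Pp hp.1 hp.2 (fun t _ => rfl)
  · exact matU_top _ _ Pm hm.1 hm.2 (fun t _ => rfl)
  · ext i k
    have := congrFun (colU_sub (fun t => Pp.coeff t) (fun t => Pm.coeff t)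
      (fun t => (X * (-2763520 + (X ^ 2 + 1) * Q)).coeff t)
      (fun t => by
        change Pp.coeff t = Pm.coeff t + 8 * (X * (-2763520 + (X ^ 2 + 1) * Q)).coeff t
        rw [← coeff_C_mul, ← coeff_add, ← hdiff]) k) i
    exact this

end Pool.Agent.Bovdi
end

section

set_option autoImplicit false

/-! # Task Mat2: the trace on `ℚ[X]/P` and the padding matrix -/

namespace Pool.Agent.Bovdi

open Polynomial

private theorem mat2_map0 (R : Type*) [CommRing R] (N : ℕ) :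
    (∑ i ∈ Finset.range N, (X : ℤ[X]) ^ (2 * i)).map (Int.castRingHom R) =
      ∑ i ∈ Finset.range N, (X : R[X]) ^ (2 * i) := by
  simp only [Polynomial.map_sum, Polynomial.map_pow, Polynomial.map_X]

private theorem mat2_map (R : Type*) [CommRing R] :
    PP.map (Int.castRingHom R) = ∑ i ∈ Finset.range 256, (X : R[X]) ^ (2 * i) := by
  unfold PP
  generalize 256 = N
  exact mat2_map0 R N

private theorem mat2_dvd0 (R : Type*) [CommRing R] (P : ℤ[X]) (N : ℕ) (h : (X ^ 2 - 1) * P = X ^ N - 1) :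
    (X ^ 2 - 1) * P.map (Int.castRingHom R) = X ^ N - 1 := by
  have h := congrArg (Polynomial.map (Int.castRingHom R)) h
  rwa [Polynomial.map_mul, Polynomial.map_sub, Polynomial.map_sub, Polynomial.map_pow, Polynomial.map_pow,
    Polynomial.map_X, Polynomial.map_one] at h

private theorem mat2_dvd (R : Type*) [CommRing R] :
    (X ^ 2 - 1) * PP.map (Int.castRingHom R) = X ^ 512 - 1 :=
  mat2_dvd0 R PP 512 PP_mul

private theorem mat2_monic (R : Type*) [CommRing R] : (PP.map (Int.castRingHom R)).Monic :=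
  PP_monic.map _

private theorem mat2_deg (R : Type*) [CommRing R] [Nontrivial R] :
    (PP.map (Int.castRingHom R)).natDegree = 510 := by
  rw [PP_monic.natDegree_map, PP_natDegree]

private theorem mat2_mod (R : Type*) [CommRing R] (n : ℕ) :
    (X ^ n : R[X]) %ₘ PP.map (Int.castRingHom R) =
      (X ^ (n % 512) : R[X]) %ₘ PP.map (Int.castRingHom R) := by
  apply Polynomial.modByMonic_eq_of_dvd_sub (mat2_monic R)
  have h1 : PP.map (Int.castRingHom R) ∣ (X ^ 512 - 1 : R[X]) := by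
    rw [← mat2_dvd]
    exact dvd_mul_left _ _
  have h2 : (X ^ 512 - 1 : R[X]) ∣ (X ^ 512) ^ (n / 512) - 1 := by
    simpa using sub_dvd_pow_sub_pow (X ^ 512 : R[X]) 1 (n / 512)
  have h3 : (X ^ n : R[X]) - X ^ (n % 512) = ((X ^ 512) ^ (n / 512) - 1) * X ^ (n % 512) := by
    rw [sub_mul, one_mul, ← pow_mul, ← pow_add, Nat.div_add_mod]
  rw [h3]
  exact (h1.trans h2).mul_right _

private theorem mat2_coeff_sum (R : Type*) [CommRing R] (d i : ℕ) (hd : d < 2) (hi : i < 510) :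
    (∑ j ∈ Finset.range 255, (X : R[X]) ^ (2 * j + d)).coeff i = if i % 2 = d then 1 else 0 := by
  rw [Polynomial.finsetSum_coeff]
  simp only [Polynomial.coeff_X_pow]
  split_ifs with h
  · rw [Finset.sum_eq_single (i / 2)]
    · rw [if_pos (by omega)]
    · intro b _ hb
      rw [if_neg (by omega)]
    · intro hb
      exact absurd (Finset.mem_range.mpr (by omega)) hb
  · apply Finset.sum_eq_zero
    intro j _
    rw [if_neg (by omega)]

private theorem mat2_coeff (R : Type*) [CommRing R] [Nontrivial R] (n i : ℕ) (hi : i < 510) :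
    ((X ^ n : R[X]) %ₘ PP.map (Int.castRingHom R)).coeff i =
      (if i = n % 512 then 1 else 0) - (if 510 ≤ n % 512 ∧ i % 2 = n % 2 then 1 else 0) := by
  rw [mat2_mod]
  have hdeg : (PP.map (Int.castRingHom R)).degree = ((510 : ℕ) : WithBot ℕ) := by
    rw [Polynomial.degree_eq_natDegree (mat2_monic R).ne_zero, mat2_deg]
  by_cases h : n % 512 < 510
  · have h1 : (X ^ (n % 512) : R[X]) %ₘ PP.map (Int.castRingHom R) = X ^ (n % 512) := by
      rw [Polynomial.modByMonic_eq_self_iff (mat2_monic R), hdeg, Polynomial.degree_X_pow]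
      exact_mod_cast h
    rw [h1, Polynomial.coeff_X_pow, if_neg (show ¬ (510 ≤ n % 512 ∧ i % 2 = n % 2) by omega), sub_zero]
  · obtain ⟨d, hd, hnd⟩ : ∃ d, d < 2 ∧ n % 512 = 510 + d := ⟨n % 512 - 510, by omega, by omega⟩
    have h1 : (X ^ (n % 512) : R[X]) %ₘ PP.map (Int.castRingHom R) =
        - ∑ j ∈ Finset.range 255, (X : R[X]) ^ (2 * j + d) := by
      refine (Polynomial.div_modByMonic_unique (X ^ d) _ (mat2_monic R) ⟨?_, ?_⟩).2
      · rw [mat2_map, Finset.sum_range_succ _ 255, hnd, add_mul, Finset.sum_mul]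
        simp only [← pow_add]
        ring
      · rw [Polynomial.degree_neg, hdeg]
        apply lt_of_le_of_lt (b := ((509 : ℕ) : WithBot ℕ)) _ (by exact_mod_cast (by norm_num : 509 < 510))
        refine (Polynomial.degree_sum_le _ _).trans (Finset.sup_le fun j hj => ?_)
        rw [Polynomial.degree_X_pow]
        have := Finset.mem_range.mp hj
        exact_mod_cast (by omega : 2 * j + d ≤ 509)
    rw [h1, Polynomial.coeff_neg, mat2_coeff_sum R d i hd hi, if_neg (show ¬ i = n % 512 by omega), zero_sub]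
    congr 1
    by_cases h2 : i % 2 = d
    · rw [if_pos h2, if_pos (by omega)]
    · rw [if_neg h2, if_neg (by omega)]

private theorem mat2_count (R : Type*) [CommRing R] (k : ℕ) :
    ∑ i ∈ Finset.range 510, (((if i = (k + i) % 512 then 1 else 0) : R) -
      (if 510 ≤ (k + i) % 512 ∧ i % 2 = (k + i) % 2 then 1 else 0)) =
      (if 512 ∣ k then 512 else 0) - 1 - (-1) ^ k := by
  by_cases h : 512 ∣ k
  · have h1 : ∀ i ∈ Finset.range 510, (((if i = (k + i) % 512 then 1 else 0) : R) -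
        (if 510 ≤ (k + i) % 512 ∧ i % 2 = (k + i) % 2 then 1 else 0)) = 1 := by
      intro i hi
      have := Finset.mem_range.mp hi
      rw [if_pos (by omega), if_neg (by omega), sub_zero]
    rw [Finset.sum_congr rfl h1, if_pos h, Even.neg_one_pow (by
      obtain ⟨a, rfl⟩ := h
      exact ⟨256 * a, by ring⟩)]
    simp
    norm_num
  · rw [if_neg h]
    have h1 : ∀ i ∈ Finset.range 510, (((if i = (k + i) % 512 then 1 else 0) : R) -
        (if 510 ≤ (k + i) % 512 ∧ i % 2 = (k + i) % 2 then 1 else 0)) =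
        - (if 510 ≤ (k + i) % 512 ∧ i % 2 = (k + i) % 2 then 1 else 0) := by
      intro i hi
      have := Finset.mem_range.mp hi
      rw [if_neg (by omega), zero_sub]
    rw [Finset.sum_congr rfl h1, Finset.sum_neg_distrib, ← Finset.sum_filter]
    rcases Nat.even_or_odd k with hk | hk
    · rw [hk.neg_one_pow]
      have hk2 : k % 2 = 0 := Nat.even_iff.mp hk
      have h2 : (Finset.range 510).filter (fun i => 510 ≤ (k + i) % 512 ∧ i % 2 = (k + i) % 2) =
          {510 - k % 512, 511 - k % 512} := by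
        ext i
        simp only [Finset.mem_filter, Finset.mem_range, Finset.mem_insert, Finset.mem_singleton]
        omega
      rw [h2, Finset.sum_pair (by omega)]
      ring
    · rw [hk.neg_one_pow]
      have hk2 : k % 2 = 1 := Nat.odd_iff.mp hk
      have h2 : (Finset.range 510).filter (fun i => 510 ≤ (k + i) % 512 ∧ i % 2 = (k + i) % 2) = ∅ := by
        ext i
        simp only [Finset.mem_filter, Finset.mem_range, Finset.notMem_empty, iff_false]
        omega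
      rw [h2]
      simp

private theorem mat2_trace (R : Type*) [CommRing R] [Nontrivial R] (k : ℕ) :
    (Algebra.leftMulMatrix (AdjoinRoot.powerBasisAux' (mat2_monic R))
      (AdjoinRoot.root (PP.map (Int.castRingHom R)) ^ k)).trace =
      (if 512 ∣ k then 512 else 0) - 1 - (-1) ^ k := by
  rw [← mat2_count R k, Matrix.trace]
  have hb : ∀ i, AdjoinRoot.powerBasisAux' (mat2_monic R) i =
      AdjoinRoot.mk (PP.map (Int.castRingHom R)) (X ^ (i : ℕ)) := by
    intro i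
    have := (AdjoinRoot.powerBasis' (mat2_monic R)).basis_eq_pow i
    rw [map_pow, AdjoinRoot.mk_X]
    exact this
  have h1 : ∀ i : Fin (PP.map (Int.castRingHom R)).natDegree,
      (Algebra.leftMulMatrix (AdjoinRoot.powerBasisAux' (mat2_monic R))
      (AdjoinRoot.root (PP.map (Int.castRingHom R)) ^ k)).diag i =
      (((if (i : ℕ) = (k + i) % 512 then 1 else 0) : R) -
      (if 510 ≤ (k + i) % 512 ∧ (i : ℕ) % 2 = (k + i) % 2 then 1 else 0)) := by
    intro i
    rw [Matrix.diag_apply, Algebra.leftMulMatrix_eq_repr_mul,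
      AdjoinRoot.powerBasisAux'_repr_apply_to_fun, hb, ← AdjoinRoot.mk_X, ← map_pow, ← map_mul,
      AdjoinRoot.modByMonicHom_mk, ← pow_add]
    apply mat2_coeff
    exact lt_of_lt_of_eq i.2 (mat2_deg R)
  rw [Finset.sum_congr rfl (fun i _ => h1 i)]
  rw [Fin.sum_univ_eq_sum_range (fun i : ℕ => (((if i = (k + i) % 512 then 1 else 0) : R) -
      (if 510 ≤ (k + i) % 512 ∧ i % 2 = (k + i) % 2 then 1 else 0))), mat2_deg R]

/-- `ℚ[X]/(X^512 - 1) ≅ ℚ[X]/(X² - 1) × ℚ[X]/P` (coprime factors), the trace of `x^k` on `ℚ[X]/(X^512-1)` (basis `1, x, .., x^511`,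
permuted) is `512` if `512 ∣ k` and `0` otherwise; on `ℚ[X]/(X²-1)` it is `1 + (-1)^k`. -/
theorem trace_PP (k : ℕ) : LinearMap.trace ℚ (AdjoinRoot (PP.map (Int.castRingHom ℚ)))
    (LinearMap.mulLeft ℚ (AdjoinRoot.root (PP.map (Int.castRingHom ℚ)) ^ k)) =
      (if 512 ∣ k then 512 else 0) - 1 - (-1) ^ k := by
  rw [← mat2_trace ℚ k, Algebra.leftMulMatrix_apply,
    LinearMap.trace_eq_matrix_trace ℚ (AdjoinRoot.powerBasisAux' (mat2_monic ℚ))]
  rfl

private theorem mat2_root (R : Type*) [CommRing R] :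
    AdjoinRoot.root (PP.map (Int.castRingHom R)) ^ 512 = 1 := by
  have h := congrArg (AdjoinRoot.mk (PP.map (Int.castRingHom R))) (mat2_dvd R)
  rw [map_mul, AdjoinRoot.mk_self, mul_zero, map_sub, map_pow, map_one, AdjoinRoot.mk_X] at h
  exact (sub_eq_zero.mp h.symm)

/-- the matrix of multiplication by `x` on `ℤ[X]/P` (basis `1, .., x^509`) -/
theorem exists_compP : ∃ Z : Matrix (Fin 510) (Fin 510) ℤ, Z ^ 512 = 1 ∧
    ∀ k : ℕ, (Z ^ k).trace = (if 512 ∣ k then 512 else 0) - 1 - (-1) ^ k := by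
  let e : Fin (PP.map (Int.castRingHom ℤ)).natDegree ≃ Fin 510 := finCongr (mat2_deg ℤ)
  let b := (AdjoinRoot.powerBasisAux' (mat2_monic ℤ)).reindex e
  refine ⟨Algebra.leftMulMatrix b (AdjoinRoot.root (PP.map (Int.castRingHom ℤ))), ?_, fun k => ?_⟩
  · rw [← map_pow, mat2_root, map_one]
  · rw [← map_pow, ← mat2_trace ℤ k, Algebra.leftMulMatrix_apply, Algebra.leftMulMatrix_apply,
      ← LinearMap.trace_eq_matrix_trace, ← LinearMap.trace_eq_matrix_trace]

/-- a cyclic permutation matrix of order 512 -/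
theorem exists_cycle : ∃ Z : Matrix (Fin 512) (Fin 512) ℤ, Z ^ 512 = 1 ∧
    ∀ k : ℕ, (Z ^ k).trace = (if 512 ∣ k then 512 else 0) := by
  let Z : Matrix (Fin 512) (Fin 512) ℤ := Matrix.of fun i j : Fin 512 =>
    if (i : ℕ) = ((j : ℕ) + 1) % 512 then 1 else 0
  have hZ : ∀ k : ℕ, Z ^ k = Matrix.of fun i j : Fin 512 => if (i : ℕ) = ((j : ℕ) + k) % 512 then 1 else 0 := by
    intro k
    induction k with
    | zero =>
      ext i j
      rw [pow_zero, Matrix.one_apply, Matrix.of_apply, add_zero, Nat.mod_eq_of_lt j.2]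
      simp only [Fin.ext_iff]
    | succ k ih =>
      rw [pow_succ, ih]
      ext i j
      rw [Matrix.mul_apply]
      simp only [Z, Matrix.of_apply]
      rw [Finset.sum_eq_single (⟨((j : ℕ) + 1) % 512, Nat.mod_lt _ (by norm_num)⟩ : Fin 512)]
      · rw [if_pos rfl, mul_one]
        by_cases h : (i : ℕ) = ((j : ℕ) + (k + 1)) % 512
        · rw [if_pos h, if_pos (by simp only []; omega)]
        · rw [if_neg h, if_neg (by simp only []; omega)]
      · intro b _ hb
        rw [if_neg (fun h => hb (Fin.ext h)), mul_zero]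
      · intro h
        exact absurd (Finset.mem_univ _) h
  refine ⟨Z, ?_, fun k => ?_⟩
  · rw [hZ]
    ext i j
    have h : ((j : ℕ) + 512) % 512 = j := by
      have := j.2
      omega
    rw [Matrix.one_apply, Matrix.of_apply, h]
    simp only [Fin.ext_iff]
  · rw [hZ, Matrix.trace]
    simp only [Matrix.diag_apply, Matrix.of_apply]
    by_cases h : 512 ∣ k
    · rw [if_pos h, Finset.sum_congr rfl (fun i _ => if_pos (by have := i.2; omega))]
      simp
    · rw [if_neg h, Finset.sum_congr rfl (fun i _ => if_neg (by have := i.2; omega))]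
      simp

private theorem mat2_sum {a b : ℕ} (A : Matrix (Fin a) (Fin a) ℤ) (B : Matrix (Fin b) (Fin b) ℤ)
    (hA : A ^ 512 = 1) (hB : B ^ 512 = 1) : ∃ Z : Matrix (Fin (a + b)) (Fin (a + b)) ℤ, Z ^ 512 = 1 ∧
    ∀ k : ℕ, (Z ^ k).trace = (A ^ k).trace + (B ^ k).trace := by
  refine ⟨Matrix.reindexAlgEquiv ℤ ℤ finSumFinEquiv (Matrix.fromBlocks A 0 0 B), ?_, fun k => ?_⟩
  · rw [← map_pow, Matrix.fromBlocks_diagonal_pow, hA, hB, Matrix.fromBlocks_one, map_one]
  · rw [← map_pow, Matrix.fromBlocks_diagonal_pow, Matrix.coe_reindexAlgEquiv]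
    simp only [Matrix.trace, Matrix.diag_apply, Matrix.reindex_apply, Matrix.submatrix_apply]
    refine (Equiv.sum_comp finSumFinEquiv.symm
      (fun i => Matrix.fromBlocks (A ^ k) 0 0 (B ^ k) i i)).trans ?_
    rw [Fintype.sum_sum_type]
    simp only [Matrix.fromBlocks_apply₁₁, Matrix.fromBlocks_apply₂₂]

/-- two copies of `exists_compP` and four copies of `exists_cycle` -/
theorem exists_pad : ∃ Z : Matrix (Fin 3068) (Fin 3068) ℤ, Z ^ 512 = 1 ∧
    ∀ k : ℕ, (Z ^ k).trace = (if 512 ∣ k then 3072 else 0) - 2 - 2 * (-1) ^ k := by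
  obtain ⟨A, hA, tA⟩ := exists_compP
  obtain ⟨B, hB, tB⟩ := exists_cycle
  obtain ⟨A2, hA2, tA2⟩ := mat2_sum A A hA hA
  obtain ⟨B2, hB2, tB2⟩ := mat2_sum B B hB hB
  obtain ⟨B4, hB4, tB4⟩ := mat2_sum B2 B2 hB2 hB2
  obtain ⟨Z, hZ, tZ⟩ := mat2_sum A2 B4 hA2 hB4
  refine ⟨Z, hZ, fun k => ?_⟩
  rw [tZ k, tA2, tB4, tB2, tA, tB]
  split_ifs <;> ring

end Pool.Agent.Bovdi
end
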