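import Pool.Agent.Lib.MP_0d8f30_al.BV.R3
import Pool.Agent.Lib.MP_0d8f30_al.Mg.G004
import Pool.Agent.Lib.MP_0d8f30_al.Mg.G009

section

set_option autoImplicit false

/-! # Task P2: orthogonality of the conjugates of `f` -/

namespace Pool.Agent.Bovdi

open Finset

variable {G : Type} [Group G] [Fintype G] {n : ℕ} (D : Dat G n)

omit [Fintype G] in
private theorem p2_sN (j : ℕ) : ∀ a ∈ D.N, D.s ^ j * a * (D.s ^ j)⁻¹ ∈ D.N := by
  induction j with
  | zero => intro a ha; simpa using ha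
  | succ j ih =>
    intro a ha
    have h := D.sN _ (ih a ha)
    have e : D.s ^ (j + 1) * a * (D.s ^ (j + 1))⁻¹ =
        D.s * (D.s ^ j * a * (D.s ^ j)⁻¹) * D.s⁻¹ := by
      rw [pow_succ' D.s j]; group
    rw [e]; exact h

/-- `avg N' · s^j avg(N') s^-j = avg N` for `0 < j < n` (`avg_mul_avg_of_prod` with the subgroups `N'`, `s^j N' s^-j` of `N`, field `N's`;
`avg_map_conj`) -/
theorem Dat.avgN'_conj (j : ℕ) (h1 : 0 < j) (h2 : j < n) :
    avg D.N' * (el (D.s ^ j) * avg D.N' * el (D.s ^ j)⁻¹) = avg D.N := by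
  rw [← avg_map_conj]
  refine avg_mul_avg_of_prod D.N'N ?_ D.comN ?_
  · rintro _ ⟨a, ha, rfl⟩
    exact p2_sN D j a (D.N'N ha)
  · intro m hm
    obtain ⟨b, hb, c, hc, e⟩ := D.N's j h1 h2 m hm
    exact ⟨b, hb, _, ⟨c, hc, rfl⟩, e⟩

omit [Fintype G] in
private theorem p2_el_inv (g : G) : (el g : MonoidAlgebra ℚ G) * el g⁻¹ = 1 := by
  rw [← map_mul, mul_inv_cancel, map_one]

omit [Fintype G] in
private theorem p2_inv_el (g : G) : (el g⁻¹ : MonoidAlgebra ℚ G) * el g = 1 := by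
  rw [← map_mul, inv_mul_cancel, map_one]

/-- `(avg N' - avg N)(s^j avg N' s^-j - avg N) = 0` -/
theorem Dat.f_conj_f (j : ℕ) (h1 : 0 < j) (h2 : j < n) :
    D.f * (el (D.s ^ j) * D.f * el (D.s ^ j)⁻¹) = 0 := by
  have hA := D.avgN'_conj j h1 h2
  have hN : el (D.s ^ j) * avg D.N * el (D.s ^ j)⁻¹ = avg D.N := by
    rw [← D.avgN_s j, mul_assoc, p2_el_inv, mul_one]
  have hB : avg D.N * (el (D.s ^ j) * avg D.N' * el (D.s ^ j)⁻¹) = avg D.N := by
    calc avg D.N * (el (D.s ^ j) * avg D.N' * el (D.s ^ j)⁻¹)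
        = (avg D.N * el (D.s ^ j)) * avg D.N' * el (D.s ^ j)⁻¹ := by simp only [mul_assoc]
      _ = el (D.s ^ j) * (avg D.N * avg D.N') * el (D.s ^ j)⁻¹ := by
          rw [D.avgN_s j]; simp only [mul_assoc]
      _ = avg D.N := by rw [D.avgN_avgN', hN]
  have hC : el (D.s ^ j) * D.f * el (D.s ^ j)⁻¹ =
      el (D.s ^ j) * avg D.N' * el (D.s ^ j)⁻¹ - avg D.N := by
    conv_rhs => rw [← hN]
    unfold Dat.f
    rw [mul_sub, sub_mul]
  have hD : avg D.N * avg D.N = avg D.N := avg_idem _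
  rw [hC]
  unfold Dat.f
  rw [sub_mul, mul_sub, mul_sub, hA, hB, D.avgN'_avgN, hD, sub_self]

/-- reduce `j` modulo `n` with `f_z` (`s^n` commutes with `f`) -/
theorem Dat.f_s_f (j : ℕ) (hj : ¬ n ∣ j) : D.f * el (D.s ^ j) * D.f = 0 := by
  have key : ∀ r : ℕ, 0 < r → r < n → D.f * el (D.s ^ r) * D.f = 0 := by
    intro r h1 h2
    have h := D.f_conj_f r h1 h2
    have e : D.f * el (D.s ^ r) * D.f =
        D.f * (el (D.s ^ r) * D.f * el (D.s ^ r)⁻¹) * el (D.s ^ r) := by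
      simp only [mul_assoc]
      rw [p2_inv_el, mul_one]
    rw [e, h, zero_mul]
  have hz : ∀ q r : ℕ, D.f * el (D.s ^ (n * q + r)) * D.f =
      D.z ^ q * (D.f * el (D.s ^ r) * D.f) := by
    intro q r
    have hc : D.f * D.z ^ q = D.z ^ q * D.f := by
      induction q with
      | zero => simp
      | succ q ih => rw [pow_succ, ← mul_assoc, ih, mul_assoc, D.f_z, ← mul_assoc]
    have e : (el (D.s ^ (n * q + r)) : MonoidAlgebra ℚ G) = D.z ^ q * el (D.s ^ r) := by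
      rw [pow_add, map_mul, pow_mul, map_pow]; rfl
    rw [e, ← mul_assoc, hc]
    simp only [mul_assoc]
  have hr : 0 < j % n := Nat.pos_of_ne_zero (fun h => hj (Nat.dvd_of_mod_eq_zero h))
  have hr2 : j % n < n := Nat.mod_lt _ D.npos
  have h := hz (j / n) (j % n)
  rw [Nat.div_add_mod] at h
  rw [h, key _ hr hr2, mul_zero]

/-- `(s^j)⁻¹ = s^(2nj - j)` -/
theorem Dat.f_sinv_f (j : ℕ) (hj : ¬ n ∣ j) : D.f * el (D.s ^ j)⁻¹ * D.f = 0 := by
  have hle : j ≤ 2 * n * j := by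
    have := D.npos
    nlinarith [Nat.zero_le j]
  have e : (D.s ^ j)⁻¹ = D.s ^ (2 * n * j - j) := by
    rw [inv_eq_iff_mul_eq_one, ← pow_add, Nat.add_sub_cancel' hle, pow_mul, D.s_pow_two_n,
      one_pow]
  rw [e]
  refine D.f_s_f _ ?_
  intro h
  apply hj
  have h2 : n ∣ 2 * n * j := ⟨2 * j, by ring⟩
  have h3 := (Nat.dvd_sub h2 h)
  rwa [Nat.sub_sub_self hle] at h3

private theorem p2_ndvd {i j : ℕ} (hi : i < j) (hj : j < n) : ¬ n ∣ j - i := by
  intro h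
  have := Nat.le_of_dvd (by omega) h
  omega

theorem Dat.f_ij_f (i j : Fin n) (hij : i ≠ j) :
    D.f * (el (D.s ^ (i : ℕ))⁻¹ * el (D.s ^ (j : ℕ))) * D.f = 0 := by
  have hne : (i : ℕ) ≠ j := fun h => hij (Fin.ext h)
  rw [← map_mul]
  rcases Nat.lt_or_gt_of_ne hne with h | h
  · have e : (D.s ^ (i : ℕ))⁻¹ * D.s ^ (j : ℕ) = D.s ^ ((j : ℕ) - i) := by
      rw [inv_mul_eq_iff_eq_mul, ← pow_add]; congr 1; omega
    rw [e]
    exact D.f_s_f _ (p2_ndvd h j.2)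
  · have e : (D.s ^ (i : ℕ))⁻¹ * D.s ^ (j : ℕ) = (D.s ^ ((i : ℕ) - j))⁻¹ := by
      rw [inv_mul_eq_iff_eq_mul, eq_mul_inv_iff_mul_eq, ← pow_add]; congr 1; omega
    rw [e]
    exact D.f_sinv_f _ (p2_ndvd h i.2)

theorem Dat.f_ij_f' (i j : Fin n) (hij : i ≠ j) :
    D.f * (el (D.s ^ (i : ℕ)) * el (D.s ^ (j : ℕ))⁻¹) * D.f = 0 := by
  have h := D.f_ij_f j i (Ne.symm hij)
  have e : (el (D.s ^ (i : ℕ)) * el (D.s ^ (j : ℕ))⁻¹ : MonoidAlgebra ℚ G) =
      el (D.s ^ (j : ℕ))⁻¹ * el (D.s ^ (i : ℕ)) := by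
    rw [← map_mul, ← map_mul]
    congr 1
    exact ((Commute.refl D.s).pow_pow _ _).inv_right.eq
  rw [e]; exact h

end Pool.Agent.Bovdi
end

section

set_option autoImplicit false
set_option linter.unusedSectionVars false

/-! # Task P5: the trace of `f δ` -/

namespace Pool.Agent.Bovdi

open Finset

variable {G : Type} [Group G] [Fintype G] {n : ℕ} (D : Dat G n)

/-- `y z = t z t⁻¹` with `t ∈ N`, `t² = y` (`t = y²`) -/
theorem Dat.exists_sqrt (y : G) (hy : y ∈ D.N) : y * D.s ^ n = y ^ 2 * D.s ^ n * (y ^ 2)⁻¹ := by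
  have h1 := D.zN (y ^ 2)⁻¹ (D.N.inv_mem (D.N.pow_mem hy 2))
  rw [inv_inv] at h1
  have h2 : y ^ 2 * y ^ 2 = y := by
    calc y ^ 2 * y ^ 2 = y ^ 3 * y := by rw [← pow_add, ← pow_succ]
      _ = y := by rw [D.expN y hy, one_mul]
  rw [mul_assoc, h1, ← mul_assoc, h2]

theorem p5_f_xk (k : ℕ) : D.f * el (D.x ^ k) = el (D.x ^ k) * D.f := by
  rw [map_pow]
  exact (show Commute D.f (el D.x) from D.f_x).pow_right k

/-- `f δ ~ 3 f lam z` (`x` commutes with `f`) -/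
theorem Dat.eqv_f_del : Eqv (D.f * D.del) ((3 : ℚ) • (D.f * D.lam * D.z)) := by
  unfold Dat.del
  rw [Finset.mul_sum]
  have key : ∀ k ∈ range 3, Eqv (D.f * (el (D.x ^ k) * (D.lam * D.z) * el (D.x ^ k)⁻¹))
      (D.f * D.lam * D.z) := by
    intro k _
    have h1 : D.f * (el (D.x ^ k) * (D.lam * D.z) * el (D.x ^ k)⁻¹) =
        el (D.x ^ k) * (D.f * D.lam * D.z) * el (D.x ^ k)⁻¹ := by
      rw [← mul_assoc, ← mul_assoc, p5_f_xk]
      simp only [mul_assoc]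
    rw [h1]
    exact Eqv.el_conj _ _
  have h2 := Eqv.sum_const (range 3) key
  rw [card_range] at h2
  exact_mod_cast h2

theorem p5_y_lam (y : G) (hy : y ∈ D.N') : el y * D.lam = D.lam * el y := by
  obtain ⟨hw, hv⟩ := D.comN' y hy
  unfold Dat.lam
  rw [Algebra.smul_mul_assoc, Algebra.mul_smul_comm, sub_mul, sub_mul, add_mul, one_mul,
    mul_sub, mul_sub, mul_add, mul_one, ← map_mul, ← map_mul, ← map_mul, ← map_mul, ← map_mul,
    ← map_mul, mul_assoc D.w, ← hv, ← mul_assoc D.w, ← hw, mul_assoc y]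

/-- `avg N' · lam z`: average over `y ∈ N'` of `lam · y z = lam t z t⁻¹ = t lam z t⁻¹` -/
theorem Dat.eqv_avgN'_lam_z : Eqv (avg D.N' * D.lam * D.z) (D.lam * D.z) := by
  classical
  have hcard : (Nat.card D.N' : ℚ) ≠ 0 := by
    exact_mod_cast (Nat.card_pos (α := D.N')).ne'
  have h1 : avg D.N' * D.lam * D.z = (Nat.card D.N' : ℚ)⁻¹ •
      ∑ y ∈ (univ : Finset G).filter (fun g => g ∈ D.N'), el y * D.lam * D.z := by
    unfold avg
    rw [Algebra.smul_mul_assoc, Algebra.smul_mul_assoc, Finset.sum_mul, Finset.sum_mul]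
  have h2 : (((univ : Finset G).filter (fun g => g ∈ D.N')).card : ℚ) = Nat.card D.N' := by
    rw [Nat.card_eq_fintype_card, Fintype.card_subtype]
  have key : ∀ y ∈ (univ : Finset G).filter (fun g => g ∈ D.N'),
      Eqv (el y * D.lam * D.z) (D.lam * D.z) := by
    intro y hy
    have hy' := (Finset.mem_filter.1 hy).2
    have h3 : el y * D.z = el (y ^ 2) * D.z * el (y ^ 2)⁻¹ := by
      unfold Dat.z
      rw [← map_mul, ← map_mul, ← map_mul, ← D.exists_sqrt y (D.N'N hy')]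
    rw [p5_y_lam D y hy', mul_assoc, h3, ← mul_assoc, ← mul_assoc,
      ← p5_y_lam D (y ^ 2) (D.N'.pow_mem hy' 2), mul_assoc (el (y ^ 2))]
    exact Eqv.el_conj _ _
  rw [h1]
  refine ((Eqv.sum_const _ key).smul _).trans (Eqv.of_eq ?_)
  rw [smul_smul, h2, inv_mul_cancel₀ hcard, one_smul]

theorem p5_zero (e : MonoidAlgebra ℚ G) (he : e * e = e) (hz : e * D.z * e = 0)
    (ha : avg D.N' * e = e * avg D.N') : Eqv (e * D.z * avg D.N') 0 := by
  rw [mul_assoc]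
  refine Eqv.idem_zero e _ he ?_
  rw [mul_assoc e, mul_assoc D.z, ha, ← mul_assoc D.z, ← mul_assoc, ← mul_assoc, hz, zero_mul]

theorem p5_x_xinv : el D.x * el D.x⁻¹ = (1 : MonoidAlgebra ℚ G) := by
  rw [← map_mul, mul_inv_cancel, map_one]

theorem p5_xinv_x : el D.x⁻¹ * el D.x = (1 : MonoidAlgebra ℚ G) := by
  rw [← map_mul, inv_mul_cancel, map_one]

theorem p5_avgN'_xinv : avg D.N' * el D.x⁻¹ = el D.x⁻¹ * avg D.N' := by
  calc avg D.N' * el D.x⁻¹ = (el D.x⁻¹ * el D.x) * avg D.N' * el D.x⁻¹ := by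
        rw [p5_xinv_x, one_mul]
    _ = el D.x⁻¹ * (avg D.N' * el D.x) * el D.x⁻¹ := by rw [D.avgN'_x]; simp only [mul_assoc]
    _ = el D.x⁻¹ * avg D.N' * (el D.x * el D.x⁻¹) := by simp only [mul_assoc]
    _ = el D.x⁻¹ * avg D.N' := by rw [p5_x_xinv, mul_one]

/-- `k = 1` -/
theorem p5_k1 : Eqv (D.lam * D.z * el D.x * avg D.N') 0 := by
  have h1 : D.z * el D.x = el D.x * D.z * el D.x⁻¹ := by
    rw [D.z_x, mul_assoc, ← D.x_z, ← mul_assoc, ← map_mul, ← pow_two]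
    congr 2
    rw [inv_eq_iff_mul_eq_one, ← pow_succ', D.x3]
  have h2 : D.lam * D.z * el D.x * avg D.N' =
      (D.lam * el D.x * D.z * avg D.N') * el D.x⁻¹ := by
    rw [mul_assoc D.lam, h1, mul_assoc (D.lam * el D.x * D.z), p5_avgN'_xinv]
    simp only [mul_assoc]
  rw [h2]
  refine (Eqv.mul_comm _ _).trans ?_
  have h3 : el D.x⁻¹ * (D.lam * el D.x * D.z * avg D.N') =
      (el D.x⁻¹ * D.lam * el D.x) * D.z * avg D.N' := by simp only [mul_assoc]
  rw [h3]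
  refine p5_zero D _ ?_ ?_ ?_
  · calc el D.x⁻¹ * D.lam * el D.x * (el D.x⁻¹ * D.lam * el D.x)
        = el D.x⁻¹ * D.lam * (el D.x * el D.x⁻¹) * D.lam * el D.x := by simp only [mul_assoc]
      _ = el D.x⁻¹ * (D.lam * D.lam) * el D.x := by rw [p5_x_xinv, mul_one]; simp only [mul_assoc]
      _ = el D.x⁻¹ * D.lam * el D.x := by rw [D.lam_idem]
  · rw [mul_assoc, ← D.lam1_z, ← mul_assoc, D.lam2_lam1, zero_mul]
  · rw [← mul_assoc, ← mul_assoc, p5_avgN'_xinv, mul_assoc (el D.x⁻¹), D.avgN'_lam, ← mul_assoc,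
      mul_assoc (el D.x⁻¹ * D.lam), D.avgN'_x, ← mul_assoc]

/-- `k = 2` -/
theorem p5_k2 : Eqv (D.lam * D.z * el D.x⁻¹ * avg D.N') 0 := by
  have h1 : D.z * el D.x⁻¹ = el D.x⁻¹ * D.z * el D.x := by
    have h4 : el D.x = el D.x⁻¹ * (el D.x⁻¹ : MonoidAlgebra ℚ G) := by
      rw [← map_mul, ← mul_inv_rev, ← pow_two]
      congr 1
      rw [eq_inv_iff_mul_eq_one, ← pow_succ', D.x3]
    rw [mul_assoc, D.z_x, ← mul_assoc, ← h4, D.x_z]
  have h2 : D.lam * D.z * el D.x⁻¹ * avg D.N' =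
      (D.lam * el D.x⁻¹ * D.z * avg D.N') * el D.x := by
    rw [mul_assoc D.lam, h1, mul_assoc (D.lam * el D.x⁻¹ * D.z), D.avgN'_x]
    simp only [mul_assoc]
  rw [h2]
  refine (Eqv.mul_comm _ _).trans ?_
  have h3 : el D.x * (D.lam * el D.x⁻¹ * D.z * avg D.N') =
      (el D.x * D.lam * el D.x⁻¹) * D.z * avg D.N' := by simp only [mul_assoc]
  rw [h3]
  refine p5_zero D _ ?_ ?_ ?_
  · calc el D.x * D.lam * el D.x⁻¹ * (el D.x * D.lam * el D.x⁻¹)
        = el D.x * D.lam * (el D.x⁻¹ * el D.x) * D.lam * el D.x⁻¹ := by simp only [mul_assoc]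
      _ = el D.x * (D.lam * D.lam) * el D.x⁻¹ := by rw [p5_xinv_x, mul_one]; simp only [mul_assoc]
      _ = el D.x * D.lam * el D.x⁻¹ := by rw [D.lam_idem]
  · rw [D.lam1_z, mul_assoc, D.lam2_lam1, mul_zero]
  · rw [← mul_assoc, ← mul_assoc, D.avgN'_x, mul_assoc (el D.x), D.avgN'_lam, ← mul_assoc,
      mul_assoc (el D.x * D.lam), p5_avgN'_xinv, ← mul_assoc]

/-- `avg N = avg N' (1 + x + x²)/3`, moved to the right: `avg N lam z ~ lam z avg N = (1/3) ∑ lam z x^k avg N'`; for `k = 1, 2`: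
`z x^k = t⁻¹ z t` with `t ∈ {x, x²}`, `lam t⁻¹ z t avg N' ~ (t lam t⁻¹) z avg N'`, and with the idempotent `e'' = t lam t⁻¹`:
`e'' z avg N' ~ e'' z e'' avg N' = 0` (`lam1_z`, `lam1_lam2`, ...) -/
theorem Dat.eqv_avgN_lam_z : Eqv (avg D.N * D.lam * D.z) ((1 / 3 : ℚ) • (D.lam * D.z)) := by
  have hx2 : el (D.x ^ 2) = (el D.x⁻¹ : MonoidAlgebra ℚ G) := by
    congr 1
    rw [eq_inv_iff_mul_eq_one, ← pow_succ, D.x3]
  have h1 : (D.lam * D.z) * avg D.N = (1 / 3 : ℚ) • (D.lam * D.z * avg D.N' +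
      D.lam * D.z * el D.x * avg D.N' + D.lam * D.z * el D.x⁻¹ * avg D.N') := by
    rw [D.avgN_eq, Algebra.mul_smul_comm, Algebra.mul_smul_comm]
    congr 1
    rw [Finset.sum_range_succ, Finset.sum_range_succ, Finset.sum_range_one, pow_zero, map_one,
      pow_one, hx2, mul_add, mul_add, mul_add, mul_add, mul_one, D.avgN'_x, p5_avgN'_xinv]
    simp only [mul_assoc]
  rw [mul_assoc]
  refine (Eqv.mul_comm _ _).trans ?_
  rw [h1]
  have h2 : Eqv (D.lam * D.z * avg D.N') (D.lam * D.z) := by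
    refine (Eqv.mul_comm _ _).trans ?_
    rw [← mul_assoc]
    exact D.eqv_avgN'_lam_z
  have h3 := ((h2.add (p5_k1 D)).add (p5_k2 D)).smul (1 / 3)
  rwa [add_zero, add_zero] at h3

/-- `lam z = (z + wz - vz - wvz)/4`, `w z = v z v⁻¹`, `w v z = z (v z) z⁻¹` -/
theorem Dat.eqv_lam_z : Eqv (D.lam * D.z) ((1 / 2 : ℚ) • (D.z - el (D.v * D.s ^ n))) := by
  have h1 : D.lam * D.z = (1 / 4 : ℚ) • (D.z + el (D.w * D.s ^ n) - el (D.v * D.s ^ n) -
      el (D.w * D.v * D.s ^ n)) := by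
    unfold Dat.lam Dat.z
    rw [Algebra.smul_mul_assoc, sub_mul, sub_mul, add_mul, one_mul, ← map_mul, ← map_mul, ← map_mul]
  have h2 : Eqv (el (D.w * D.s ^ n)) D.z := by
    refine Eqv.symm (Eqv.el_of_conj D.v ?_)
    rw [mul_assoc, D.zv, ← mul_assoc, ← mul_assoc, D.ww, one_mul]
  have h3 : Eqv (el (D.w * D.v * D.s ^ n)) (el (D.v * D.s ^ n)) := by
    refine Eqv.symm (Eqv.el_of_conj (D.s ^ n) ?_)
    rw [← mul_assoc, D.zv]
  rw [h1]
  have h4 := (((Eqv.refl D.z).add h2).sub (Eqv.refl (el (D.v * D.s ^ n)))).sub h3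
  refine (h4.smul (1 / 4)).trans (Eqv.of_eq ?_)
  have h5 : D.z + D.z - el (D.v * D.s ^ n) - el (D.v * D.s ^ n) =
      (2 : ℚ) • (D.z - el (D.v * D.s ^ n)) := by
    rw [two_smul]; abel
  rw [h5, smul_smul]
  norm_num

theorem Dat.eqv_f_del' : Eqv (D.f * D.del) (D.z - el (D.v * D.s ^ n)) := by
  refine D.eqv_f_del.trans ?_
  have h1 : D.f * D.lam * D.z = avg D.N' * D.lam * D.z - avg D.N * D.lam * D.z := by
    unfold Dat.f
    rw [sub_mul, sub_mul]
  rw [h1]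
  refine ((D.eqv_avgN'_lam_z.sub D.eqv_avgN_lam_z).smul 3).trans ?_
  have h2 : (3 : ℚ) • (D.lam * D.z - (1 / 3 : ℚ) • (D.lam * D.z)) = (2 : ℚ) • (D.lam * D.z) := by
    rw [smul_sub, smul_smul, ← sub_smul]
    norm_num
  rw [h2]
  refine (D.eqv_lam_z.smul 2).trans (Eqv.of_eq ?_)
  rw [smul_smul]
  norm_num

end Pool.Agent.Bovdi
end

section

set_option autoImplicit false

/-! # Task Mat1c: order and traces of `U_c` -/

namespace Pool.Agent.Bovdi

open Polynomial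

/-- the action of `ℤ[X]` on column vectors -/
@[reducible] noncomputable def modU {ι : Type*} [Fintype ι] [DecidableEq ι] (U : Matrix ι ι ℤ) :
    Module ℤ[X] (ι → ℤ) := Module.compHom (ι → ℤ)
    ((Matrix.toLinAlgEquiv' : Matrix ι ι ℤ ≃ₐ[ℤ] ((ι → ℤ) →ₗ[ℤ] (ι → ℤ))).toRingEquiv.toRingHom.comp
      (aeval U : ℤ[X] →ₐ[ℤ] Matrix ι ι ℤ).toRingHom)

theorem modU_smul {ι : Type*} [Fintype ι] [DecidableEq ι] (U : Matrix ι ι ℤ) :
    letI := modU U
    ∀ (g : ℤ[X]) (v : ι → ℤ), g • v = (aeval U g).mulVec v := fun g v => rfl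

theorem aeval_toLin' {ι : Type*} [Fintype ι] [DecidableEq ι] (A : Matrix ι ι ℚ) (g : ℚ[X]) (v : ι → ℚ) :
    aeval (Matrix.toLin' A) g v = (aeval A g).mulVec v := by
  have : aeval (Matrix.toLinAlgEquiv' A) g = Matrix.toLinAlgEquiv' (aeval A g) :=
    (Polynomial.aeval_algHom_apply (Matrix.toLinAlgEquiv' : Matrix ι ι ℚ ≃ₐ[ℚ] _).toAlgHom A g)
  exact congrArg (fun f => f v) this

theorem C_sq_of_pm {c : ℤ} (hc : c = 1 ∨ c = -1) : (C c : ℤ[X]) * C c = 1 := by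
  rw [← C_mul]; rcases hc with rfl | rfl <;> simp

theorem kill_abstract {M : Type*} [AddCommGroup M] [Module ℤ[X] M]
    (tf : ∀ v : M, (4 : ℤ[X]) • v = 0 → v = 0) (Q : ℤ[X])
    (hQ : (1 - X ^ 2) * (256 - 32640 * (1 - X ^ 2) + 2763520 * (1 - X ^ 2) ^ 2 + (1 - X ^ 2) ^ 3 * Q) =
      1 - X ^ 512) (c : ℤ) (hc : c = 1 ∨ c = -1) (e : Fin 4 → M)
    (rel : ∀ j : Fin 3, (X ^ 2 - 1 : ℤ[X]) • (e j.succ) = (-4 * (X - C c) : ℤ[X]) • (e j.castSucc))
    (top : ((X ^ 2 - 1) * (-8290560 + (3 * X ^ 2 + 1) * Q)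
      - 4 * (X - C c) * (X * (-2763520 + (X ^ 2 + 1) * Q)) : ℤ[X]) • (e 0) =
      (4 * (X - C c) * 688840 : ℤ[X]) • (e 1) +
      (4 * (X - C c) * (-1020 * X) : ℤ[X]) • (e 2) +
      (4 * (X - C c) : ℤ[X]) • (e 3)) (j : Fin 4) :
    ((X - C c) * PP : ℤ[X]) • e j = 0 := by
  have hI := identity_I Q hQ c hc
  have hcc := C_sq_of_pm hc
  generalize hd : (C c : ℤ[X]) = d at *
  generalize hp3 : (X * (-2763520 + (X ^ 2 + 1) * Q) : ℤ[X]) = p3 at *
  generalize hp4 : (-8290560 + (3 * X ^ 2 + 1) * Q : ℤ[X]) = p4 at *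
  have hX : (X ^ 2 - 1 : ℤ[X]) = (X - d) * (X + d) := by linear_combination hcc
  have r0 := rel 0
  have r1 := rel 1
  have r2 := rel 2
  change (X ^ 2 - 1 : ℤ[X]) • (e 1) = (-4 * (X - d) : ℤ[X]) • (e 0) at r0
  change (X ^ 2 - 1 : ℤ[X]) • (e 2) = (-4 * (X - d) : ℤ[X]) • (e 1) at r1
  change (X ^ 2 - 1 : ℤ[X]) • (e 3) = (-4 * (X - d) : ℤ[X]) • (e 2) at r2
  rw [hX] at r0 r1 r2 top
  -- P y_0 = 0
  have u0 : ((X - d) * PP : ℤ[X]) • e 0 = 0 := by
    rw [← hI]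
    linear_combination (norm := module) ((X + d) ^ 3 : ℤ[X]) • top
      + (4 * 688840 * (X + d) ^ 2 : ℤ[X]) • r0
      + (4 * (-1020 * X) * (X + d) ^ 2 : ℤ[X]) • r1 - (16 * (-1020 * X) * (X + d) : ℤ[X]) • r0
      + (4 * (X + d) ^ 2 : ℤ[X]) • r2 - (16 * (X + d) : ℤ[X]) • r1 + (64 : ℤ[X]) • r0
  have t1 : (X + d : ℤ[X]) • (((X - d) * PP : ℤ[X]) • e 1) = 0 := by
    linear_combination (norm := module) (PP : ℤ[X]) • r0 - (4 : ℤ[X]) • u0
  have t2 : (X + d : ℤ[X]) • (((X - d) * PP : ℤ[X]) • e 2) = (-4 : ℤ[X]) • (((X - d) * PP : ℤ[X]) • e 1) := by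
    linear_combination (norm := module) (PP : ℤ[X]) • r1
  have t3 : (X + d : ℤ[X]) • (((X - d) * PP : ℤ[X]) • e 3) = (-4 : ℤ[X]) • (((X - d) * PP : ℤ[X]) • e 2) := by
    linear_combination (norm := module) (PP : ℤ[X]) • r2
  have s3 : (688840 : ℤ[X]) • (((X - d) * PP : ℤ[X]) • e 1) + (-1020 * X : ℤ[X]) • (((X - d) * PP : ℤ[X]) • e 2)
      + (((X - d) * PP : ℤ[X]) • e 3) = 0 := by
    apply tf
    linear_combination (norm := module) (-PP : ℤ[X]) • top + ((X + d) * p4 - 4 * p3 : ℤ[X]) • u0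
  have s2 : (((X - d) * PP : ℤ[X]) • e 2) + (-1020 * X : ℤ[X]) • (((X - d) * PP : ℤ[X]) • e 1) = 0 := by
    apply tf
    linear_combination (norm := module) (-(X + d) : ℤ[X]) • s3 + (688840 : ℤ[X]) • t1 + (-1020 * X : ℤ[X]) • t2 + t3
  have s1 : ((X - d) * PP : ℤ[X]) • e 1 = 0 := by
    apply tf
    linear_combination (norm := module) (-(X + d) : ℤ[X]) • s2 + t2 + (-1020 * X : ℤ[X]) • t1
  have s2' : ((X - d) * PP : ℤ[X]) • e 2 = 0 := by
    linear_combination (norm := module) s2 - (-1020 * X : ℤ[X]) • s1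
  have s3' : ((X - d) * PP : ℤ[X]) • e 3 = 0 := by
    linear_combination (norm := module) s3 - (-1020 * X : ℤ[X]) • s2' - (688840 : ℤ[X]) • s1
  fin_cases j
  · exact u0
  · exact s1
  · exact s2'
  · exact s3'

/-- Section 3, `y_j = (x - c) ε^j` (`j = 0..3`): `(x + c) y_j = -4 y_(j-1)`, `(x + c) p₄ y_0 = 4(p₃ y_0 + p₂ y_1 + p₁ y_2 + y_3)`; times `(x + c)³`:
`P y_0 = 0` by `identity_I`.  `u_j = P y_j`: `u_0 = 0`, `(x+c)u_1 = 0`, `(x+c)u_2 = -4u_1`, `(x+c)u_3 = -4u_2`, `4(p₂u_1 + p₁u_2 + u_3) = 0`, so (no torsion)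
`u_3 = -p₂u_1 - p₁u_2`; apply `x + c`: `u_2 = -p₁ u_1`; apply `x + c`: `u_1 = 0`. -/
theorem IsU.kill (Q : ℤ[X])
    (hQ : (1 - X ^ 2) * (256 - 32640 * (1 - X ^ 2) + 2763520 * (1 - X ^ 2) ^ 2 + (1 - X ^ 2) ^ 3 * Q) =
      1 - X ^ 512) (c : ℤ) (hc : c = 1 ∨ c = -1) (U : Matrix Ix Ix ℤ) (e : Fin 4 → Ix → ℤ) (h : IsU Q c U e)
    (v : Ix → ℤ) : (aeval U ((X - C c) * PP : ℤ[X])).mulVec v = 0 := by
  letI : Module ℤ[X] (Ix → ℤ) := modU U
  have hs : ∀ (g : ℤ[X]) (v : Ix → ℤ), g • v = (aeval U g).mulVec v := modU_smul U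
  have key : ∀ j, ((X - C c) * PP : ℤ[X]) • e j = 0 := by
    refine kill_abstract ?_ Q hQ c hc e (fun j => by rw [hs, hs]; exact h.rel j)
      (by rw [hs, hs, hs, hs]; exact h.top)
    intro v hv
    rw [hs, show (4 : ℤ[X]) = C 4 from rfl, pc_C] at hv
    exact (smul_eq_zero.1 hv).resolve_left (by norm_num)
  obtain ⟨g, hg⟩ := h.gen v
  rw [hg, Matrix.mulVec_sum]
  refine Finset.sum_eq_zero fun j _ => ?_
  rw [← pc_mul, mul_comm, pc_mul]
  have := key j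
  rw [hs] at this
  rw [this, Matrix.mulVec_zero]

theorem IsU.kill' (Q : ℤ[X])
    (hQ : (1 - X ^ 2) * (256 - 32640 * (1 - X ^ 2) + 2763520 * (1 - X ^ 2) ^ 2 + (1 - X ^ 2) ^ 3 * Q) =
      1 - X ^ 512) (c : ℤ) (hc : c = 1 ∨ c = -1) (U : Matrix Ix Ix ℤ) (e : Fin 4 → Ix → ℤ) (h : IsU Q c U e) :
    aeval U ((X - C c) * PP : ℤ[X]) = 0 := by
  ext i k
  have := congrFun (IsU.kill Q hQ c hc U e h (Pi.single k 1)) i
  rw [Matrix.mulVec_single_one] at this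
  exact this

theorem IsU.pow_eq_one (Q : ℤ[X])
    (hQ : (1 - X ^ 2) * (256 - 32640 * (1 - X ^ 2) + 2763520 * (1 - X ^ 2) ^ 2 + (1 - X ^ 2) ^ 3 * Q) =
      1 - X ^ 512) (c : ℤ) (hc : c = 1 ∨ c = -1) (U : Matrix Ix Ix ℤ) (e : Fin 4 → Ix → ℤ) (h : IsU Q c U e) :
    U ^ 512 = 1 := by
  have hk := IsU.kill' Q hQ c hc U e h
  have hcc := C_sq_of_pm hc
  have hX : (X ^ 512 - 1 : ℤ[X]) = (X + C c) * ((X - C c) * PP) := by
    rw [← PP_mul]
    linear_combination PP * hcc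
  have h1 : aeval U (X ^ 512 - 1 : ℤ[X]) = 0 := by rw [hX, map_mul, hk, mul_zero]
  rw [map_sub, map_pow, aeval_X, map_one] at h1
  exact sub_eq_zero.1 h1

section trace

variable {V : Type} [AddCommGroup V] [Module ℚ V] [FiniteDimensional ℚ V]

theorem trace_abstract (φ : Module.End ℚ V) (p : ℚ[X]) (hp : p.Monic) (c : ℚ) (N : ℕ)
    (hfin : Module.finrank ℚ V = p.natDegree + N) (e : Fin N → V)
    (hcp : IsCoprime (X + C c) p) (hcm : IsCoprime (X - C c) p)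
    (hkill : ∀ v, aeval φ ((X - C c) * p) v = 0)
    (y0 : V) (hy0 : aeval φ p y0 = 0)
    (hy : ∀ S : Submodule ℚ V, y0 ∈ S → (∀ g : ℚ[X], ∀ v ∈ S, aeval φ g v ∈ S) →
      ∀ j, aeval φ (X - C c) (e j) ∈ S)
    (hgen : ∀ S : Submodule ℚ V, (∀ j, e j ∈ S) → (∀ g : ℚ[X], ∀ v ∈ S, aeval φ g v ∈ S) → S = ⊤)
    (k : ℕ) :
    LinearMap.trace ℚ V (φ ^ k) = N * c ^ k +
      LinearMap.trace ℚ (AdjoinRoot p) (LinearMap.mulLeft ℚ (AdjoinRoot.root p ^ k)) := by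
  obtain ⟨α, β, hαβ⟩ := hcm
  let θ1 : AdjoinRoot p →ₗ[ℚ] V :=
    { toFun := fun a => aeval φ (AdjoinRoot.modByMonicHom hp a) y0
      map_add' := fun a b => by rw [map_add, map_add]; rfl
      map_smul' := fun r a => by rw [map_smul, map_smul]; rfl }
  have hθ1 : ∀ f : ℚ[X], θ1 (AdjoinRoot.mk p f) = aeval φ f y0 := by
    intro f
    change aeval φ (AdjoinRoot.modByMonicHom hp (AdjoinRoot.mk p f)) y0 = _
    rw [AdjoinRoot.modByMonicHom_mk]
    conv_rhs => rw [← modByMonic_add_div f p]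
    rw [map_add, mul_comm p, map_mul]
    change _ = _ + aeval φ (f /ₘ p) (aeval φ p y0)
    rw [hy0, map_zero, add_zero]
  let π : Module.End ℚ V := aeval φ (β * p)
  have hπ : ∀ v, φ (π v) = c • π v := by
    intro v
    have h1 : aeval φ ((X - C c) * (β * p)) v = 0 := by
      rw [show (X - C c) * (β * p) = β * ((X - C c) * p) by ring, map_mul]
      change aeval φ β (aeval φ ((X - C c) * p) v) = 0
      rw [hkill, map_zero]
    rw [map_mul, map_sub, aeval_X, aeval_C] at h1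
    change φ (π v) - (algebraMap ℚ (Module.End ℚ V) c) (π v) = 0 at h1
    rw [sub_eq_zero] at h1
    rw [h1]; rfl
  let θ2 : (Fin N → ℚ) →ₗ[ℚ] V := Fintype.linearCombination ℚ (fun j => π (e j))
  have hθ2 : ∀ a : Fin N → ℚ, θ2 a = ∑ j, a j • π (e j) := fun a => rfl
  let Θ : (AdjoinRoot p × (Fin N → ℚ)) →ₗ[ℚ] V := θ1.coprod θ2
  have hΘ : ∀ a b, Θ (a, b) = θ1 a + θ2 b := fun a b => by
    simp [Θ, LinearMap.coprod_apply]
  have hφ : ∀ a b, φ (Θ (a, b)) = Θ (AdjoinRoot.root p * a, c • b) := by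
    intro a b
    rw [hΘ, hΘ, map_add]
    congr 1
    · obtain ⟨f, rfl⟩ := AdjoinRoot.mk_surjective a
      rw [← AdjoinRoot.mk_X, ← map_mul, hθ1, hθ1, map_mul, aeval_X]
      rfl
    · rw [map_smul, hθ2, map_sum, Finset.smul_sum]
      refine Finset.sum_congr rfl fun j _ => ?_
      rw [map_smul, hπ, smul_comm]
  have hinv : ∀ g : ℚ[X], ∀ v ∈ LinearMap.range Θ, aeval φ g v ∈ LinearMap.range Θ := by
    intro g
    induction g using Polynomial.induction_on' with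
    | add p q hp hq =>
      intro v hv
      rw [map_add]
      exact Submodule.add_mem _ (hp v hv) (hq v hv)
    | monomial n a =>
      intro v hv
      rw [← C_mul_X_pow_eq_monomial, map_mul, aeval_C, map_pow, aeval_X]
      change (algebraMap ℚ (Module.End ℚ V) a) ((φ ^ n) v) ∈ _
      have : (φ ^ n) v ∈ LinearMap.range Θ := by
        induction n with
        | zero => exact hv
        | succ n ih =>
          rw [pow_succ']
          change φ ((φ ^ n) v) ∈ _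
          obtain ⟨⟨x, y⟩, hxy⟩ := ih
          rw [← hxy, hφ]
          exact LinearMap.mem_range_self _ _
      exact Submodule.smul_mem _ a this
  have hy0m : y0 ∈ LinearMap.range Θ := by
    refine ⟨(AdjoinRoot.mk p 1, 0), ?_⟩
    rw [hΘ, hθ1, map_zero, add_zero, map_one]
    rfl
  have hye := hy (LinearMap.range Θ) hy0m hinv
  have hem : ∀ j, e j ∈ LinearMap.range Θ := by
    intro j
    have h1 : e j = aeval φ α (aeval φ (X - C c) (e j)) + π (e j) := by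
      have : (aeval φ (α * (X - C c) + β * p)) (e j) = e j := by rw [hαβ, map_one]; rfl
      rw [map_add, map_mul] at this
      exact this.symm
    rw [h1]
    refine Submodule.add_mem _ (hinv α _ (hye j)) ?_
    refine ⟨(0, Pi.single j 1), ?_⟩
    rw [hΘ, map_zero, zero_add, hθ2, Finset.sum_eq_single j]
    · rw [Pi.single_eq_same, one_smul]
    · intro i _ hi
      rw [Pi.single_eq_of_ne hi, zero_smul]
    · intro h; exact absurd (Finset.mem_univ j) h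
  have hsurj : Function.Surjective Θ := by
    rw [← LinearMap.range_eq_top]
    exact hgen _ hem hinv
  have hp0 : p ≠ 0 := hp.ne_zero
  haveI : Module.Finite ℚ (AdjoinRoot p) := (AdjoinRoot.powerBasis hp0).finite
  have hfr : Module.finrank ℚ (AdjoinRoot p × (Fin N → ℚ)) = Module.finrank ℚ V := by
    rw [Module.finrank_prod, hfin, Module.finrank_fin_fun, (AdjoinRoot.powerBasis hp0).finrank,
      AdjoinRoot.powerBasis_dim]
  have hinj : Function.Injective Θ :=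
    (LinearMap.injective_iff_surjective_of_finrank_eq_finrank hfr).2 hsurj
  let E := LinearEquiv.ofBijective Θ ⟨hinj, hsurj⟩
  have hpow : ∀ k : ℕ, ∀ a b, (φ ^ k) (Θ (a, b)) = Θ (AdjoinRoot.root p ^ k * a, c ^ k • b) := by
    intro k
    induction k with
    | zero => intro a b; simp
    | succ k ih =>
      intro a b
      rw [pow_succ']
      change φ ((φ ^ k) (Θ (a, b))) = _
      rw [ih, hφ, pow_succ', pow_succ', mul_assoc, mul_smul]
  have hconj : φ ^ k = E.conj (LinearMap.prodMap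
      (LinearMap.mulLeft ℚ (AdjoinRoot.root p ^ k)) (c ^ k • LinearMap.id)) := by
    ext v
    obtain ⟨⟨a, b⟩, rfl⟩ := E.surjective v
    rw [LinearEquiv.conj_apply_apply, LinearEquiv.symm_apply_apply]
    exact hpow k a b
  rw [hconj, LinearMap.trace_conj', LinearMap.trace_prodMap', map_smul, LinearMap.trace_id,
    Module.finrank_fin_fun, smul_eq_mul]
  ring

end trace

/-- Over ℚ: `ℚ^Ix = ker (U - c) ⊕ ker P(U)` (`X - c` and `P` are coprime), `ker P(U) = (U - c)ℚ^Ix` is generated over `ℚ[X]` by the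
`y_j`, and `(x + c)` is invertible on it, so `y_j ∈ ℚ[X] y_0`: dimension `≤ 510`.  `ker (U - c) ≅ ℚ^Ix/(U - c)` is spanned by
four elements: dimension `≤ 4`.  `514 = 510 + 4`, so `ker P(U) ≅ ℚ[X]/P` and
`tr U^k = 4 c^k + tr (x^k | ℚ[X]/P)`, and `tr (x^k | ℚ[X]/P) = 512[512|k] - 1 - (-1)^k` (file Mat2, `trace_compP`). -/
theorem IsU.trace_pow (Q : ℤ[X])
    (hQ : (1 - X ^ 2) * (256 - 32640 * (1 - X ^ 2) + 2763520 * (1 - X ^ 2) ^ 2 + (1 - X ^ 2) ^ 3 * Q) =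
      1 - X ^ 512) (c : ℤ) (hc : c = 1 ∨ c = -1) (U : Matrix Ix Ix ℤ) (e : Fin 4 → Ix → ℤ) (h : IsU Q c U e)
    (T : ℕ → ℚ) (hT : ∀ k : ℕ, LinearMap.trace ℚ (AdjoinRoot (PP.map (Int.castRingHom ℚ)))
      (LinearMap.mulLeft ℚ (AdjoinRoot.root (PP.map (Int.castRingHom ℚ)) ^ k)) = T k) (k : ℕ) :
    ((U ^ k).trace : ℚ) = 4 * (c : ℚ) ^ k + T k := by
  rw [← hT]
  set ι : ℤ →+* ℚ := Int.castRingHom ℚ with hι
  set A : Matrix Ix Ix ℚ := ι.mapMatrix U with hA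
  have hmap : ∀ g : ℤ[X], ι.mapMatrix (aeval U g) = aeval A (g.map ι) := by
    intro g
    refine map_aeval_eq_aeval_map ?_ g U
    ext; simp
  have hmv : ∀ (B : Matrix Ix Ix ℤ) (v : Ix → ℤ), (ι.mapMatrix B).mulVec (ι ∘ v) = ι ∘ (B.mulVec v) := by
    intro B v
    ext i
    simp [Matrix.mulVec, dotProduct]
  have hact : ∀ (g : ℤ[X]) (v : Ix → ℤ), (aeval A (g.map ι)).mulVec (ι ∘ v) = ι ∘ ((aeval U g).mulVec v) := by
    intro g v
    rw [← hmap, hmv]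
  have hlin : ∀ (g : ℚ[X]) (v : Ix → ℚ), aeval (Matrix.toLin' A) g v = (aeval A g).mulVec v :=
    aeval_toLin' A
  have hcq : (C (c : ℚ) : ℚ[X]) = (C c : ℤ[X]).map ι := by rw [map_C]; rfl
  have hXm : (X - C (c : ℚ) : ℚ[X]) = (X - C c : ℤ[X]).map ι := by
    rw [Polynomial.map_sub, map_X, hcq]
  have hXp : (X + C (c : ℚ) : ℚ[X]) = (X + C c : ℤ[X]).map ι := by
    rw [Polynomial.map_add, map_X, hcq]
  set p : ℚ[X] := PP.map ι with hp
  have hpm : p.Monic := PP_monic.map ι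
  have hpd : p.natDegree = 510 := by
    rw [hp, PP_monic.natDegree_map, PP_natDegree]
  have heval : ∀ a : ℤ, a = 1 ∨ a = -1 → p.eval (a : ℚ) ≠ 0 := by
    intro a ha
    have : PP.eval a = 256 := by
      rw [PP, eval_finsetSum]
      have : ∀ i ∈ Finset.range 256, eval a (X ^ (2 * i) : ℤ[X]) = 1 := by
        intro i _
        rw [eval_pow, eval_X, pow_mul]
        rcases ha with rfl | rfl <;> simp
      rw [Finset.sum_congr rfl this]; simp
    have h2 : p.eval (ι a) = ι (PP.eval a) := by rw [hp, eval_map, eval₂_hom]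
    change p.eval (ι a) ≠ 0
    rw [h2, this]
    simp
  have hcop : ∀ a : ℤ, a = 1 ∨ a = -1 → IsCoprime (X - C (a : ℚ)) p := by
    intro a ha
    refine (Polynomial.irreducible_X_sub_C (a : ℚ)).coprime_iff_not_dvd.2 ?_
    rw [dvd_iff_isRoot]
    exact heval a ha
  have hcm := hcop c hc
  have hcp : IsCoprime (X + C (c : ℚ)) p := by
    have := hcop (-c) (by rcases hc with rfl | rfl <;> simp)
    rwa [Int.cast_neg, C_neg, sub_neg_eq_add] at this
  have hkill : ∀ v, aeval (Matrix.toLin' A) ((X - C (c : ℚ)) * p) v = 0 := by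
    intro v
    rw [hlin, hXm, hp, ← Polynomial.map_mul, ← hmap, IsU.kill' Q hQ c hc U e h, map_zero, Matrix.zero_mulVec]
  let eq : Fin 4 → Ix → ℚ := fun j => ι ∘ e j
  let y : Fin 4 → Ix → ℚ := fun j => aeval (Matrix.toLin' A) (X - C (c : ℚ)) (eq j)
  have hyP : ∀ j, aeval (Matrix.toLin' A) p (y j) = 0 := by
    intro j
    have := hkill (eq j)
    rw [mul_comm, map_mul] at this
    exact this
  have hyrel : ∀ j : Fin 3, aeval (Matrix.toLin' A) (X + C (c : ℚ)) (y j.succ) = (-4 : ℚ) • y j.castSucc := by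
    intro j
    have hcc := C_sq_of_pm hc
    have h1 := h.rel j
    have hX : (X ^ 2 - 1 : ℤ[X]) = (X + C c) * (X - C c) := by linear_combination hcc
    rw [hX, show (-4 * (X - C c) : ℤ[X]) = C (-4) * (X - C c) by rw [C_neg]; rfl] at h1
    have h2 : ι ∘ _ = ι ∘ _ := congrArg (fun v => ι ∘ v) h1
    rw [← hact, ← hact, Polynomial.map_mul, Polynomial.map_mul, pc_mul, pc_mul, ← hXp, ← hXm,
      map_C, pc_C] at h2
    change aeval (Matrix.toLin' A) (X + C (c : ℚ)) (aeval (Matrix.toLin' A) (X - C (c : ℚ)) (eq j.succ)) =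
      (-4 : ℚ) • aeval (Matrix.toLin' A) (X - C (c : ℚ)) (eq j.castSucc)
    rw [hlin, hlin, hlin]
    refine h2.trans ?_
    simp [eq, hι]
  have hmain := trace_abstract (Matrix.toLin' A) p hpm (c : ℚ) 4 (by
      rw [hpd, Module.finrank_fintype_fun_eq_card]
      simp [Ix]) eq hcp hcm hkill (y 0) (hyP 0) (by
      intro S hy0 hS
      obtain ⟨a, b, hab⟩ := hcp
      have step : ∀ j : Fin 3, y j.castSucc ∈ S → y j.succ ∈ S := by
        intro j hj
        have h1 : (aeval (Matrix.toLin' A) (a * (X + C (c : ℚ)) + b * p)) (y j.succ) = y j.succ := by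
          rw [hab, map_one]; rfl
        rw [map_add, map_mul, map_mul] at h1
        change aeval (Matrix.toLin' A) a (aeval (Matrix.toLin' A) (X + C (c : ℚ)) (y j.succ)) +
          aeval (Matrix.toLin' A) b (aeval (Matrix.toLin' A) p (y j.succ)) = y j.succ at h1
        rw [hyP, map_zero, add_zero, hyrel] at h1
        rw [← h1]
        exact hS a _ (S.smul_mem _ hj)
      have y1 : y 1 ∈ S := step 0 hy0
      have y2 : y 2 ∈ S := step 1 y1
      have y3 : y 3 ∈ S := step 2 y2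
      intro j
      fin_cases j
      · exact hy0
      · exact y1
      · exact y2
      · exact y3) (by
      intro S he hS
      rw [eq_top_iff]
      intro v _
      have hb : ∀ i : Ix, (Pi.single i 1 : Ix → ℚ) ∈ S := by
        intro i
        obtain ⟨g, hg⟩ := h.gen (Pi.single i 1)
        have h1 : (Pi.single i 1 : Ix → ℚ) = ι ∘ (Pi.single i 1 : Ix → ℤ) := by
          ext t
          by_cases ht : t = i
          · subst ht; simp
          · simp [ht]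
        rw [h1, hg]
        have h2 : ι ∘ (∑ j, (aeval U (g j)).mulVec (e j)) = ∑ j, ι ∘ ((aeval U (g j)).mulVec (e j)) := by
          ext t; simp
        rw [h2]
        refine S.sum_mem fun j _ => ?_
        rw [← hact, ← hlin]
        exact hS _ _ (he j)
      have h3 : v = ∑ i, v i • (Pi.single i 1 : Ix → ℚ) := by
        conv_lhs => rw [← Finset.univ_sum_single v]
        refine Finset.sum_congr rfl fun i _ => ?_
        rw [← Pi.single_smul, smul_eq_mul, mul_one]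
      rw [h3]
      exact S.sum_mem fun i _ => S.smul_mem _ (hb i)) k
  have htr : LinearMap.trace ℚ (Ix → ℚ) (Matrix.toLin' A ^ k) = ((U ^ k).trace : ℚ) := by
    rw [← Matrix.toLin'_pow, Matrix.trace_toLin'_eq, hA, ← map_pow]
    simp [Matrix.trace, hι]
  rw [htr] at hmain
  rw [hmain]
  norm_num

end Pool.Agent.Bovdi
end

section

set_option autoImplicit false

/-! # Task Mat3: the three matrices `W_0, W_+, W_-` of size 4096 -/

namespace Pool.Agent.Bovdi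

open Polynomial

private theorem mat3_trace_reindex {m n : Type} [Fintype m] [Fintype n] [DecidableEq m] [DecidableEq n]
    (σ : m ≃ n) (A : Matrix m m ℤ) : (Matrix.reindexAlgEquiv ℤ ℤ σ A).trace = A.trace := by
  rw [Matrix.coe_reindexAlgEquiv]
  unfold Matrix.trace
  simp only [Matrix.diag_apply, Matrix.reindex_apply, Matrix.submatrix_apply]
  exact Equiv.sum_comp σ.symm (fun i => A i i)

private theorem mat3_card : Fintype.card Ix = 514 := by
  simp [Ix]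

/-- two diagonal blocks -/
private def mat3_D {m n : Type} (A : Matrix m m ℤ) (B : Matrix n n ℤ) : Matrix (m ⊕ n) (m ⊕ n) ℤ :=
  Matrix.fromBlocks A 0 0 B

private theorem mat3_D_pow {m n : Type} [Fintype m] [Fintype n] [DecidableEq m] [DecidableEq n]
    (A : Matrix m m ℤ) (B : Matrix n n ℤ) (k : ℕ) : (mat3_D A B) ^ k = mat3_D (A ^ k) (B ^ k) := by
  unfold mat3_D
  exact Matrix.fromBlocks_diagonal_pow A B k

private theorem mat3_D_one {m n : Type} [DecidableEq m] [DecidableEq n] :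
    (mat3_D (1 : Matrix m m ℤ) (1 : Matrix n n ℤ)) = 1 := by
  unfold mat3_D
  exact Matrix.fromBlocks_one

private theorem mat3_D_add {m n : Type} (A A' : Matrix m m ℤ) (B B' : Matrix n n ℤ) :
    mat3_D (A + (8 : ℤ) • A') (B + (8 : ℤ) • B') = mat3_D A B + (8 : ℤ) • mat3_D A' B' := by
  unfold mat3_D
  rw [Matrix.fromBlocks_smul, Matrix.fromBlocks_add, smul_zero, smul_zero, add_zero, add_zero]

private theorem mat3_D_trace {m n : Type} [Fintype m] [Fintype n]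
    (A : Matrix m m ℤ) (B : Matrix n n ℤ) : (mat3_D A B).trace = A.trace + B.trace := by
  unfold mat3_D Matrix.trace
  rw [Fintype.sum_sum_type]
  rfl

private theorem mat3_U (c : ℤ) (hc : c = 1 ∨ c = -1) (Q : ℤ[X])
    (hQ : (1 - X ^ 2) * (256 - 32640 * (1 - X ^ 2) + 2763520 * (1 - X ^ 2) ^ 2 + (1 - X ^ 2) ^ 3 * Q) =
      1 - X ^ 512) (U : Matrix Ix Ix ℤ) (e : Fin 4 → Ix → ℤ) (h : IsU Q c U e) (k : ℕ) :
    (U ^ k).trace = 4 * c ^ k + ((if 512 ∣ k then 512 else 0) - 1 - (-1) ^ k) := by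
  have h1 := IsU.trace_pow Q hQ c hc U e h (fun k => (if 512 ∣ k then 512 else 0) - 1 - (-1) ^ k)
    (fun k => trace_PP k) k
  have h2 : ((U ^ k).trace : ℚ) = ((4 * c ^ k + ((if 512 ∣ k then 512 else 0) - 1 - (-1) ^ k) : ℤ) : ℚ) := by
    rw [h1]
    push_cast
    rfl
  exact_mod_cast h2

theorem exists_U : ∃ Up Um Y : Matrix (Fin 514) (Fin 514) ℤ, Up ^ 512 = 1 ∧ Um ^ 512 = 1 ∧ Up = Um + (8 : ℤ) • Y ∧
    (∀ k : ℕ, (Up ^ k).trace = (if 512 ∣ k then 512 else 0) - (-1) ^ k + 3) ∧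
    (∀ k : ℕ, (Um ^ k).trace = (if 512 ∣ k then 512 else 0) - 1 + 3 * (-1) ^ k) := by
  obtain ⟨Q, h1, h2, hQ⟩ := exists_Q
  obtain ⟨Up, Um, Y, e, hp, hm, hY⟩ := exists_IsU Q h1 h2
  have σ : Ix ≃ Fin 514 := Fintype.equivFinOfCardEq mat3_card
  refine ⟨Matrix.reindexAlgEquiv ℤ ℤ σ Up, Matrix.reindexAlgEquiv ℤ ℤ σ Um, Matrix.reindexAlgEquiv ℤ ℤ σ Y,
    ?_, ?_, ?_, fun k => ?_, fun k => ?_⟩
  · rw [← map_pow, IsU.pow_eq_one Q hQ 1 (Or.inl rfl) Up e hp, map_one]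
  · rw [← map_pow, IsU.pow_eq_one Q hQ (-1) (Or.inr rfl) Um e hm, map_one]
  · rw [hY, map_add, map_smul]
  · rw [← map_pow, mat3_trace_reindex, mat3_U 1 (Or.inl rfl) Q hQ Up e hp k, one_pow]
    ring
  · rw [← map_pow, mat3_trace_reindex, mat3_U (-1) (Or.inr rfl) Q hQ Um e hm k]
    ring

/-- `W_0 = diag(U_+, U_-, pad)`, `W_+ = diag(U_+, U_+, pad)`, `W_- = diag(U_-, U_-, pad)`, reindexed -/
theorem exists_mats : ∃ W0 Wp Wm Y1 Y2 : Matrix (Fin 4096) (Fin 4096) ℤ,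
    W0 ^ 512 = 1 ∧ Wp ^ 512 = 1 ∧ Wm ^ 512 = 1 ∧ Wp = W0 + (8 : ℤ) • Y1 ∧ Wm = W0 + (8 : ℤ) • Y2 ∧
    (∀ k : ℕ, (W0 ^ k).trace = if 512 ∣ k then 4096 else 0) ∧
    (∀ k : ℕ, (Wp ^ k).trace = (W0 ^ k).trace + 4 * (1 - (-1) ^ k)) ∧
    (∀ k : ℕ, (Wm ^ k).trace = (W0 ^ k).trace - 4 * (1 - (-1) ^ k)) := by
  obtain ⟨Up, Um, Y, hp, hm, hY, tp, tm⟩ := exists_U
  obtain ⟨Z, hZ, tZ⟩ := exists_pad
  have σ : (Fin 514 ⊕ Fin 514) ⊕ Fin 3068 ≃ Fin 4096 := Fintype.equivFinOfCardEq (by simp)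
  have p0 : (mat3_D (mat3_D Up Um) Z) ^ 512 = 1 := by
    rw [mat3_D_pow, mat3_D_pow, hp, hm, hZ, mat3_D_one, mat3_D_one]
  have pp : (mat3_D (mat3_D Up Up) Z) ^ 512 = 1 := by
    rw [mat3_D_pow, mat3_D_pow, hp, hZ, mat3_D_one, mat3_D_one]
  have pm : (mat3_D (mat3_D Um Um) Z) ^ 512 = 1 := by
    rw [mat3_D_pow, mat3_D_pow, hm, hZ, mat3_D_one, mat3_D_one]
  have y1 : mat3_D (mat3_D Up Up) Z = mat3_D (mat3_D Up Um) Z + (8 : ℤ) • mat3_D (mat3_D 0 Y) 0 := by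
    rw [← mat3_D_add, ← mat3_D_add, smul_zero, add_zero, smul_zero, add_zero, ← hY]
  have y2 : mat3_D (mat3_D Um Um) Z = mat3_D (mat3_D Up Um) Z + (8 : ℤ) • mat3_D (mat3_D (-Y) 0) 0 := by
    rw [← mat3_D_add, ← mat3_D_add, smul_zero, add_zero, smul_zero, add_zero, smul_neg]
    rw [show Up + -((8 : ℤ) • Y) = Um by rw [hY]; abel]
  have t0 : ∀ k : ℕ, ((mat3_D (mat3_D Up Um) Z) ^ k).trace = if 512 ∣ k then 4096 else 0 := by
    intro k
    rw [mat3_D_pow, mat3_D_pow, mat3_D_trace, mat3_D_trace, tp, tm, tZ]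
    split_ifs <;> ring
  have tpp : ∀ k : ℕ, ((mat3_D (mat3_D Up Up) Z) ^ k).trace =
      ((mat3_D (mat3_D Up Um) Z) ^ k).trace + 4 * (1 - (-1) ^ k) := by
    intro k
    rw [t0, mat3_D_pow, mat3_D_pow, mat3_D_trace, mat3_D_trace, tp, tZ]
    split_ifs <;> ring
  have tmm : ∀ k : ℕ, ((mat3_D (mat3_D Um Um) Z) ^ k).trace =
      ((mat3_D (mat3_D Up Um) Z) ^ k).trace - 4 * (1 - (-1) ^ k) := by
    intro k
    rw [t0, mat3_D_pow, mat3_D_pow, mat3_D_trace, mat3_D_trace, tm, tZ]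
    split_ifs <;> ring
  refine ⟨Matrix.reindexAlgEquiv ℤ ℤ σ (mat3_D (mat3_D Up Um) Z),
    Matrix.reindexAlgEquiv ℤ ℤ σ (mat3_D (mat3_D Up Up) Z),
    Matrix.reindexAlgEquiv ℤ ℤ σ (mat3_D (mat3_D Um Um) Z),
    Matrix.reindexAlgEquiv ℤ ℤ σ (mat3_D (mat3_D 0 Y) 0),
    Matrix.reindexAlgEquiv ℤ ℤ σ (mat3_D (mat3_D (-Y) 0) 0), ?_, ?_, ?_, ?_, ?_, fun k => ?_, fun k => ?_, fun k => ?_⟩
  · rw [← map_pow, p0, map_one]
  · rw [← map_pow, pp, map_one]
  · rw [← map_pow, pm, map_one]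
  · rw [← map_smul, ← map_add, ← y1]
  · rw [← map_smul, ← map_add, ← y2]
  · rw [← map_pow, mat3_trace_reindex, t0]
  · rw [← map_pow, ← map_pow, mat3_trace_reindex, mat3_trace_reindex, tpp]
  · rw [← map_pow, ← map_pow, mat3_trace_reindex, mat3_trace_reindex, tmm]

end Pool.Agent.Bovdi
end
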