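import Pool.Agent.Lib.MP_0d8f30_al.BV.Def
import Pool.Agent.Lib.MP_0d8f30_al.Mg.G001

section

set_option autoImplicit false
set_option linter.unusedSimpArgs false

/-! # Task R1: relations between `z`, `x`, `lam`, `aV`

All of it follows from the relations `ww, vv, vw, zw, zv, x3, xw, xv, zN, ord` of `Dat` by expanding. -/

namespace Pool.Agent.Bovdi

open Finset

variable {G : Type} [Group G] {n : ℕ} (D : Dat G n)

section R1Aux

private theorem r1_g_two_n : D.s ^ (2 * n) = 1 := by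
  rw [← D.ord]
  exact pow_orderOf_eq_one _

private theorem r1_g_xinv_w : D.x⁻¹ * D.w = D.w * D.v * D.x⁻¹ := by
  have h : D.x * (D.w * D.v) = D.w * D.x := by
    rw [← mul_assoc, D.xw, mul_assoc, D.xv, ← mul_assoc, ← mul_assoc, D.vw, mul_assoc D.w,
      D.vv, mul_one]
  rw [inv_mul_eq_iff_eq_mul, ← mul_assoc, h, mul_assoc, mul_inv_cancel, mul_one]

private theorem r1_g_xinv_v : D.x⁻¹ * D.v = D.w * D.x⁻¹ := by
  rw [inv_mul_eq_iff_eq_mul, ← mul_assoc, D.xw, mul_assoc, mul_inv_cancel, mul_one]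

private theorem r1_g_xx : D.x * D.x = D.x⁻¹ := by
  rw [eq_inv_iff_mul_eq_one]
  have := D.x3
  rwa [pow_succ, pow_two] at this

private theorem r1_g_yy : D.x⁻¹ * D.x⁻¹ = D.x := by
  rw [← mul_inv_rev, r1_g_xx, inv_inv]

private theorem r1_g_zx : D.s ^ n * D.x = D.x⁻¹ * D.s ^ n := D.zN D.x D.xN

private theorem r1_g_zy : D.s ^ n * D.x⁻¹ = D.x * D.s ^ n := by
  have := D.zN D.x⁻¹ (D.N.inv_mem D.xN)
  rwa [inv_inv] at this

private theorem r1_WW : el D.w * el D.w = 1 := by rw [← map_mul, D.ww, map_one]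

private theorem r1_WW' (y : MonoidAlgebra ℚ G) : el D.w * (el D.w * y) = y := by
  rw [← mul_assoc, r1_WW, one_mul]

private theorem r1_VV : el D.v * el D.v = 1 := by rw [← map_mul, D.vv, map_one]

private theorem r1_VV' (y : MonoidAlgebra ℚ G) : el D.v * (el D.v * y) = y := by
  rw [← mul_assoc, r1_VV, one_mul]

private theorem r1_VW : el D.v * el D.w = el D.w * el D.v := by
  rw [← map_mul, D.vw, map_mul]

private theorem r1_VW' (y : MonoidAlgebra ℚ G) :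
    el D.v * (el D.w * y) = el D.w * (el D.v * y) := by
  rw [← mul_assoc, r1_VW, mul_assoc]

private theorem r1_ZW : D.z * el D.w = el D.w * D.z := by
  rw [Dat.z, ← map_mul, D.zw, map_mul]

private theorem r1_ZW' (y : MonoidAlgebra ℚ G) :
    D.z * (el D.w * y) = el D.w * (D.z * y) := by
  rw [← mul_assoc, r1_ZW, mul_assoc]

private theorem r1_ZV : D.z * el D.v = el D.w * (el D.v * D.z) := by
  rw [Dat.z, ← map_mul, D.zv, map_mul, map_mul, mul_assoc]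

private theorem r1_ZV' (y : MonoidAlgebra ℚ G) :
    D.z * (el D.v * y) = el D.w * (el D.v * (D.z * y)) := by
  rw [← mul_assoc, r1_ZV, mul_assoc, mul_assoc]

private theorem r1_XW : el D.x * el D.w = el D.v * el D.x := by
  rw [← map_mul, D.xw, map_mul]

private theorem r1_XW' (y : MonoidAlgebra ℚ G) :
    el D.x * (el D.w * y) = el D.v * (el D.x * y) := by
  rw [← mul_assoc, r1_XW, mul_assoc]

private theorem r1_XV : el D.x * el D.v = el D.w * (el D.v * el D.x) := by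
  rw [← map_mul, D.xv, map_mul, map_mul, mul_assoc]

private theorem r1_XV' (y : MonoidAlgebra ℚ G) :
    el D.x * (el D.v * y) = el D.w * (el D.v * (el D.x * y)) := by
  rw [← mul_assoc, r1_XV, mul_assoc, mul_assoc]

private theorem r1_YW : el D.x⁻¹ * el D.w = el D.w * (el D.v * el D.x⁻¹) := by
  rw [← map_mul, r1_g_xinv_w, map_mul, map_mul, mul_assoc]

private theorem r1_YW' (y : MonoidAlgebra ℚ G) :
    el D.x⁻¹ * (el D.w * y) = el D.w * (el D.v * (el D.x⁻¹ * y)) := by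
  rw [← mul_assoc, r1_YW, mul_assoc, mul_assoc]

private theorem r1_YV : el D.x⁻¹ * el D.v = el D.w * el D.x⁻¹ := by
  rw [← map_mul, r1_g_xinv_v, map_mul]

private theorem r1_YV' (y : MonoidAlgebra ℚ G) :
    el D.x⁻¹ * (el D.v * y) = el D.w * (el D.x⁻¹ * y) := by
  rw [← mul_assoc, r1_YV, mul_assoc]

private theorem r1_XX : el D.x * el D.x = el D.x⁻¹ := by rw [← map_mul, r1_g_xx]

private theorem r1_XX' (y : MonoidAlgebra ℚ G) : el D.x * (el D.x * y) = el D.x⁻¹ * y := by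
  rw [← mul_assoc, r1_XX]

private theorem r1_YY : el D.x⁻¹ * el D.x⁻¹ = el D.x := by rw [← map_mul, r1_g_yy]

private theorem r1_YY' (y : MonoidAlgebra ℚ G) : el D.x⁻¹ * (el D.x⁻¹ * y) = el D.x * y := by
  rw [← mul_assoc, r1_YY]

private theorem r1_XY : el D.x * el D.x⁻¹ = 1 := by rw [← map_mul, mul_inv_cancel, map_one]

private theorem r1_XY' (y : MonoidAlgebra ℚ G) : el D.x * (el D.x⁻¹ * y) = y := by
  rw [← mul_assoc, r1_XY, one_mul]

private theorem r1_YX : el D.x⁻¹ * el D.x = 1 := by rw [← map_mul, inv_mul_cancel, map_one]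

private theorem r1_YX' (y : MonoidAlgebra ℚ G) : el D.x⁻¹ * (el D.x * y) = y := by
  rw [← mul_assoc, r1_YX, one_mul]

private theorem r1_ZX : D.z * el D.x = el D.x⁻¹ * D.z := by
  rw [Dat.z, ← map_mul, r1_g_zx, map_mul]

private theorem r1_ZX' (y : MonoidAlgebra ℚ G) :
    D.z * (el D.x * y) = el D.x⁻¹ * (D.z * y) := by
  rw [← mul_assoc, r1_ZX, mul_assoc]

private theorem r1_ZY : D.z * el D.x⁻¹ = el D.x * D.z := by
  rw [Dat.z, ← map_mul, r1_g_zy, map_mul]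

private theorem r1_ZY' (y : MonoidAlgebra ℚ G) :
    D.z * (el D.x⁻¹ * y) = el D.x * (D.z * y) := by
  rw [← mul_assoc, r1_ZY, mul_assoc]

private theorem r1_ZZ : D.z * D.z = 1 := by
  rw [Dat.z, ← map_mul, ← pow_add, ← two_mul, r1_g_two_n, map_one]

private theorem r1_ZZ' (y : MonoidAlgebra ℚ G) : D.z * (D.z * y) = y := by
  rw [← mul_assoc, r1_ZZ, one_mul]

end R1Aux

theorem Dat.s_pow_two_n : D.s ^ (2 * n) = 1 := r1_g_two_n D
theorem Dat.z_z : D.z * D.z = 1 := r1_ZZ D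
theorem Dat.w_w : el D.w * el D.w = 1 := r1_WW D
theorem Dat.lam_idem : D.lam * D.lam = D.lam := by
  simp only [Dat.lam, Dat.aV, map_mul, smul_mul_assoc, mul_smul_comm, add_mul, mul_add, sub_mul,
    mul_sub, one_mul, mul_one, mul_assoc, r1_WW, r1_WW', r1_VV, r1_VV', r1_VW, r1_VW', r1_ZW, r1_ZW', r1_ZV, r1_ZV', r1_XW, r1_XW',
    r1_XV, r1_XV', r1_YW, r1_YW', r1_YV, r1_YV', r1_XX, r1_XX', r1_YY, r1_YY', r1_XY, r1_XY',
    r1_YX, r1_YX', r1_ZX, r1_ZX', r1_ZY, r1_ZY', r1_ZZ, r1_ZZ']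
  module
theorem Dat.aV_idem : D.aV * D.aV = D.aV := by
  simp only [Dat.lam, Dat.aV, map_mul, smul_mul_assoc, mul_smul_comm, add_mul, mul_add, sub_mul,
    mul_sub, one_mul, mul_one, mul_assoc, r1_WW, r1_WW', r1_VV, r1_VV', r1_VW, r1_VW', r1_ZW, r1_ZW', r1_ZV, r1_ZV', r1_XW, r1_XW',
    r1_XV, r1_XV', r1_YW, r1_YW', r1_YV, r1_YV', r1_XX, r1_XX', r1_YY, r1_YY', r1_XY, r1_XY',
    r1_YX, r1_YX', r1_ZX, r1_ZX', r1_ZY, r1_ZY', r1_ZZ, r1_ZZ']
  module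
theorem Dat.lam_aV : D.lam * D.aV = 0 := by
  simp only [Dat.lam, Dat.aV, map_mul, smul_mul_assoc, mul_smul_comm, add_mul, mul_add, sub_mul,
    mul_sub, one_mul, mul_one, mul_assoc, r1_WW, r1_WW', r1_VV, r1_VV', r1_VW, r1_VW', r1_ZW, r1_ZW', r1_ZV, r1_ZV', r1_XW, r1_XW',
    r1_XV, r1_XV', r1_YW, r1_YW', r1_YV, r1_YV', r1_XX, r1_XX', r1_YY, r1_YY', r1_XY, r1_XY',
    r1_YX, r1_YX', r1_ZX, r1_ZX', r1_ZY, r1_ZY', r1_ZZ, r1_ZZ']
  module
theorem Dat.aV_lam : D.aV * D.lam = 0 := by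
  simp only [Dat.lam, Dat.aV, map_mul, smul_mul_assoc, mul_smul_comm, add_mul, mul_add, sub_mul,
    mul_sub, one_mul, mul_one, mul_assoc, r1_WW, r1_WW', r1_VV, r1_VV', r1_VW, r1_VW', r1_ZW, r1_ZW', r1_ZV, r1_ZV', r1_XW, r1_XW',
    r1_XV, r1_XV', r1_YW, r1_YW', r1_YV, r1_YV', r1_XX, r1_XX', r1_YY, r1_YY', r1_XY, r1_XY',
    r1_YX, r1_YX', r1_ZX, r1_ZX', r1_ZY, r1_ZY', r1_ZZ, r1_ZZ']
  module
theorem Dat.lam_w : D.lam * el D.w = D.lam := by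
  simp only [Dat.lam, Dat.aV, map_mul, smul_mul_assoc, mul_smul_comm, add_mul, mul_add, sub_mul,
    mul_sub, one_mul, mul_one, mul_assoc, r1_WW, r1_WW', r1_VV, r1_VV', r1_VW, r1_VW', r1_ZW, r1_ZW', r1_ZV, r1_ZV', r1_XW, r1_XW',
    r1_XV, r1_XV', r1_YW, r1_YW', r1_YV, r1_YV', r1_XX, r1_XX', r1_YY, r1_YY', r1_XY, r1_XY',
    r1_YX, r1_YX', r1_ZX, r1_ZX', r1_ZY, r1_ZY', r1_ZZ, r1_ZZ']
  module
theorem Dat.w_lam : el D.w * D.lam = D.lam := by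
  simp only [Dat.lam, Dat.aV, map_mul, smul_mul_assoc, mul_smul_comm, add_mul, mul_add, sub_mul,
    mul_sub, one_mul, mul_one, mul_assoc, r1_WW, r1_WW', r1_VV, r1_VV', r1_VW, r1_VW', r1_ZW, r1_ZW', r1_ZV, r1_ZV', r1_XW, r1_XW',
    r1_XV, r1_XV', r1_YW, r1_YW', r1_YV, r1_YV', r1_XX, r1_XX', r1_YY, r1_YY', r1_XY, r1_XY',
    r1_YX, r1_YX', r1_ZX, r1_ZX', r1_ZY, r1_ZY', r1_ZZ, r1_ZZ']
  module
theorem Dat.lam_v : D.lam * el D.v = -D.lam := by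
  simp only [Dat.lam, Dat.aV, map_mul, smul_mul_assoc, mul_smul_comm, add_mul, mul_add, sub_mul,
    mul_sub, one_mul, mul_one, mul_assoc, r1_WW, r1_WW', r1_VV, r1_VV', r1_VW, r1_VW', r1_ZW, r1_ZW', r1_ZV, r1_ZV', r1_XW, r1_XW',
    r1_XV, r1_XV', r1_YW, r1_YW', r1_YV, r1_YV', r1_XX, r1_XX', r1_YY, r1_YY', r1_XY, r1_XY',
    r1_YX, r1_YX', r1_ZX, r1_ZX', r1_ZY, r1_ZY', r1_ZZ, r1_ZZ']
  module
theorem Dat.v_lam : el D.v * D.lam = -D.lam := by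
  simp only [Dat.lam, Dat.aV, map_mul, smul_mul_assoc, mul_smul_comm, add_mul, mul_add, sub_mul,
    mul_sub, one_mul, mul_one, mul_assoc, r1_WW, r1_WW', r1_VV, r1_VV', r1_VW, r1_VW', r1_ZW, r1_ZW', r1_ZV, r1_ZV', r1_XW, r1_XW',
    r1_XV, r1_XV', r1_YW, r1_YW', r1_YV, r1_YV', r1_XX, r1_XX', r1_YY, r1_YY', r1_XY, r1_XY',
    r1_YX, r1_YX', r1_ZX, r1_ZX', r1_ZY, r1_ZY', r1_ZZ, r1_ZZ']
  module
theorem Dat.z_w : D.z * el D.w = el D.w * D.z := r1_ZW D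
theorem Dat.z_v : D.z * el D.v = el D.w * el D.v * D.z := by
  rw [r1_ZV, mul_assoc]
theorem Dat.z_lam : D.z * D.lam = D.lam * D.z := by
  simp only [Dat.lam, Dat.aV, map_mul, smul_mul_assoc, mul_smul_comm, add_mul, mul_add, sub_mul,
    mul_sub, one_mul, mul_one, mul_assoc, r1_WW, r1_WW', r1_VV, r1_VV', r1_VW, r1_VW', r1_ZW, r1_ZW', r1_ZV, r1_ZV', r1_XW, r1_XW',
    r1_XV, r1_XV', r1_YW, r1_YW', r1_YV, r1_YV', r1_XX, r1_XX', r1_YY, r1_YY', r1_XY, r1_XY',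
    r1_YX, r1_YX', r1_ZX, r1_ZX', r1_ZY, r1_ZY', r1_ZZ, r1_ZZ']
  module
theorem Dat.z_aV : D.z * D.aV = D.aV * D.z := by
  simp only [Dat.lam, Dat.aV, map_mul, smul_mul_assoc, mul_smul_comm, add_mul, mul_add, sub_mul,
    mul_sub, one_mul, mul_one, mul_assoc, r1_WW, r1_WW', r1_VV, r1_VV', r1_VW, r1_VW', r1_ZW, r1_ZW', r1_ZV, r1_ZV', r1_XW, r1_XW',
    r1_XV, r1_XV', r1_YW, r1_YW', r1_YV, r1_YV', r1_XX, r1_XX', r1_YY, r1_YY', r1_XY, r1_XY',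
    r1_YX, r1_YX', r1_ZX, r1_ZX', r1_ZY, r1_ZY', r1_ZZ, r1_ZZ']
  module
theorem Dat.x_aV : el D.x * D.aV = D.aV * el D.x := by
  simp only [Dat.lam, Dat.aV, map_mul, smul_mul_assoc, mul_smul_comm, add_mul, mul_add, sub_mul,
    mul_sub, one_mul, mul_one, mul_assoc, r1_WW, r1_WW', r1_VV, r1_VV', r1_VW, r1_VW', r1_ZW, r1_ZW', r1_ZV, r1_ZV', r1_XW, r1_XW',
    r1_XV, r1_XV', r1_YW, r1_YW', r1_YV, r1_YV', r1_XX, r1_XX', r1_YY, r1_YY', r1_XY, r1_XY',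
    r1_YX, r1_YX', r1_ZX, r1_ZX', r1_ZY, r1_ZY', r1_ZZ, r1_ZZ']
  module
theorem Dat.x_z : el D.x * D.z = D.z * el D.x⁻¹ := (r1_ZY D).symm
theorem Dat.z_x : D.z * el D.x = el D.x⁻¹ * D.z := r1_ZX D
theorem Dat.lam_x_lam : D.lam * el D.x * D.lam = 0 := by
  simp only [Dat.lam, Dat.aV, map_mul, smul_mul_assoc, mul_smul_comm, add_mul, mul_add, sub_mul,
    mul_sub, one_mul, mul_one, mul_assoc, r1_WW, r1_WW', r1_VV, r1_VV', r1_VW, r1_VW', r1_ZW, r1_ZW', r1_ZV, r1_ZV', r1_XW, r1_XW',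
    r1_XV, r1_XV', r1_YW, r1_YW', r1_YV, r1_YV', r1_XX, r1_XX', r1_YY, r1_YY', r1_XY, r1_XY',
    r1_YX, r1_YX', r1_ZX, r1_ZX', r1_ZY, r1_ZY', r1_ZZ, r1_ZZ']
  module
theorem Dat.lam_xinv_lam : D.lam * el D.x⁻¹ * D.lam = 0 := by
  simp only [Dat.lam, Dat.aV, map_mul, smul_mul_assoc, mul_smul_comm, add_mul, mul_add, sub_mul,
    mul_sub, one_mul, mul_one, mul_assoc, r1_WW, r1_WW', r1_VV, r1_VV', r1_VW, r1_VW', r1_ZW, r1_ZW', r1_ZV, r1_ZV', r1_XW, r1_XW',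
    r1_XV, r1_XV', r1_YW, r1_YW', r1_YV, r1_YV', r1_XX, r1_XX', r1_YY, r1_YY', r1_XY, r1_XY',
    r1_YX, r1_YX', r1_ZX, r1_ZX', r1_ZY, r1_ZY', r1_ZZ, r1_ZZ']
  module
/-- the three characters `≠ 1` of `{1,w,v,wv}` -/
theorem Dat.sum_x_lam : ∑ k ∈ range 3, el (D.x ^ k) * D.lam * el (D.x ^ k)⁻¹ = 1 - D.aV := by
  rw [Finset.sum_range_succ, Finset.sum_range_succ, Finset.sum_range_one, pow_zero, pow_one,
    pow_two, r1_g_xx, inv_inv, inv_one, map_one]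
  simp only [Dat.lam, Dat.aV, map_mul, smul_mul_assoc, mul_smul_comm, add_mul, mul_add, sub_mul,
    mul_sub, one_mul, mul_one, mul_assoc, r1_WW, r1_WW', r1_VV, r1_VV', r1_VW, r1_VW', r1_ZW, r1_ZW', r1_ZV, r1_ZV', r1_XW, r1_XW',
    r1_XV, r1_XV', r1_YW, r1_YW', r1_YV, r1_YV', r1_XX, r1_XX', r1_YY, r1_YY', r1_XY, r1_XY',
    r1_YX, r1_YX', r1_ZX, r1_ZX', r1_ZY, r1_ZY', r1_ZZ, r1_ZZ']
  module
/-- `x lam x⁻¹ · z = z · x⁻¹ lam x` -/
theorem Dat.lam1_z : el D.x * D.lam * el D.x⁻¹ * D.z = D.z * (el D.x⁻¹ * D.lam * el D.x) := by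
  simp only [Dat.lam, Dat.aV, map_mul, smul_mul_assoc, mul_smul_comm, add_mul, mul_add, sub_mul,
    mul_sub, one_mul, mul_one, mul_assoc, r1_WW, r1_WW', r1_VV, r1_VV', r1_VW, r1_VW', r1_ZW, r1_ZW', r1_ZV, r1_ZV', r1_XW, r1_XW',
    r1_XV, r1_XV', r1_YW, r1_YW', r1_YV, r1_YV', r1_XX, r1_XX', r1_YY, r1_YY', r1_XY, r1_XY',
    r1_YX, r1_YX', r1_ZX, r1_ZX', r1_ZY, r1_ZY', r1_ZZ, r1_ZZ']
  module
/-- `x lam x⁻¹` and `x⁻¹ lam x` are orthogonal -/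
theorem Dat.lam1_lam2 : (el D.x * D.lam * el D.x⁻¹) * (el D.x⁻¹ * D.lam * el D.x) = 0 := by
  simp only [Dat.lam, Dat.aV, map_mul, smul_mul_assoc, mul_smul_comm, add_mul, mul_add, sub_mul,
    mul_sub, one_mul, mul_one, mul_assoc, r1_WW, r1_WW', r1_VV, r1_VV', r1_VW, r1_VW', r1_ZW, r1_ZW', r1_ZV, r1_ZV', r1_XW, r1_XW',
    r1_XV, r1_XV', r1_YW, r1_YW', r1_YV, r1_YV', r1_XX, r1_XX', r1_YY, r1_YY', r1_XY, r1_XY',
    r1_YX, r1_YX', r1_ZX, r1_ZX', r1_ZY, r1_ZY', r1_ZZ, r1_ZZ']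
  module
theorem Dat.lam2_lam1 : (el D.x⁻¹ * D.lam * el D.x) * (el D.x * D.lam * el D.x⁻¹) = 0 := by
  simp only [Dat.lam, Dat.aV, map_mul, smul_mul_assoc, mul_smul_comm, add_mul, mul_add, sub_mul,
    mul_sub, one_mul, mul_one, mul_assoc, r1_WW, r1_WW', r1_VV, r1_VV', r1_VW, r1_VW', r1_ZW, r1_ZW', r1_ZV, r1_ZV', r1_XW, r1_XW',
    r1_XV, r1_XV', r1_YW, r1_YW', r1_YV, r1_YV', r1_XX, r1_XX', r1_YY, r1_YY', r1_XY, r1_XY',
    r1_YX, r1_YX', r1_ZX, r1_ZX', r1_ZY, r1_ZY', r1_ZZ, r1_ZZ']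
  module

end Pool.Agent.Bovdi
end

section

set_option autoImplicit false

/-! # Task E1: the idempotents `E_± = lam' · avg W' · (1 ± z')/2`

`lam' = x⁻¹ lam x = (1 + wv - w - v)/4`, so `w lam' = -lam'`. -/

namespace Pool.Agent.Bovdi

open Finset

section
variable {G : Type} [Group G] {n : ℕ} (D : Dat G n)

private theorem e1_xy : el D.x * el D.x⁻¹ = 1 := by
  rw [← map_mul, mul_inv_cancel, map_one]
private theorem e1_yx : el D.x⁻¹ * el D.x = 1 := by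
  rw [← map_mul, inv_mul_cancel, map_one]
private theorem e1_wy : el D.w * el D.x⁻¹ = el D.x⁻¹ * el D.v := by
  rw [← map_mul, ← map_mul]
  congr 1
  have h := D.xw
  calc D.w * D.x⁻¹ = D.x⁻¹ * (D.x * D.w) * D.x⁻¹ := by group
    _ = D.x⁻¹ * (D.v * D.x) * D.x⁻¹ := by rw [h]
    _ = D.x⁻¹ * D.v := by group
private theorem e1_xw : el D.x * el D.w = el D.v * el D.x := by
  rw [← map_mul, ← map_mul, D.xw]
private theorem e1_yy : el D.x⁻¹ * el D.x⁻¹ = el D.x := by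
  rw [← map_mul]
  congr 1
  have h := D.x3
  calc D.x⁻¹ * D.x⁻¹ = D.x⁻¹ * D.x⁻¹ * D.x ^ 3 * 1 := by rw [h]; group
    _ = D.x := by group
private theorem e1_conj (a b : MonoidAlgebra ℚ G) :
    (el D.x⁻¹ * a * el D.x) * (el D.x⁻¹ * b * el D.x) = el D.x⁻¹ * (a * b) * el D.x := by
  calc (el D.x⁻¹ * a * el D.x) * (el D.x⁻¹ * b * el D.x)
      = el D.x⁻¹ * a * (el D.x * el D.x⁻¹) * b * el D.x := by simp only [mul_assoc]
    _ = el D.x⁻¹ * (a * b) * el D.x := by rw [e1_xy, mul_one]; simp only [mul_assoc]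

theorem Dat.lam'_idem : D.lam' * D.lam' = D.lam' := by
  unfold Dat.lam'
  rw [e1_conj, D.lam_idem]
theorem Dat.w_lam' : el D.w * D.lam' = -D.lam' := by
  unfold Dat.lam'
  calc el D.w * (el D.x⁻¹ * D.lam * el D.x) = (el D.w * el D.x⁻¹) * D.lam * el D.x := by
        simp only [mul_assoc]
    _ = el D.x⁻¹ * (el D.v * D.lam) * el D.x := by rw [e1_wy]; simp only [mul_assoc]
    _ = -(el D.x⁻¹ * D.lam * el D.x) := by rw [D.v_lam]; simp only [mul_neg, neg_mul]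
theorem Dat.lam'_w : D.lam' * el D.w = -D.lam' := by
  unfold Dat.lam'
  calc el D.x⁻¹ * D.lam * el D.x * el D.w = el D.x⁻¹ * D.lam * (el D.x * el D.w) := by
        simp only [mul_assoc]
    _ = el D.x⁻¹ * (D.lam * el D.v) * el D.x := by rw [e1_xw]; simp only [mul_assoc]
    _ = -(el D.x⁻¹ * D.lam * el D.x) := by rw [D.lam_v]; simp only [mul_neg, neg_mul]
theorem Dat.z'_z' : D.z' * D.z' = 1 := by
  unfold Dat.z'
  rw [e1_conj, D.z_z, mul_one, e1_yx]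
theorem Dat.z'_lam' : D.z' * D.lam' = D.lam' * D.z' := by
  unfold Dat.z' Dat.lam'
  rw [e1_conj, e1_conj, D.z_lam]
/-- `z` moves the character of `lam'` -/
theorem Dat.lam'_z_lam' : D.lam' * D.z * D.lam' = 0 := by
  unfold Dat.lam'
  calc el D.x⁻¹ * D.lam * el D.x * D.z * (el D.x⁻¹ * D.lam * el D.x)
      = el D.x⁻¹ * D.lam * (el D.x * D.z) * (el D.x⁻¹ * D.lam * el D.x) := by
        simp only [mul_assoc]
    _ = el D.x⁻¹ * (D.lam * D.z) * (el D.x⁻¹ * el D.x⁻¹) * D.lam * el D.x := by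
        rw [D.x_z]; simp only [mul_assoc]
    _ = el D.x⁻¹ * D.z * (D.lam * el D.x * D.lam) * el D.x := by
        rw [← D.z_lam, e1_yy]; simp only [mul_assoc]
    _ = 0 := by rw [D.lam_x_lam]; simp only [mul_zero, zero_mul]
end

variable {G : Type} [Group G] [Fintype G] {n : ℕ} (D : Dat G n)

private theorem e1_avg_el (g : G) (h : ∀ a ∈ D.W', a * g = g * a) :
    avg D.W' * el g = el g * avg D.W' :=
  (el_avg_of_comm D.W' g (fun a ha => (h a ha).symm)).symm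

theorem Dat.avgW_lam : avg D.W' * D.lam = D.lam * avg D.W' := by
  have hw := e1_avg_el D D.w (fun a ha => (D.comW a ha).1)
  have hv := e1_avg_el D D.v (fun a ha => (D.comW a ha).2.1)
  have hwv : avg D.W' * el (D.w * D.v) = el (D.w * D.v) * avg D.W' := by
    rw [map_mul, ← mul_assoc, hw, mul_assoc, hv, ← mul_assoc]
  unfold Dat.lam
  rw [mul_smul_comm, smul_mul_assoc]
  congr 1
  rw [mul_sub, mul_sub, mul_add, sub_mul, sub_mul, add_mul, hw, hv, hwv, mul_one, one_mul]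
theorem Dat.avgW_z : avg D.W' * D.z = D.z * avg D.W' :=
  e1_avg_el D (D.s ^ n) (fun a ha => (D.comW a ha).2.2.2)
theorem Dat.avgW_x : avg D.W' * el D.x = el D.x * avg D.W' :=
  e1_avg_el D D.x (fun a ha => (D.comW a ha).2.2.1)
private theorem e1_avg_y : avg D.W' * el D.x⁻¹ = el D.x⁻¹ * avg D.W' :=
  e1_avg_el D D.x⁻¹ (fun a ha => by
    have h := (D.comW a ha).2.2.1
    calc a * D.x⁻¹ = D.x⁻¹ * (D.x * a) * D.x⁻¹ := by group
      _ = D.x⁻¹ * (a * D.x) * D.x⁻¹ := by rw [h]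
      _ = D.x⁻¹ * a := by group)
private theorem e1_avg_conj (a : MonoidAlgebra ℚ G) (h : avg D.W' * a = a * avg D.W') :
    avg D.W' * (el D.x⁻¹ * a * el D.x) = (el D.x⁻¹ * a * el D.x) * avg D.W' := by
  calc avg D.W' * (el D.x⁻¹ * a * el D.x) = (avg D.W' * el D.x⁻¹) * a * el D.x := by
        simp only [mul_assoc]
    _ = el D.x⁻¹ * (avg D.W' * a) * el D.x := by rw [e1_avg_y]; simp only [mul_assoc]
    _ = el D.x⁻¹ * a * (avg D.W' * el D.x) := by rw [h]; simp only [mul_assoc]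
    _ = (el D.x⁻¹ * a * el D.x) * avg D.W' := by rw [D.avgW_x]; simp only [mul_assoc]
theorem Dat.avgW_lam' : avg D.W' * D.lam' = D.lam' * avg D.W' :=
  e1_avg_conj D D.lam D.avgW_lam
theorem Dat.avgW_z' : avg D.W' * D.z' = D.z' * avg D.W' :=
  e1_avg_conj D D.z D.avgW_z
theorem Dat.avgW_w : avg D.W' * el D.w = el D.w * avg D.W' :=
  e1_avg_el D D.w (fun a ha => (D.comW a ha).1)

private theorem e1_gen {R : Type*} [Ring R] (a b c d : R) (hab : a * b = b * a)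
    (hca : c * a = a * c) (hcb : c * b = b * c) (ha : a * a = a) (hb : b * b = b) :
    a * b * c * (a * b * d) = a * b * (c * d) := by
  calc a * b * c * (a * b * d) = a * b * (c * a) * (b * d) := by simp only [mul_assoc]
    _ = a * (b * a) * (c * b) * d := by rw [hca]; simp only [mul_assoc]
    _ = (a * a) * (b * b) * (c * d) := by rw [← hab, hcb]; simp only [mul_assoc]
    _ = a * b * (c * d) := by rw [ha, hb]

private theorem e1_P_lam' (ε : ℚ) : ((1 / 2 : ℚ) • (1 + ε • D.z')) * D.lam' =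
    D.lam' * ((1 / 2 : ℚ) • (1 + ε • D.z')) := by
  rw [smul_mul_assoc, mul_smul_comm, add_mul, mul_add, one_mul, mul_one, smul_mul_assoc,
    mul_smul_comm, D.z'_lam']
private theorem e1_P_avg (ε : ℚ) : ((1 / 2 : ℚ) • (1 + ε • D.z')) * avg D.W' =
    avg D.W' * ((1 / 2 : ℚ) • (1 + ε • D.z')) := by
  rw [smul_mul_assoc, mul_smul_comm, add_mul, mul_add, one_mul, mul_one, smul_mul_assoc,
    mul_smul_comm, D.avgW_z']
private theorem e1_PP (ε : ℚ) (h : ε * ε = 1) :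
    ((1 / 2 : ℚ) • (1 + ε • D.z')) * ((1 / 2 : ℚ) • (1 + ε • D.z')) =
    (1 / 2 : ℚ) • (1 + ε • D.z') := by
  have h1 : (1 + ε • D.z') * (1 + ε • D.z') = (2 : ℚ) • (1 + ε • D.z') := by
    rw [add_mul, mul_add, one_mul, mul_add, mul_one, smul_mul_smul_comm, D.z'_z', h, one_smul,
      one_mul, two_smul]
    abel
  rw [smul_mul_smul_comm, h1, smul_smul]
  congr 1
  norm_num
private theorem e1_PQ (ε : ℚ) (h : ε * ε = 1) :
    ((1 / 2 : ℚ) • (1 + ε • D.z')) * ((1 / 2 : ℚ) • (1 + (-ε) • D.z')) = 0 := by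
  have h1 : (1 + ε • D.z') * (1 + (-ε) • D.z') = 0 := by
    rw [add_mul, mul_add, one_mul, mul_add, mul_one, smul_mul_smul_comm, D.z'_z', one_mul,
      mul_neg, h, neg_smul, neg_smul, one_smul]
    abel
  rw [smul_mul_smul_comm, h1, smul_zero]

theorem Dat.E_idem (ε : ℚ) (h : ε * ε = 1) : D.E ε * D.E ε = D.E ε := by
  unfold Dat.E
  rw [e1_gen _ _ _ _ D.avgW_lam'.symm (e1_P_lam' D ε) (e1_P_avg D ε) D.lam'_idem
    (avg_idem D.W'), e1_PP D ε h]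
theorem Dat.E_E (ε ε' : ℚ) (h : ε * ε = 1) (h' : ε' = -ε) : D.E ε * D.E ε' = 0 := by
  subst h'
  unfold Dat.E
  rw [e1_gen _ _ _ _ D.avgW_lam'.symm (e1_P_lam' D ε) (e1_P_avg D ε) D.lam'_idem
    (avg_idem D.W'), e1_PQ D ε h, mul_zero]
/-- the factors commute: `E ε = y * lam'` and `E ε = lam' * y` -/
theorem Dat.E_lam' (ε : ℚ) : D.E ε * D.lam' = D.E ε := by
  unfold Dat.E
  rw [mul_assoc, e1_P_lam', ← mul_assoc, mul_assoc D.lam' (avg D.W') D.lam', D.avgW_lam',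
    ← mul_assoc, D.lam'_idem]
theorem Dat.lam'_E (ε : ℚ) : D.lam' * D.E ε = D.E ε := by
  unfold Dat.E
  rw [← mul_assoc, ← mul_assoc, D.lam'_idem]
theorem Dat.E_avgW (ε : ℚ) : D.E ε * avg D.W' = D.E ε := by
  unfold Dat.E
  rw [mul_assoc, e1_P_avg, ← mul_assoc, mul_assoc D.lam' (avg D.W') (avg D.W'), avg_idem]
theorem Dat.avgW_E (ε : ℚ) : avg D.W' * D.E ε = D.E ε := by
  unfold Dat.E
  rw [← mul_assoc, ← mul_assoc, D.avgW_lam', mul_assoc D.lam' (avg D.W') (avg D.W'), avg_idem]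
theorem Dat.w_E (ε : ℚ) : el D.w * D.E ε = -D.E ε := by
  unfold Dat.E
  rw [← mul_assoc, ← mul_assoc, D.w_lam', neg_mul, neg_mul]
theorem Dat.E_w (ε : ℚ) : D.E ε * el D.w = -D.E ε := by
  calc D.E ε * el D.w = D.E ε * (D.lam' * el D.w) := by rw [← mul_assoc, D.E_lam']
    _ = -D.E ε := by rw [D.lam'_w, mul_neg, D.E_lam']

end Pool.Agent.Bovdi
end

section

set_option autoImplicit false

/-! # Task E2: (Z1) of section 2 -/

namespace Pool.Agent.Bovdi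

open Finset

variable {G : Type} [Group G] [Fintype G] {n : ℕ} (D : Dat G n)

/-- `s^j w s^-j ∈ W'` for all `j` not divisible by `n` (reduce modulo `n`: `z = s^n` commutes with `w`) -/
theorem Dat.conj_w_mem (j : ℕ) (hj : ¬ n ∣ j) : D.s ^ j * D.w * (D.s ^ j)⁻¹ ∈ D.W' := by
  have h1 : Commute (D.s ^ n) D.w := D.zw
  have h2 : Commute ((D.s ^ n) ^ (j / n)) D.w := h1.pow_left _
  have h3 : D.s ^ j = D.s ^ (j % n) * (D.s ^ n) ^ (j / n) := by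
    rw [← pow_mul, ← pow_add, Nat.mod_add_div]
  have h4 : D.s ^ j * D.w * (D.s ^ j)⁻¹ = D.s ^ (j % n) * D.w * (D.s ^ (j % n))⁻¹ := by
    rw [h3, mul_assoc (D.s ^ (j % n)), h2.eq, mul_inv_rev]
    group
  rw [h4]
  exact D.W's _ (Nat.pos_of_ne_zero fun h => hj (Nat.dvd_of_mod_eq_zero h))
    (Nat.mod_lt _ D.npos)
theorem Dat.conj_w_mem' (j : ℕ) (hj : ¬ n ∣ j) : (D.s ^ j)⁻¹ * D.w * D.s ^ j ∈ D.W' := by
  have h1 : D.s ^ (2 * n * j) = 1 := by rw [pow_mul, D.s_pow_two_n, one_pow]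
  have hn := D.npos
  have hle : j ≤ 2 * n * j := Nat.le_mul_of_pos_left j (by omega)
  have h2 : D.s ^ (2 * n * j - j) = (D.s ^ j)⁻¹ := by
    rw [eq_inv_iff_mul_eq_one, ← pow_add, Nat.sub_add_cancel hle, h1]
  have h3 : ¬ n ∣ (2 * n * j - j) := by
    intro h
    have h4 : n ∣ 2 * n * j := ⟨2 * j, by ring⟩
    have h5 := (Nat.dvd_sub_iff_right hle h4).1 h
    exact hj h5
  have h6 := D.conj_w_mem _ h3
  rwa [h2, inv_inv] at h6

private theorem e2_zero {A : Type} [AddCommGroup A] [Module ℚ A] (X : A) (h : X = -X) : X = 0 := by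
  have h1 : (2 : ℚ) • X = 0 := by
    rw [two_smul]
    nth_rewrite 1 [h]
    exact neg_add_cancel X
  have h2 := congrArg (fun y => (1 / 2 : ℚ) • y) h1
  simp only [smul_zero, smul_smul] at h2
  norm_num at h2
  exact h2

/-- `E s^j E' = E w⁻¹ w s^j E' · ...`: `E w = -E`, `w s^j = s^j (s^-j w s^j)` and `avg W'` absorbs `s^-j w s^j ∈ W'`; so `E s^j E' = -E s^j E'` -/
theorem Dat.E_s_E (ε ε' : ℚ) (j : ℕ) (hj : ¬ n ∣ j) : D.E ε * el (D.s ^ j) * D.E ε' = 0 := by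
  apply e2_zero
  have h1 : el ((D.s ^ j)⁻¹ * D.w * D.s ^ j) * D.E ε' = D.E ε' := by
    rw [← D.avgW_E ε', ← mul_assoc, el_mul_avg _ (D.conj_w_mem' j hj)]
  have h2 : el D.w * el (D.s ^ j) = el (D.s ^ j) * el ((D.s ^ j)⁻¹ * D.w * D.s ^ j) := by
    rw [← map_mul, ← map_mul]
    congr 1
    group
  calc D.E ε * el (D.s ^ j) * D.E ε'
      = D.E ε * el (D.s ^ j) * (el ((D.s ^ j)⁻¹ * D.w * D.s ^ j) * D.E ε') := by rw [h1]
    _ = D.E ε * (el (D.s ^ j) * el ((D.s ^ j)⁻¹ * D.w * D.s ^ j)) * D.E ε' := by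
        simp only [mul_assoc]
    _ = D.E ε * el D.w * el (D.s ^ j) * D.E ε' := by
        rw [← h2, ← mul_assoc (D.E ε)]
    _ = -(D.E ε * el (D.s ^ j) * D.E ε') := by
        rw [D.E_w, neg_mul, neg_mul]
theorem Dat.E_z_E (ε ε' : ℚ) : D.E ε * D.z * D.E ε' = 0 := by
  have h := D.lam'_z_lam'
  calc D.E ε * D.z * D.E ε' = (D.E ε * D.lam') * D.z * (D.lam' * D.E ε') := by
        rw [D.E_lam', D.lam'_E]
    _ = D.E ε * (D.lam' * D.z * D.lam') * D.E ε' := by simp only [mul_assoc]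
    _ = 0 := by rw [h, mul_zero, zero_mul]
theorem Dat.E_sj_E (ε ε' : ℚ) (j : ℕ) (hj : ¬ 2 * n ∣ j) : D.E ε * el (D.s ^ j) * D.E ε' = 0 := by
  by_cases h : n ∣ j
  · obtain ⟨q, rfl⟩ := h
    have hq : ¬ Even q := by
      rintro ⟨r, rfl⟩
      exact hj ⟨r, by ring⟩
    obtain ⟨r, rfl⟩ := Nat.not_even_iff_odd.1 hq
    have h1 : D.s ^ (n * (2 * r + 1)) = D.s ^ n := by
      have : n * (2 * r + 1) = (2 * n) * r + n := by ring
      rw [this, pow_add, pow_mul, D.s_pow_two_n, one_pow, one_mul]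
    rw [h1]
    exact D.E_z_E ε ε'
  · exact D.E_s_E ε ε' j h
/-- for `i, l < 2n`, `i ≠ l` -/
theorem Dat.E_il_E (ε ε' : ℚ) (i l : ℕ) (hi : i < 2 * n) (hl : l < 2 * n) (h : i ≠ l) :
    D.E ε * (el (D.s ^ i) * el (D.s ^ l)⁻¹) * D.E ε' = 0 := by
  have h1 : el (D.s ^ i) * el (D.s ^ l)⁻¹ = el (D.s ^ (i + (2 * n - l))) := by
    rw [← map_mul]
    congr 1
    rw [pow_add, mul_right_inj, eq_comm, eq_inv_iff_mul_eq_one, ← pow_add,
      Nat.sub_add_cancel hl.le, D.s_pow_two_n]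
  rw [h1]
  apply D.E_sj_E
  intro hd
  rcases Nat.lt_or_gt_of_ne h with h2 | h2
  · have h3 : i + (2 * n - l) < 2 * n := by omega
    have h4 : 0 < i + (2 * n - l) := by omega
    exact absurd (Nat.le_of_dvd h4 hd) (by omega)
  · have h3 : i + (2 * n - l) = (i - l) + 2 * n := by omega
    rw [h3] at hd
    have h4 : 2 * n ∣ (i - l) := (Nat.dvd_add_left (dvd_refl _)).1 hd
    exact absurd (Nat.le_of_dvd (by omega) h4) (by omega)

end Pool.Agent.Bovdi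
end
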