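import Pool.Agent.Lib.MP_0d8f30_al.Mg.G002

section

set_option autoImplicit false
set_option linter.unusedSimpArgs false

/-! # Task R2: the element `δ = ∑ x^k lam z x^-k` (k = 0,1,2)

`x^k lam z x^-k · x^l lam z x^-l = x^k z (lam x^(l-k) lam) z x^-l` vanishes for `k ≠ l` (`lam_x_lam`, `lam_xinv_lam`, `x³ = 1`), and is
`x^k lam x^-k` for `k = l`. -/

namespace Pool.Agent.Bovdi

open Finset

variable {G : Type} [Group G] {n : ℕ} (D : Dat G n)

section R2Aux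

private theorem r2_g_two_n : D.s ^ (2 * n) = 1 := by
  rw [← D.ord]
  exact pow_orderOf_eq_one _

private theorem r2_g_xinv_w : D.x⁻¹ * D.w = D.w * D.v * D.x⁻¹ := by
  have h : D.x * (D.w * D.v) = D.w * D.x := by
    rw [← mul_assoc, D.xw, mul_assoc, D.xv, ← mul_assoc, ← mul_assoc, D.vw, mul_assoc D.w,
      D.vv, mul_one]
  rw [inv_mul_eq_iff_eq_mul, ← mul_assoc, h, mul_assoc, mul_inv_cancel, mul_one]

private theorem r2_g_xinv_v : D.x⁻¹ * D.v = D.w * D.x⁻¹ := by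
  rw [inv_mul_eq_iff_eq_mul, ← mul_assoc, D.xw, mul_assoc, mul_inv_cancel, mul_one]

private theorem r2_g_xx : D.x * D.x = D.x⁻¹ := by
  rw [eq_inv_iff_mul_eq_one]
  have := D.x3
  rwa [pow_succ, pow_two] at this

private theorem r2_g_yy : D.x⁻¹ * D.x⁻¹ = D.x := by
  rw [← mul_inv_rev, r2_g_xx, inv_inv]

private theorem r2_g_zx : D.s ^ n * D.x = D.x⁻¹ * D.s ^ n := D.zN D.x D.xN

private theorem r2_g_zy : D.s ^ n * D.x⁻¹ = D.x * D.s ^ n := by
  have := D.zN D.x⁻¹ (D.N.inv_mem D.xN)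
  rwa [inv_inv] at this

private theorem r2_WW : el D.w * el D.w = 1 := by rw [← map_mul, D.ww, map_one]

private theorem r2_WW' (y : MonoidAlgebra ℚ G) : el D.w * (el D.w * y) = y := by
  rw [← mul_assoc, r2_WW, one_mul]

private theorem r2_VV : el D.v * el D.v = 1 := by rw [← map_mul, D.vv, map_one]

private theorem r2_VV' (y : MonoidAlgebra ℚ G) : el D.v * (el D.v * y) = y := by
  rw [← mul_assoc, r2_VV, one_mul]

private theorem r2_VW : el D.v * el D.w = el D.w * el D.v := by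
  rw [← map_mul, D.vw, map_mul]

private theorem r2_VW' (y : MonoidAlgebra ℚ G) :
    el D.v * (el D.w * y) = el D.w * (el D.v * y) := by
  rw [← mul_assoc, r2_VW, mul_assoc]

private theorem r2_ZW : D.z * el D.w = el D.w * D.z := by
  rw [Dat.z, ← map_mul, D.zw, map_mul]

private theorem r2_ZW' (y : MonoidAlgebra ℚ G) :
    D.z * (el D.w * y) = el D.w * (D.z * y) := by
  rw [← mul_assoc, r2_ZW, mul_assoc]

private theorem r2_ZV : D.z * el D.v = el D.w * (el D.v * D.z) := by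
  rw [Dat.z, ← map_mul, D.zv, map_mul, map_mul, mul_assoc]

private theorem r2_ZV' (y : MonoidAlgebra ℚ G) :
    D.z * (el D.v * y) = el D.w * (el D.v * (D.z * y)) := by
  rw [← mul_assoc, r2_ZV, mul_assoc, mul_assoc]

private theorem r2_XW : el D.x * el D.w = el D.v * el D.x := by
  rw [← map_mul, D.xw, map_mul]

private theorem r2_XW' (y : MonoidAlgebra ℚ G) :
    el D.x * (el D.w * y) = el D.v * (el D.x * y) := by
  rw [← mul_assoc, r2_XW, mul_assoc]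

private theorem r2_XV : el D.x * el D.v = el D.w * (el D.v * el D.x) := by
  rw [← map_mul, D.xv, map_mul, map_mul, mul_assoc]

private theorem r2_XV' (y : MonoidAlgebra ℚ G) :
    el D.x * (el D.v * y) = el D.w * (el D.v * (el D.x * y)) := by
  rw [← mul_assoc, r2_XV, mul_assoc, mul_assoc]

private theorem r2_YW : el D.x⁻¹ * el D.w = el D.w * (el D.v * el D.x⁻¹) := by
  rw [← map_mul, r2_g_xinv_w, map_mul, map_mul, mul_assoc]

private theorem r2_YW' (y : MonoidAlgebra ℚ G) :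
    el D.x⁻¹ * (el D.w * y) = el D.w * (el D.v * (el D.x⁻¹ * y)) := by
  rw [← mul_assoc, r2_YW, mul_assoc, mul_assoc]

private theorem r2_YV : el D.x⁻¹ * el D.v = el D.w * el D.x⁻¹ := by
  rw [← map_mul, r2_g_xinv_v, map_mul]

private theorem r2_YV' (y : MonoidAlgebra ℚ G) :
    el D.x⁻¹ * (el D.v * y) = el D.w * (el D.x⁻¹ * y) := by
  rw [← mul_assoc, r2_YV, mul_assoc]

private theorem r2_XX : el D.x * el D.x = el D.x⁻¹ := by rw [← map_mul, r2_g_xx]

private theorem r2_XX' (y : MonoidAlgebra ℚ G) : el D.x * (el D.x * y) = el D.x⁻¹ * y := by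
  rw [← mul_assoc, r2_XX]

private theorem r2_YY : el D.x⁻¹ * el D.x⁻¹ = el D.x := by rw [← map_mul, r2_g_yy]

private theorem r2_YY' (y : MonoidAlgebra ℚ G) : el D.x⁻¹ * (el D.x⁻¹ * y) = el D.x * y := by
  rw [← mul_assoc, r2_YY]

private theorem r2_XY : el D.x * el D.x⁻¹ = 1 := by rw [← map_mul, mul_inv_cancel, map_one]

private theorem r2_XY' (y : MonoidAlgebra ℚ G) : el D.x * (el D.x⁻¹ * y) = y := by
  rw [← mul_assoc, r2_XY, one_mul]

private theorem r2_YX : el D.x⁻¹ * el D.x = 1 := by rw [← map_mul, inv_mul_cancel, map_one]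

private theorem r2_YX' (y : MonoidAlgebra ℚ G) : el D.x⁻¹ * (el D.x * y) = y := by
  rw [← mul_assoc, r2_YX, one_mul]

private theorem r2_ZX : D.z * el D.x = el D.x⁻¹ * D.z := by
  rw [Dat.z, ← map_mul, r2_g_zx, map_mul]

private theorem r2_ZX' (y : MonoidAlgebra ℚ G) :
    D.z * (el D.x * y) = el D.x⁻¹ * (D.z * y) := by
  rw [← mul_assoc, r2_ZX, mul_assoc]

private theorem r2_ZY : D.z * el D.x⁻¹ = el D.x * D.z := by
  rw [Dat.z, ← map_mul, r2_g_zy, map_mul]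

private theorem r2_ZY' (y : MonoidAlgebra ℚ G) :
    D.z * (el D.x⁻¹ * y) = el D.x * (D.z * y) := by
  rw [← mul_assoc, r2_ZY, mul_assoc]

private theorem r2_ZZ : D.z * D.z = 1 := by
  rw [Dat.z, ← map_mul, ← pow_add, ← two_mul, r2_g_two_n, map_one]

private theorem r2_ZZ' (y : MonoidAlgebra ℚ G) : D.z * (D.z * y) = y := by
  rw [← mul_assoc, r2_ZZ, one_mul]

end R2Aux

private theorem r2_del : D.del = D.lam * D.z + el D.x * (D.lam * D.z) * el D.x⁻¹ +
    el D.x⁻¹ * (D.lam * D.z) * el D.x := by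
  rw [Dat.del, Finset.sum_range_succ, Finset.sum_range_succ, Finset.sum_range_one, pow_zero,
    pow_one, pow_two, r2_g_xx, inv_inv, inv_one, map_one, one_mul, mul_one]

theorem Dat.del_sq : D.del * D.del = 1 - D.aV := by
  rw [r2_del]
  simp only [Dat.lam, Dat.aV, map_mul, smul_mul_assoc, mul_smul_comm, add_mul, mul_add, sub_mul,
    mul_sub, one_mul, mul_one, mul_assoc, r2_WW, r2_WW', r2_VV, r2_VV', r2_VW, r2_VW', r2_ZW, r2_ZW', r2_ZV, r2_ZV', r2_XW, r2_XW',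
    r2_XV, r2_XV', r2_YW, r2_YW', r2_YV, r2_YV', r2_XX, r2_XX', r2_YY, r2_YY', r2_XY, r2_XY',
    r2_YX, r2_YX', r2_ZX, r2_ZX', r2_ZY, r2_ZY', r2_ZZ, r2_ZZ']
  module
theorem Dat.del_aV : D.del * D.aV = 0 := by
  rw [r2_del]
  simp only [Dat.lam, Dat.aV, map_mul, smul_mul_assoc, mul_smul_comm, add_mul, mul_add, sub_mul,
    mul_sub, one_mul, mul_one, mul_assoc, r2_WW, r2_WW', r2_VV, r2_VV', r2_VW, r2_VW', r2_ZW, r2_ZW', r2_ZV, r2_ZV', r2_XW, r2_XW',
    r2_XV, r2_XV', r2_YW, r2_YW', r2_YV, r2_YV', r2_XX, r2_XX', r2_YY, r2_YY', r2_XY, r2_XY',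
    r2_YX, r2_YX', r2_ZX, r2_ZX', r2_ZY, r2_ZY', r2_ZZ, r2_ZZ']
  module
theorem Dat.aV_del : D.aV * D.del = 0 := by
  rw [r2_del]
  simp only [Dat.lam, Dat.aV, map_mul, smul_mul_assoc, mul_smul_comm, add_mul, mul_add, sub_mul,
    mul_sub, one_mul, mul_one, mul_assoc, r2_WW, r2_WW', r2_VV, r2_VV', r2_VW, r2_VW', r2_ZW, r2_ZW', r2_ZV, r2_ZV', r2_XW, r2_XW',
    r2_XV, r2_XV', r2_YW, r2_YW', r2_YV, r2_YV', r2_XX, r2_XX', r2_YY, r2_YY', r2_XY, r2_XY',
    r2_YX, r2_YX', r2_ZX, r2_ZX', r2_ZY, r2_ZY', r2_ZZ, r2_ZZ']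
  module
theorem Dat.x_del : el D.x * D.del = D.del * el D.x := by
  rw [r2_del]
  simp only [Dat.lam, Dat.aV, map_mul, smul_mul_assoc, mul_smul_comm, add_mul, mul_add, sub_mul,
    mul_sub, one_mul, mul_one, mul_assoc, r2_WW, r2_WW', r2_VV, r2_VV', r2_VW, r2_VW', r2_ZW, r2_ZW', r2_ZV, r2_ZV', r2_XW, r2_XW',
    r2_XV, r2_XV', r2_YW, r2_YW', r2_YV, r2_YV', r2_XX, r2_XX', r2_YY, r2_YY', r2_XY, r2_XY',
    r2_YX, r2_YX', r2_ZX, r2_ZX', r2_ZY, r2_ZY', r2_ZZ, r2_ZZ']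
  module
theorem Dat.z_del : D.z * D.del = D.del * D.z := by
  rw [r2_del]
  simp only [Dat.lam, Dat.aV, map_mul, smul_mul_assoc, mul_smul_comm, add_mul, mul_add, sub_mul,
    mul_sub, one_mul, mul_one, mul_assoc, r2_WW, r2_WW', r2_VV, r2_VV', r2_VW, r2_VW', r2_ZW, r2_ZW', r2_ZV, r2_ZV', r2_XW, r2_XW',
    r2_XV, r2_XV', r2_YW, r2_YW', r2_YV, r2_YV', r2_XX, r2_XX', r2_YY, r2_YY', r2_XY, r2_XY',
    r2_YX, r2_YX', r2_ZX, r2_ZX', r2_ZY, r2_ZY', r2_ZZ, r2_ZZ']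
  module

end Pool.Agent.Bovdi
end

section

set_option autoImplicit false

/-! # Task X1: `Ξ_± = ∑_{l < 2n, l % h < 2r} s^-l E_± s^l` -/

namespace Pool.Agent.Bovdi

open Finset

variable {G : Type} [Group G] [Fintype G] {n : ℕ} (D : Dat G n)

private theorem x1_off (ε ε' : ℚ) (i l : ℕ) (hi : i < 2 * n) (hl : l < 2 * n) (h : i ≠ l) :
    (el (D.s ^ i)⁻¹ * D.E ε * el (D.s ^ i)) * (el (D.s ^ l)⁻¹ * D.E ε' * el (D.s ^ l)) = 0 := by
  calc (el (D.s ^ i)⁻¹ * D.E ε * el (D.s ^ i)) * (el (D.s ^ l)⁻¹ * D.E ε' * el (D.s ^ l))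
      = el (D.s ^ i)⁻¹ * (D.E ε * (el (D.s ^ i) * el (D.s ^ l)⁻¹) * D.E ε') * el (D.s ^ l) := by
        simp only [mul_assoc]
    _ = 0 := by rw [D.E_il_E ε ε' i l hi hl h, mul_zero, zero_mul]

private theorem x1_diag (ε ε' : ℚ) (l : ℕ) :
    (el (D.s ^ l)⁻¹ * D.E ε * el (D.s ^ l)) * (el (D.s ^ l)⁻¹ * D.E ε' * el (D.s ^ l)) =
      el (D.s ^ l)⁻¹ * (D.E ε * D.E ε') * el (D.s ^ l) := by
  have h1 : el (D.s ^ l) * el (D.s ^ l)⁻¹ = 1 := by
    rw [← map_mul, mul_inv_cancel, map_one]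
  calc (el (D.s ^ l)⁻¹ * D.E ε * el (D.s ^ l)) * (el (D.s ^ l)⁻¹ * D.E ε' * el (D.s ^ l))
      = el (D.s ^ l)⁻¹ * D.E ε * (el (D.s ^ l) * el (D.s ^ l)⁻¹) * D.E ε' * el (D.s ^ l) := by
        simp only [mul_assoc]
    _ = el (D.s ^ l)⁻¹ * (D.E ε * D.E ε') * el (D.s ^ l) := by
        rw [h1, mul_one]; simp only [mul_assoc]

private theorem x1_mul (h r : ℕ) (ε ε' : ℚ) : D.Xi h r ε * D.Xi h r ε' =
    ∑ l ∈ (range (2 * n)).filter (fun l => l % h < 2 * r),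
      el (D.s ^ l)⁻¹ * (D.E ε * D.E ε') * el (D.s ^ l) := by
  unfold Dat.Xi
  rw [Finset.sum_mul]
  refine Finset.sum_congr rfl (fun i hi => ?_)
  rw [Finset.mul_sum]
  have hi' := Finset.mem_range.1 (Finset.mem_filter.1 hi).1
  rw [Finset.sum_eq_single i]
  · exact x1_diag D ε ε' i
  · intro l hl hne
    exact x1_off D ε ε' i l hi' (Finset.mem_range.1 (Finset.mem_filter.1 hl).1) (Ne.symm hne)
  · intro hn
    exact absurd hi hn

theorem Dat.Xi_idem (h r : ℕ) (ε : ℚ) (hε : ε * ε = 1) : D.Xi h r ε * D.Xi h r ε = D.Xi h r ε := by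
  rw [x1_mul, D.E_idem ε hε]
  rfl
theorem Dat.Xi_Xi (h r : ℕ) (ε ε' : ℚ) (hε : ε * ε = 1) (h' : ε' = -ε) : D.Xi h r ε * D.Xi h r ε' = 0 := by
  rw [x1_mul, D.E_E ε ε' hε h']
  refine Finset.sum_eq_zero (fun l _ => ?_)
  rw [mul_zero, zero_mul]
/-- `s^h` commutes with `Ξ` when `h ∣ 2n`: the index set is invariant under `l ↦ l + h` modulo `2n` -/
theorem Dat.s_Xi (h r : ℕ) (hd : h ∣ 2 * n) (ε : ℚ) : el (D.s ^ h) * D.Xi h r ε = D.Xi h r ε * el (D.s ^ h) := by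
  have hn := D.npos
  obtain ⟨q, hq⟩ := hd
  have hq0 : q ≠ 0 := by
    rintro rfl
    simp at hq
    omega
  obtain ⟨q, rfl⟩ := Nat.exists_eq_succ_of_ne_zero hq0
  have hq' : 2 * n = h * q + h := by rw [hq, Nat.succ_eq_add_one, mul_add, mul_one]
  have hdv : h ∣ 2 * n := ⟨q.succ, hq⟩
  have hmod : ∀ l : ℕ, D.s ^ (l % (2 * n)) = D.s ^ l := by
    intro l
    conv_rhs => rw [← Nat.mod_add_div l (2 * n), pow_add, pow_mul, D.s_pow_two_n, one_pow, mul_one]
  unfold Dat.Xi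
  rw [Finset.mul_sum, Finset.sum_mul]
  symm
  refine Finset.sum_nbij' (fun l => (l + h) % (2 * n)) (fun l => (l + h * q) % (2 * n)) ?_ ?_ ?_ ?_ ?_
  · intro l hl
    rw [Finset.mem_filter, Finset.mem_range] at hl ⊢
    refine ⟨Nat.mod_lt _ (by omega), ?_⟩
    rw [Nat.mod_mod_of_dvd _ hdv, Nat.add_mod_right]
    exact hl.2
  · intro l hl
    rw [Finset.mem_filter, Finset.mem_range] at hl ⊢
    refine ⟨Nat.mod_lt _ (by omega), ?_⟩
    rw [Nat.mod_mod_of_dvd _ hdv, Nat.add_mul_mod_self_left]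
    exact hl.2
  · intro l hl
    rw [Finset.mem_filter, Finset.mem_range] at hl
    show ((l + h) % (2 * n) + h * q) % (2 * n) = l
    rw [Nat.mod_add_mod, show l + h + h * q = l + 2 * n by omega, Nat.add_mod_right,
      Nat.mod_eq_of_lt hl.1]
  · intro l hl
    rw [Finset.mem_filter, Finset.mem_range] at hl
    show ((l + h * q) % (2 * n) + h) % (2 * n) = l
    rw [Nat.mod_add_mod, show l + h * q + h = l + 2 * n by omega, Nat.add_mod_right,
      Nat.mod_eq_of_lt hl.1]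
  · intro l _
    show el (D.s ^ l)⁻¹ * D.E ε * el (D.s ^ l) * el (D.s ^ h) =
      el (D.s ^ h) * (el (D.s ^ ((l + h) % (2 * n)))⁻¹ * D.E ε * el (D.s ^ ((l + h) % (2 * n))))
    rw [hmod]
    have e1 : el (D.s ^ h) * el (D.s ^ (l + h))⁻¹ = el (D.s ^ l)⁻¹ := by
      rw [← map_mul]
      congr 1
      rw [pow_add, mul_inv_rev, mul_inv_cancel_left]
    have e2 : el (D.s ^ (l + h)) = el (D.s ^ l) * el (D.s ^ h) := by
      rw [← map_mul, pow_add]
    calc el (D.s ^ l)⁻¹ * D.E ε * el (D.s ^ l) * el (D.s ^ h)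
        = (el (D.s ^ h) * el (D.s ^ (l + h))⁻¹) * D.E ε * (el (D.s ^ l) * el (D.s ^ h)) := by
          rw [e1]; simp only [mul_assoc]
      _ = _ := by rw [← e2]; simp only [mul_assoc]
/-- a conjugate `s^-l E s^l` with `l` outside the index set is orthogonal to `Ξ` -/
theorem Dat.Xi_mul_conj (h r : ℕ) (ε ε' : ℚ) (l : ℕ) (hl : l < 2 * n) (hl' : ¬ l % h < 2 * r) :
    D.Xi h r ε * (el (D.s ^ l)⁻¹ * D.E ε' * el (D.s ^ l)) = 0 := by
  unfold Dat.Xi
  rw [Finset.sum_mul]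
  refine Finset.sum_eq_zero (fun i hi => ?_)
  rw [Finset.mem_filter, Finset.mem_range] at hi
  refine x1_off D ε ε' i l hi.1 hl ?_
  rintro rfl
  exact hl' hi.2
/-- the number of indices (`2r ≤ h`, `2n = h o`) -/
theorem card_index (n h o r : ℕ) (ho : h * o = 2 * n) (hr : 2 * r ≤ h) :
    ((range (2 * n)).filter (fun l => l % h < 2 * r)).card = 2 * r * o := by
  rw [← ho]
  clear ho
  induction o with
  | zero => simp
  | succ o ih =>
    rw [← Nat.count_eq_card_filter_range] at ih ⊢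
    rw [mul_add, mul_one, Nat.count_add, ih, mul_add, mul_one]
    congr 1
    have h1 : (fun k => (h * o + k) % h < 2 * r) = fun k => k % h < 2 * r := by
      funext k
      rw [Nat.mul_add_mod]
    have h2 : Nat.count (fun k => (h * o + k) % h < 2 * r) h =
        ((range h).filter (fun k => k % h < 2 * r)).card := by
      rw [Nat.count_eq_card_filter_range]
      simp only [Nat.mul_add_mod]
    rw [h2]
    have h3 : (range h).filter (fun k => k % h < 2 * r) = range (2 * r) := by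
      ext k
      rw [Finset.mem_filter, Finset.mem_range, Finset.mem_range]
      constructor
      · rintro ⟨a, b⟩
        rwa [Nat.mod_eq_of_lt a] at b
      · intro a
        have b : k < h := lt_of_lt_of_le a hr
        exact ⟨b, by rwa [Nat.mod_eq_of_lt b]⟩
    rw [h3, Finset.card_range]

end Pool.Agent.Bovdi
end
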