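import Mathlib
import Pool.Agent.Lib.MP_0d8f30_al.BV.Def

section

/-!
# Units of a semisimple ring are products of unipotent elements and of an element of a full corner
-/

set_option autoImplicit false

namespace Pool.Agent.Bov

open scoped Pointwise

variable {A : Type*} [Ring A]

/-- `c` lies in the corner of `E`: it is the identity on `1 - E`. -/
def Cor (E c : A) : Prop := (1 - E) * c = 1 - E ∧ c * (1 - E) = 1 - E

/-- `g` is a product of unipotent elements and of a unit in the corner of `e`. -/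
def Red (e g : A) : Prop := ∃ (l : List A) (c : A), (∀ a ∈ l, a * a = 0) ∧ IsUnit c ∧ Cor e c ∧
  g = (l.map (fun a => 1 + a)).prod * c

theorem red_left {e g x : A} (hx : x * x = 0) (h : Red e ((1 + x) * g)) : Red e g := by
  obtain ⟨l, c, hl, hu, hc, hg⟩ := h
  refine ⟨-x :: l, c, ?_, hu, hc, ?_⟩
  · intro a ha
    rcases List.mem_cons.1 ha with rfl | ha
    · rw [neg_mul_neg, hx]
    · exact hl a ha
  · rw [List.map_cons, List.prod_cons, mul_assoc, ← hg, ← mul_assoc]
    have h1 : (1 + -x) * (1 + x) = 1 := by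
      rw [add_mul, mul_add, mul_add, one_mul, neg_mul, neg_mul, hx]
      simp
    rw [h1, one_mul]

theorem red_right {e g x : A} (hx : x * x = 0) (h : Red e (g * (1 + x))) : Red e g := by
  obtain ⟨l, c, hl, ⟨c, rfl⟩, hc, hg⟩ := h
  refine ⟨l ++ [-(c * x * ((c⁻¹ : Aˣ) : A))], c, ?_, c.isUnit, hc, ?_⟩
  · intro a ha
    rcases List.mem_append.1 ha with ha | ha
    · exact hl a ha
    · rw [List.mem_singleton] at ha
      rw [ha, neg_mul_neg]
      calc (c * x * ((c⁻¹ : Aˣ) : A)) * (c * x * ((c⁻¹ : Aˣ) : A))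
          = c * x * (((c⁻¹ : Aˣ) : A) * c) * x * ((c⁻¹ : Aˣ) : A) := by simp only [mul_assoc]
        _ = c * (x * x) * ((c⁻¹ : Aˣ) : A) := by rw [Units.inv_mul, mul_one, mul_assoc (c : A) x x]
        _ = 0 := by rw [hx, mul_zero, zero_mul]
  · have h1 : g = g * (1 + x) * (1 - x) := by
      rw [mul_assoc, add_mul, mul_sub, mul_sub, one_mul, mul_one, hx, sub_zero, one_mul,
        sub_add_cancel, mul_one]
    have h2 : (1 + -(c * x * ((c⁻¹ : Aˣ) : A))) * (c : A) = (c : A) * (1 - x) := by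
      rw [add_mul, one_mul, neg_mul, mul_assoc, Units.inv_mul, mul_one, mul_sub, mul_one,
        sub_eq_add_neg]
    rw [List.map_append, List.prod_append, List.map_singleton, List.prod_singleton, mul_assoc, h2,
      ← mul_assoc, ← hg]
    exact h1

theorem red_trans {E e g : A} (h : Red E g) (h' : ∀ c : A, IsUnit c → Cor E c → Red e c) :
    Red e g := by
  obtain ⟨l, c, hl, hu, hc, hg⟩ := h
  obtain ⟨l', c', hl', hu', hc', hg'⟩ := h' c hu hc
  refine ⟨l ++ l', c', ?_, hu', hc', ?_⟩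
  · intro a ha
    rcases List.mem_append.1 ha with ha | ha
    · exact hl a ha
    · exact hl' a ha
  · rw [List.map_append, List.prod_append, mul_assoc, ← hg', ← hg]

/-- corner elements -/
theorem cor_right {E c x : A} (h : Cor E c) (h1 : (1 - E) * x = 0) (h2 : x * (1 - E) = 0) :
    Cor E (c * (1 + x)) := by
  refine ⟨?_, ?_⟩
  · rw [← mul_assoc, h.1, mul_add, mul_one, h1, add_zero]
  · rw [mul_assoc, add_mul, one_mul, h2, add_zero, h.2]

theorem isUnit_one_add {x : A} (hx : x * x = 0) : IsUnit (1 + x) := by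
  refine ⟨⟨1 + x, 1 - x, ?_, ?_⟩, rfl⟩
  · rw [add_mul, mul_sub, mul_sub, one_mul, mul_one, hx, sub_zero, one_mul, sub_add_cancel]
  · rw [sub_mul, mul_add, mul_add, one_mul, mul_one, hx, add_zero, one_mul, add_sub_cancel_right]

/-- The last step: the row of `f` is `f`. -/
theorem red_last {e f c : A} (hee : e * e = e) (hff : f * f = f) (hef : e * f = 0)
    (hfe : f * e = 0) (hu : IsUnit c) (hc : Cor (e + f) c) (hrow : f * c = f) : Red e c := by
  have hy : (-(e * c * f)) * (-(e * c * f)) = 0 := by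
    rw [neg_mul_neg]
    calc e * c * f * (e * c * f) = e * c * (f * e) * c * f := by simp only [mul_assoc]
      _ = 0 := by rw [hfe, mul_zero, zero_mul, zero_mul]
  refine red_left hy ?_
  have h1E : (1 - (e + f)) * f = 0 := by
    rw [sub_mul, add_mul, hef, hff, one_mul, zero_add, sub_self]
  have hE1 : f * (1 - (e + f)) = 0 := by
    rw [mul_sub, mul_add, hfe, hff, mul_one, zero_add, sub_self]
  have h1Ee : (1 - (e + f)) * e = 0 := by
    rw [sub_mul, add_mul, hfe, hee, one_mul, add_zero, sub_self]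
  refine ⟨[], (1 + -(e * c * f)) * c, by simp, (isUnit_one_add hy).mul hu, ⟨?_, ?_⟩, by simp⟩
  · have h2 : (1 - e) = (1 - (e + f)) + f := by abel
    rw [h2, add_mul, add_mul (1 : A), one_mul, mul_add, mul_add, hc.1, hrow]
    have h3 : (1 - (e + f)) * (-(e * c * f) * c) = 0 := by
      rw [neg_mul, mul_neg, mul_assoc e, mul_assoc e, ← mul_assoc, h1Ee, zero_mul, neg_zero]
    have h4 : f * (-(e * c * f) * c) = 0 := by
      rw [neg_mul, mul_neg, mul_assoc e, mul_assoc e, ← mul_assoc, hfe, zero_mul, neg_zero]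
    rw [h3, h4, add_zero, add_zero]
  · have h2 : (1 - e) = (1 - (e + f)) + f := by abel
    have h5 : c * f = e * c * f + f := by
      have h6 : (1 - (e + f)) * (c * f) = 0 := by rw [← mul_assoc, hc.1, h1E]
      have h7 : c * f = (1 - (e + f)) * (c * f) + (e * c * f + f * c * f) := by
        rw [sub_mul, one_mul, add_mul, ← mul_assoc, ← mul_assoc]
        abel
      rw [h7, h6, zero_add, hrow, hff]
    have h8 : e * c * f * c = e * c * f := by rw [mul_assoc, hrow]
    have h9 : (1 + -(e * c * f)) * c * f = f := by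
      rw [add_mul, one_mul, neg_mul, h8, add_mul, neg_mul, mul_assoc (e * c) f f, hff, h5]
      abel
    have h10 : (1 + -(e * c * f)) * c * (1 - (e + f)) = 1 - (e + f) := by
      rw [mul_assoc, hc.2, add_mul, one_mul, neg_mul, mul_assoc (e * c) f, hE1, mul_zero, neg_zero,
        add_zero]
    rw [h2, mul_add, h9, h10]

theorem step_fe {e f x : A} (hee : e * e = e) (hff : f * f = f) (hef : e * f = 0)
    (hx : f * x * e = x) : x * x = 0 ∧ (1 - (e + f)) * x = 0 ∧ x * (1 - (e + f)) = 0 := by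
  have h1 : (1 - (e + f)) * f = 0 := by
    rw [sub_mul, add_mul, hef, hff, one_mul, zero_add, sub_self]
  have h2 : e * (1 - (e + f)) = 0 := by
    rw [mul_sub, mul_add, hef, hee, mul_one, add_zero, sub_self]
  refine ⟨?_, ?_, ?_⟩
  · calc x * x = f * x * e * (f * x * e) := by rw [hx]
      _ = f * x * (e * f) * x * e := by simp only [mul_assoc]
      _ = 0 := by rw [hef, mul_zero, zero_mul, zero_mul]
  · rw [← hx, mul_assoc f, ← mul_assoc, h1, zero_mul]
  · rw [← hx, mul_assoc, h2, mul_zero]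

theorem step_ef {e f x : A} (hee : e * e = e) (hff : f * f = f) (hfe : f * e = 0)
    (hx : e * x * f = x) : x * x = 0 ∧ (1 - (e + f)) * x = 0 ∧ x * (1 - (e + f)) = 0 := by
  have h := step_fe hff hee hfe hx
  rw [add_comm f e] at h
  exact h

/-- The row `r` of `f` can be reduced. -/
def RowRed (e f r : A) : Prop := ∀ c : A, IsUnit c → Cor (e + f) c → f * c = r → Red e c

theorem rowRed_last {e f : A} (hee : e * e = e) (hff : f * f = f) (hef : e * f = 0)
    (hfe : f * e = 0) : RowRed e f f := fun _ hu hc hr => red_last hee hff hef hfe hu hc hr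

theorem rowRed_step {e f r x : A} (h0 : x * x = 0 ∧ (1 - (e + f)) * x = 0 ∧
    x * (1 - (e + f)) = 0) (h : RowRed e f (r * (1 + x))) : RowRed e f r := by
  intro c hu hc hr
  refine red_right h0.1 (h _ (hu.mul (isUnit_one_add h0.1)) (cor_right hc h0.2.1 h0.2.2) ?_)
  rw [← mul_assoc, hr]

/-- The row of `f` has an invertible diagonal entry. -/
theorem rowRed_unit {e f a b b' u v : A} (hee : e * e = e) (hff : f * f = f) (hef : e * f = 0)
    (hfe : f * e = 0) (ha : f * a * e = a) (hb : f * b * f = b) (hb' : f * b' * f = b')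
    (hbb : b * b' = f) (hu : f * u * e = u) (hv : e * v * f = v) (huv : u * v = f) :
    RowRed e f (a + b) := by
  have hfa : f * a = a := by rw [← ha, ← mul_assoc, ← mul_assoc, hff]
  have hae : a * e = a := by rw [← ha, mul_assoc, hee]
  have hfb : f * b = b := by rw [← hb, ← mul_assoc, ← mul_assoc, hff]
  have hbf : b * f = b := by rw [← hb, mul_assoc, hff]
  have hfb' : f * b' = b' := by rw [← hb', ← mul_assoc, ← mul_assoc, hff]
  have hbf' : b' * f = b' := by rw [← hb', mul_assoc, hff]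
  have hue : u * e = u := by rw [← hu, mul_assoc, hee]
  have hev : e * v = v := by rw [← hv, ← mul_assoc, ← mul_assoc, hee]
  have hvf : v * f = v := by rw [← hv, mul_assoc, hff]
  have hfu : f * u = u := by rw [← hu, ← mul_assoc, ← mul_assoc, hff]
  -- the five steps
  refine rowRed_step (x := -(b' * a)) (step_fe hee hff hef ?_) ?_
  · rw [mul_neg, neg_mul, ← mul_assoc, hfb', mul_assoc, hae]
  have e1 : (a + b) * (1 + -(b' * a)) = b := by
    have h1 : a * (b' * a) = 0 := by
      rw [← hfb', ← hae]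
      calc a * e * (f * b' * (a * e)) = a * (e * f) * b' * (a * e) := by simp only [mul_assoc]
        _ = 0 := by rw [hef, mul_zero, zero_mul, zero_mul]
    have h2 : b * (b' * a) = a := by rw [← mul_assoc, hbb, hfa]
    rw [mul_add, mul_one, mul_neg, add_mul, h1, h2]
    abel
  rw [e1]
  refine rowRed_step (x := b' * (f - b) * u) (step_fe hee hff hef ?_) ?_
  · rw [mul_assoc, mul_assoc, hue, ← mul_assoc, ← mul_assoc, hfb']
  have e2 : b * (1 + b' * (f - b) * u) = b + (f - b) * u := by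
    rw [mul_add, mul_one, mul_assoc b', ← mul_assoc b, hbb, ← mul_assoc, mul_sub, hff, hfb]
  rw [e2]
  refine rowRed_step (x := v) (step_ef hee hff hfe hv) ?_
  have e3 : (b + (f - b) * u) * (1 + v) = (f - b) * u + f := by
    have h1 : b * v = 0 := by
      rw [← hbf, ← hev, mul_assoc, ← mul_assoc f, hfe, zero_mul, mul_zero]
    have h2 : (f - b) * u * v = f - b := by
      rw [mul_assoc, huv, sub_mul, hff, hbf]
    rw [mul_add, mul_one, add_mul, h1, h2]
    abel
  rw [e3]
  refine rowRed_step (x := -((f - b) * u)) (step_fe hee hff hef ?_) ?_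
  · rw [mul_neg, neg_mul, mul_assoc, mul_assoc, hue, ← mul_assoc, mul_sub, hff, hfb]
  have e4 : ((f - b) * u + f) * (1 + -((f - b) * u)) = f := by
    have h1 : (f - b) * u * ((f - b) * u) = 0 := by
      have h2 : f - b = f * (f - b) := by rw [mul_sub, hff, hfb]
      calc (f - b) * u * ((f - b) * u) = (f - b) * (u * e) * (f * (f - b) * u) := by
            rw [hue, ← h2]
        _ = (f - b) * u * (e * f) * (f - b) * u := by simp only [mul_assoc]
        _ = 0 := by rw [hef, mul_zero, zero_mul, zero_mul]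
    have h3 : f * ((f - b) * u) = (f - b) * u := by rw [← mul_assoc, mul_sub, hff, hfb]
    rw [mul_add, mul_one, mul_neg, add_mul, h1, h3]
    abel
  rw [e4]
  exact rowRed_last hee hff hef hfe

/-- Removing an idempotent `f` with `f A f` a division ring. -/
theorem red_core {e f u v : A} (hee : e * e = e) (hff : f * f = f) (hef : e * f = 0)
    (hfe : f * e = 0) (hu : f * u * e = u) (hv : e * v * f = v) (huv : u * v = f)
    (hdiv : ∀ b, f * b * f = b → b ≠ 0 → ∃ b', f * b' * f = b' ∧ b * b' = f)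
    {c : A} (hcu : IsUnit c) (hc : Cor (e + f) c) : Red e c := by
  obtain ⟨c, rfl⟩ := hcu
  have hE1 : f * (1 - (e + f)) = 0 := by
    rw [mul_sub, mul_add, hfe, hff, mul_one, zero_add, sub_self]
  -- the row
  have hrow : f * c = f * c * e + f * c * f := by
    have h1 : f * c * (1 - (e + f)) = 0 := by rw [mul_assoc, hc.2, hE1]
    rw [mul_sub, mul_one, sub_eq_zero, mul_add] at h1
    exact h1
  by_cases hb : f * (c : A) * f = 0
  · rw [hb, add_zero] at hrow
    have hx : e * (e * ((c⁻¹ : Aˣ) : A) * f) * f = e * ((c⁻¹ : Aˣ) : A) * f := by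
      rw [← mul_assoc, ← mul_assoc, hee, mul_assoc, hff]
    have hx0 := step_ef hee hff hfe hx
    refine red_right hx0.1 ?_
    have hr : f * (c * (1 + e * ((c⁻¹ : Aˣ) : A) * f)) = f * c * e + f := by
      rw [← mul_assoc, mul_add, mul_one, ← mul_assoc, ← mul_assoc, ← hrow, mul_assoc f,
        Units.mul_inv, mul_one, hff]
    refine rowRed_unit (a := f * c * e) (b := f) (b' := f) (u := u) (v := v) hee hff hef hfe ?_ ?_
      ?_ hff hu hv huv _ (c.isUnit.mul (isUnit_one_add hx0.1)) (cor_right hc hx0.2.1 hx0.2.2) hr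
    · rw [← mul_assoc, ← mul_assoc, hff, mul_assoc, hee]
    · rw [hff, hff]
    · rw [hff, hff]
  · have hbf : f * (f * (c : A) * f) * f = f * c * f := by
      rw [← mul_assoc, ← mul_assoc, hff, mul_assoc, hff]
    obtain ⟨b', hb', hbb⟩ := hdiv _ hbf hb
    refine rowRed_unit (a := f * c * e) (b := f * c * f) (b' := b') (u := u) (v := v) hee hff hef
      hfe ?_ hbf hb' hbb hu hv huv _ c.isUnit hc hrow
    rw [← mul_assoc, ← mul_assoc, hff, mul_assoc, hee]

/-- Splitting off a primitive idempotent. -/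
theorem exists_prim [IsSemisimpleRing A] {h : A} (hh : h * h = h) (h0 : h ≠ 0) :
    ∃ f h' : A, f * f = f ∧ h' * h' = h' ∧ f * h' = 0 ∧ h' * f = 0 ∧ f + h' = h ∧ f ≠ 0 ∧
      Ideal.span {h'} < Ideal.span {h} ∧
      ∀ b, f * b * f = b → b ≠ 0 → ∃ b', f * b' * f = b' ∧ b * b' = f := by
  have hspan : ∀ x ∈ Ideal.span {h}, x * h = x := by
    intro x hx
    obtain ⟨a, rfl⟩ := Ideal.mem_span_singleton'.1 hx
    rw [mul_assoc, hh]
  obtain hbot | ⟨I, hI, hIh⟩ := IsAtomic.eq_bot_or_exists_atom_le (Ideal.span {h})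
  · exact absurd (Ideal.span_singleton_eq_bot.1 hbot) h0
  obtain ⟨J, hJ⟩ := exists_isCompl I
  have hdisj : ∀ z, z ∈ I → z ∈ J → z = 0 := by
    intro z hz hz'
    have h1 : z ∈ I ⊓ J := ⟨hz, hz'⟩
    rw [hJ.inf_eq_bot] at h1
    exact (Submodule.mem_bot A).1 h1
  have htop : h ∈ I ⊔ J := by
    rw [hJ.sup_eq_top]
    exact Submodule.mem_top
  obtain ⟨i, hi, j, hj, hij⟩ := Submodule.mem_sup.1 htop
  have hIsp : ∀ x ∈ I, x * i = x ∧ x * j = 0 := by
    intro x hx
    have h1 : x * i + x * j = x := by rw [← mul_add, hij, hspan x (hIh hx)]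
    have h2 : x * j = 0 := by
      refine hdisj _ ?_ (J.smul_mem x hj)
      have h3 : x * j = x - x * i := by
        rw [eq_sub_iff_add_eq']
        exact h1
      rw [h3]
      exact I.sub_mem hx (I.smul_mem x hi)
    refine ⟨?_, h2⟩
    rw [h2, add_zero] at h1
    exact h1
  have hjsp : j ∈ Ideal.span {h} := by
    have h1 : j = h - i := by rw [← hij]; abel
    rw [h1]
    exact Ideal.sub_mem _ (Ideal.subset_span rfl) (hIh hi)
  have hJsp : ∀ y ∈ J, y ∈ Ideal.span {h} → y * i = 0 ∧ y * j = y := by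
    intro y hy hyh
    have h1 : y * i + y * j = y := by rw [← mul_add, hij, hspan y hyh]
    have h2 : y * i = 0 := by
      refine hdisj _ (I.smul_mem y hi) ?_
      have h3 : y * i = y - y * j := by
        rw [eq_sub_iff_add_eq]
        exact h1
      rw [h3]
      exact J.sub_mem hy (J.smul_mem y hj)
    refine ⟨h2, ?_⟩
    rw [h2, zero_add] at h1
    exact h1
  have hii := (hIsp i hi).1
  have hij0 := (hIsp i hi).2
  have hji0 := (hJsp j hj hjsp).1
  have hjj := (hJsp j hj hjsp).2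
  have hi0 : i ≠ 0 := by
    intro h1
    apply hI.1
    rw [eq_bot_iff]
    intro x hx
    have h2 := (hIsp x hx).1
    rw [h1, mul_zero] at h2
    rw [← h2]
    exact Submodule.zero_mem _
  refine ⟨i, j, hii, hjj, hij0, hji0, hij, hi0, ?_, ?_⟩
  · refine lt_of_le_of_ne ?_ ?_
    · rw [Ideal.span_singleton_le_iff_mem]
      exact hjsp
    · intro heq
      have h1 : i ∈ Ideal.span {j} := by
        rw [heq]
        exact hIh hi
      obtain ⟨a, ha⟩ := Ideal.mem_span_singleton'.1 h1
      apply hi0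
      have h2 : i * j = i := by rw [← ha, mul_assoc, hjj]
      rw [← h2, hij0]
  · -- nonzero elements of `i A i` have left inverses
    have hleft : ∀ b, i * b * i = b → b ≠ 0 → ∃ z, i * z * i = z ∧ z * b = i := by
      intro b hb hb0
      have hbI : b ∈ I := by
        rw [← hb]
        exact I.smul_mem _ hi
      have hle : Ideal.span {b} ≤ I := by
        rw [Ideal.span_singleton_le_iff_mem]
        exact hbI
      have heq : Ideal.span {b} = I := by
        rcases hI.le_iff.1 hle with h1 | h1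
        · exact absurd (Ideal.span_singleton_eq_bot.1 h1) hb0
        · exact h1
      have h1 : i ∈ Ideal.span {b} := by
        rw [heq]
        exact hi
      obtain ⟨z, hz⟩ := Ideal.mem_span_singleton'.1 h1
      refine ⟨i * z * i, ?_, ?_⟩
      · rw [← mul_assoc, ← mul_assoc, hii, mul_assoc, hii]
      · have h2 : i * b = b := by rw [← hb, ← mul_assoc, ← mul_assoc, hii]
        rw [mul_assoc (i * z), h2, mul_assoc, hz, hii]
    intro b hb hb0
    obtain ⟨z, hz, hzb⟩ := hleft b hb hb0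
    have hz0 : z ≠ 0 := by
      intro h1
      rw [h1, zero_mul] at hzb
      exact hi0 hzb.symm
    obtain ⟨w, hw, hwz⟩ := hleft z hz hz0
    refine ⟨z, hz, ?_⟩
    have h2 : i * b = b := by rw [← hb, ← mul_assoc, ← mul_assoc, hii]
    have h3 : w * i = w := by rw [← hw, mul_assoc, hii]
    have h4 : b = w := by
      calc b = w * z * b := by rw [hwz, h2]
        _ = w := by rw [mul_assoc, hzb, h3]
    rw [h4, hwz]

/-- A full idempotent dominates the primitive idempotents. -/
theorem exists_uv {e f : A} (hee : e * e = e) (hff : f * f = f) (hf0 : f ≠ 0)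
    (hfull : (1 : A) ∈ TwoSidedIdeal.span {e})
    (hdiv : ∀ b, f * b * f = b → b ≠ 0 → ∃ b', f * b' * f = b' ∧ b * b' = f) :
    ∃ u v : A, f * u * e = u ∧ e * v * f = v ∧ u * v = f := by
  obtain ⟨x, y, hxy⟩ : ∃ x y : A, f * (x * e * y) * f ≠ 0 := by
    by_contra hcon
    push Not at hcon
    rw [TwoSidedIdeal.mem_span_iff_mem_addSubgroup_closure] at hfull
    have h1 : ∀ z ∈ AddSubgroup.closure ((Set.univ : Set A) * ({e} : Set A) * (Set.univ : Set A)), f * z * f = 0 := by
      intro z hz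
      induction hz using AddSubgroup.closure_induction with
      | mem z hz =>
        obtain ⟨a, ⟨x, _, e', he', rfl⟩, y, _, rfl⟩ := hz
        rw [Set.mem_singleton_iff] at he'
        rw [he']
        exact hcon x y
      | zero => rw [mul_zero, zero_mul]
      | add a b _ _ ha hb => rw [mul_add, add_mul, ha, hb, add_zero]
      | neg a _ ha => rw [mul_neg, neg_mul, ha, neg_zero]
    have h2 := h1 1 hfull
    rw [mul_one, hff] at h2
    exact hf0 h2
  have hb : f * (f * (x * e * y) * f) * f = f * (x * e * y) * f := by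
    rw [← mul_assoc, ← mul_assoc, hff, mul_assoc, hff]
  obtain ⟨b', hb', hbb⟩ := hdiv _ hb hxy
  have hfb' : f * b' = b' := by rw [← hb', ← mul_assoc, ← mul_assoc, hff]
  have hbf' : b' * f = b' := by rw [← hb', mul_assoc, hff]
  refine ⟨f * x * e, e * y * b', ?_, ?_, ?_⟩
  · rw [← mul_assoc, ← mul_assoc, hff, mul_assoc, hee]
  · rw [← mul_assoc, ← mul_assoc, hee, mul_assoc, hbf']
  · calc f * x * e * (e * y * b') = f * x * (e * e) * y * b' := by simp only [mul_assoc]
      _ = f * (x * e * y) * f * b' := by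
        rw [hee, mul_assoc (f * (x * e * y)), hfb']
        simp only [mul_assoc]
      _ = f := hbb

theorem red_corner [IsSemisimpleRing A] {e : A} (hee : e * e = e)
    (hfull : (1 : A) ∈ TwoSidedIdeal.span {e}) (h : A) (hh : h * h = h) (heh : e * h = 0)
    (hhe : h * e = 0) (c : A) (hcu : IsUnit c) (hc : Cor (e + h) c) : Red e c := by
  induction hI : Ideal.span {h} using WellFoundedLT.induction generalizing h c with
  | _ I ih =>
    by_cases h0 : h = 0
    · rw [h0, add_zero] at hc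
      exact ⟨[], c, by simp, hcu, hc, by simp⟩
    · obtain ⟨f, h', hff, hhh, hfh, hhf, hsum, hf0, hlt, hdiv⟩ := exists_prim hh h0
      obtain ⟨u, v, hu, hv, huv⟩ := exists_uv hee hff hf0 hfull hdiv
      have hfh2 : f * h = f := by rw [← hsum, mul_add, hff, hfh, add_zero]
      have hhf2 : h * f = f := by rw [← hsum, add_mul, hff, hhf, add_zero]
      have hh'h : h' * h = h' := by rw [← hsum, mul_add, hhf, hhh, zero_add]
      have hhh' : h * h' = h' := by rw [← hsum, add_mul, hfh, hhh, zero_add]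
      have hef : e * f = 0 := by rw [← hhf2, ← mul_assoc, heh, zero_mul]
      have hfe : f * e = 0 := by rw [← hfh2, mul_assoc, hhe, mul_zero]
      have heh' : e * h' = 0 := by rw [← hhh', ← mul_assoc, heh, zero_mul]
      have hh'e : h' * e = 0 := by rw [← hh'h, mul_assoc, hhe, mul_zero]
      have hEE : (e + h') * (e + h') = e + h' := by
        rw [add_mul, mul_add, mul_add, hee, heh', hh'e, hhh, add_zero, zero_add]
      have hEf : (e + h') * f = 0 := by rw [add_mul, hef, hhf, add_zero]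
      have hfE : f * (e + h') = 0 := by rw [mul_add, hfe, hfh, add_zero]
      have hue : u * e = u := by rw [← hu, mul_assoc, hee]
      have hev : e * v = v := by rw [← hv, ← mul_assoc, ← mul_assoc, hee]
      have hfu : f * u = u := by rw [← hu, ← mul_assoc, ← mul_assoc, hff]
      have hvf : v * f = v := by rw [← hv, mul_assoc, hff]
      have hu' : f * u * (e + h') = u := by
        rw [hfu, mul_add, hue, ← hue, mul_assoc, heh', mul_zero, add_zero]
      have hv' : (e + h') * v * f = v := by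
        rw [mul_assoc, hvf, add_mul, hev, ← hev, ← mul_assoc, hh'e, zero_mul, add_zero]
      have hcE : Cor (e + h' + f) c := by
        rw [add_assoc, add_comm h' f, hsum]
        exact hc
      refine red_trans (red_core hEE hff hEf hfE hu' hv' huv hdiv hcu hcE) ?_
      intro c' hcu' hc'
      exact ih (Ideal.span {h'}) (hI ▸ hlt) h' hhh heh' hh'e c' hcu' hc' rfl

/-- **Lemma 2.** In a semisimple ring `A` with an idempotent `e` generating `A` as an ideal, every
unit is a product of elements `1 + a`, `a * a = 0`, and of a unit of the form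
`(1 - e) + e * c * e`. -/
theorem lemma2 [IsSemisimpleRing A] (e : A) (he : e * e = e)
    (hfull : (1 : A) ∈ TwoSidedIdeal.span {e}) (g : Aˣ) :
    ∃ (l : List A) (c : Aˣ), (∀ a ∈ l, a * a = 0) ∧ (c : A) = (1 - e) + e * c * e ∧
      (g : A) = (l.map (fun a => 1 + a)).prod * c := by
  have h1 : (1 - e) * (1 - e) = 1 - e := by
    rw [sub_mul, one_mul, mul_sub, mul_one, he, sub_self, sub_zero]
  have h2 : e * (1 - e) = 0 := by rw [mul_sub, mul_one, he, sub_self]
  have h3 : (1 - e) * e = 0 := by rw [sub_mul, one_mul, he, sub_self]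
  obtain ⟨l, c, hl, ⟨c, rfl⟩, hc, hg⟩ := red_corner he hfull (1 - e) h1 h2 h3 g g.isUnit (by
    have h4 : 1 - (e + (1 - e)) = 0 := by abel
    rw [Cor, h4, zero_mul, mul_zero]
    exact ⟨rfl, rfl⟩)
  refine ⟨l, c, hl, ?_, hg⟩
  have h5 : e * (c : A) * (1 - e) = 0 := by rw [mul_assoc, hc.2, h2]
  calc (c : A) = (1 - e) * c + e * c := by rw [sub_mul, one_mul, sub_add_cancel]
    _ = (1 - e) + (e * c * (1 - e) + e * c * e) := by
      rw [hc.1, ← mul_add, sub_add_cancel, mul_one]
    _ = (1 - e) + e * c * e := by rw [h5, zero_add]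

end Pool.Agent.Bov
end

section

set_option autoImplicit false

/-! # Lemma 2 in the form `UD` for semisimple rings -/

namespace Pool.Agent.Bovdi

open Finset

theorem ud_semisimple (R : Type) [Ring R] [IsSemisimpleRing R] : UD R := by
  intro e he hfull h
  have h1 : (1 : R) ∈ TwoSidedIdeal.span {e} :=
    hfull _ (TwoSidedIdeal.subset_span (Set.mem_singleton e))
  obtain ⟨l, c, hl, hc, hg⟩ := Pool.Agent.Bov.lemma2 e he h1 h
  exact ⟨l, c, hl, hg, hc⟩

theorem ud_groupAlgebra (G : Type) [Group G] [Finite G] : UD (MonoidAlgebra ℚ G) := by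
  haveI : NeZero (Nat.card G : ℚ) := ⟨by exact_mod_cast Nat.card_pos.ne'⟩
  exact ud_semisimple _

end Pool.Agent.Bovdi
end

section

set_option autoImplicit false

/-! # Task Mat1a: the polynomials of section 3

Write `y = 1 - X²`. -/

namespace Pool.Agent.Bovdi

open Polynomial

/-- coefficients of the polynomial `q` with `Q = q(y)` -/
private noncomputable def mat1a_q : ℤ[X] :=
  ∑ k ∈ Finset.range 253, C ((-1 : ℤ) ^ (k + 3) * (Nat.choose 256 (k + 4) : ℤ)) * X ^ k

private theorem mat1a_q_coeff (m : ℕ) :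
    mat1a_q.coeff m = if m < 253 then (-1 : ℤ) ^ (m + 3) * (Nat.choose 256 (m + 4) : ℤ) else 0 := by
  unfold mat1a_q
  rw [finsetSum_coeff]
  simp only [coeff_C_mul, coeff_X_pow]
  by_cases hm : m < 253
  · rw [if_pos hm, Finset.sum_eq_single m]
    · rw [if_pos rfl, mul_one]
    · intro b _ hb
      rw [if_neg (Ne.symm hb), mul_zero]
    · intro h
      exact absurd (Finset.mem_range.2 hm) h
  · rw [if_neg hm]
    apply Finset.sum_eq_zero
    intro b hb
    have : m ≠ b := by
      have := Finset.mem_range.1 hb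
      omega
    rw [if_neg this, mul_zero]

private theorem mat1a_q_natDegree : mat1a_q.natDegree = 252 := by
  apply le_antisymm
  · rw [natDegree_le_iff_coeff_eq_zero]
    intro N hN
    rw [mat1a_q_coeff, if_neg (by omega)]
  · apply le_natDegree_of_ne_zero
    rw [mat1a_q_coeff, if_pos (by norm_num)]
    norm_num

private theorem mat1a_q_leadingCoeff : mat1a_q.leadingCoeff = -1 := by
  rw [leadingCoeff, mat1a_q_natDegree, mat1a_q_coeff, if_pos (by norm_num)]
  norm_num

private theorem mat1a_y_natDegree : (1 - X ^ 2 : ℤ[X]).natDegree = 2 := by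
  have h : (1 - X ^ 2 : ℤ[X]) = -(X ^ 2 - C 1) := by
    rw [C_1]; ring
  rw [h, natDegree_neg, natDegree_X_pow_sub_C]

private theorem mat1a_y_leadingCoeff : (1 - X ^ 2 : ℤ[X]).leadingCoeff = -1 := by
  have h : (1 - X ^ 2 : ℤ[X]) = -(X ^ 2 - C 1) := by
    rw [C_1]; ring
  rw [h, leadingCoeff_neg, leadingCoeff_X_pow_sub_C (by norm_num)]

private theorem mat1a_key : (X : ℤ[X]) * (256 - 32640 * X + 2763520 * X ^ 2 + X ^ 3 * mat1a_q) =
    1 - (1 - X) ^ 256 := by
  have h1 : (1 - X : ℤ[X]) ^ 256 = ∑ m ∈ Finset.range 257, C ((-1 : ℤ) ^ m * (Nat.choose 256 m : ℤ)) * X ^ m := by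
    have e : (1 - X : ℤ[X]) = -X + 1 := by ring
    rw [e, add_pow]
    apply Finset.sum_congr rfl
    intro m _
    rw [one_pow, mul_one, neg_pow (X : ℤ[X]) m]
    simp only [C_mul, C_pow, C_neg, C_1, map_natCast]
    ring
  rw [h1]
  have h2 : (257 : ℕ) = 253 + 1 + 1 + 1 + 1 := rfl
  rw [h2, Finset.sum_range_succ', Finset.sum_range_succ', Finset.sum_range_succ',
    Finset.sum_range_succ']
  have h3 : (X : ℤ[X]) ^ 4 * mat1a_q = -∑ k ∈ Finset.range 253,
      C ((-1 : ℤ) ^ (k + 1 + 1 + 1 + 1) * (Nat.choose 256 (k + 1 + 1 + 1 + 1) : ℤ)) *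
        X ^ (k + 1 + 1 + 1 + 1) := by
    unfold mat1a_q
    rw [Finset.mul_sum, ← Finset.sum_neg_distrib]
    apply Finset.sum_congr rfl
    intro k _
    have e1 : k + 1 + 1 + 1 + 1 = k + 4 := rfl
    rw [e1]
    have e2 : ((-1 : ℤ) ^ (k + 4) * (Nat.choose 256 (k + 4) : ℤ)) =
      -((-1 : ℤ) ^ (k + 3) * (Nat.choose 256 (k + 4) : ℤ)) := by
      rw [pow_succ]; ring
    rw [e2, C_neg]
    ring
  have c1 : Nat.choose 256 (0 + 1) = 256 := by rw [Nat.zero_add, Nat.choose_one_right]
  have c2 : Nat.choose 256 (0 + 1 + 1) = 32640 := by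
    change Nat.choose 256 2 = 32640
    rw [Nat.choose_two_right]
  have c3 : Nat.choose 256 (0 + 1 + 1 + 1) = 2763520 := by
    change Nat.choose 256 3 = 2763520
    rw [Nat.choose_eq_descFactorial_div_factorial]
    rfl
  rw [c1, c2, c3, Nat.choose_zero_right]
  have e : (X : ℤ[X]) * (256 - 32640 * X + 2763520 * X ^ 2 + X ^ 3 * mat1a_q) =
    256 * X - 32640 * X ^ 2 + 2763520 * X ^ 3 + X ^ 4 * mat1a_q := by ring
  rw [e, h3]
  simp only [C_mul, C_pow, C_neg, C_1, map_natCast]
  push_cast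
  ring

/-- `y P = 1 - (1 - y) ^ 256 = 1 - X ^ 512` with `P = 256 - C(256,2) y + C(256,3) y² + y³ Q`, `Q = ∑_{k=4}^{256} (-1)^(k-1) C(256,k) y^(k-4)`
(`C(256,2) = 32640`, `C(256,3) = 2763520`).  `Q` has degree `2 · 252 = 504` and leading coefficient
`(-1)^255 · (-1)^252 = -1`. -/
theorem exists_Q : ∃ Q : ℤ[X], Q.natDegree = 504 ∧ Q.leadingCoeff = -1 ∧
    (1 - X ^ 2) * (256 - 32640 * (1 - X ^ 2) + 2763520 * (1 - X ^ 2) ^ 2 + (1 - X ^ 2) ^ 3 * Q) =
      1 - X ^ 512 := by
  refine ⟨mat1a_q.comp (1 - X ^ 2), ?_, ?_, ?_⟩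
  · rw [natDegree_comp, mat1a_q_natDegree, mat1a_y_natDegree]
  · rw [leadingCoeff_comp (by rw [mat1a_y_natDegree]; norm_num), mat1a_q_natDegree,
      mat1a_q_leadingCoeff, mat1a_y_leadingCoeff]
    norm_num
  · have h := congrArg (fun p : ℤ[X] => p.comp (1 - X ^ 2)) mat1a_key
    simp only [mul_comp, add_comp, sub_comp, pow_comp, X_comp, one_comp] at h
    have h256 : (256 : ℤ[X]).comp (1 - X ^ 2) = 256 := by
      exact mod_cast natCast_comp (R := ℤ) (p := 1 - X ^ 2) (n := 256)
    have h32640 : (32640 : ℤ[X]).comp (1 - X ^ 2) = 32640 := by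
      exact mod_cast natCast_comp (R := ℤ) (p := 1 - X ^ 2) (n := 32640)
    have h2763520 : (2763520 : ℤ[X]).comp (1 - X ^ 2) = 2763520 := by
      exact mod_cast natCast_comp (R := ℤ) (p := 1 - X ^ 2) (n := 2763520)
    rw [h256, h32640, h2763520] at h
    rw [h]
    have e : (1 : ℤ[X]) - (1 - X ^ 2) = X ^ 2 := by ring
    rw [e, ← pow_mul]

/-- the polynomial `P = 1 + X² + ... + X^510 = (X^512 - 1)/(X² - 1)` -/
noncomputable def PP : ℤ[X] := ∑ i ∈ Finset.range 256, X ^ (2 * i)

private theorem mat1a_mon (n : ℕ) (hn : n ≠ 0) : (X ^ n - 1 : ℤ[X]).Monic := by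
  have h := monic_X_pow_sub_C (1 : ℤ) hn
  rwa [C_1] at h

private theorem mat1a_deg (n : ℕ) : (X ^ n - 1 : ℤ[X]).natDegree = n := by
  have h := natDegree_X_pow_sub_C (R := ℤ) (n := n) (r := 1)
  rwa [C_1] at h

theorem PP_mul : (X ^ 2 - 1) * PP = X ^ 512 - 1 := by
  unfold PP
  have h : ∀ i ∈ Finset.range 256, (X : ℤ[X]) ^ (2 * i) = (X ^ 2) ^ i := fun i _ => pow_mul X 2 i
  rw [Finset.sum_congr rfl h, mul_comm, geom_sum_mul, ← pow_mul]

theorem PP_monic : PP.Monic := by
  have h1 : (X ^ 2 - 1 : ℤ[X]).Monic := by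
    have := monic_X_pow_sub_C (1 : ℤ) (n := 2) (by norm_num)
    rwa [C_1] at this
  have h2 : ((X ^ 2 - 1) * PP : ℤ[X]).Monic := by
    rw [PP_mul]
    exact mat1a_mon 512 (by norm_num)
  exact h1.of_mul_monic_left h2

theorem PP_natDegree : PP.natDegree = 510 := by
  have h1 : (X ^ 2 - 1 : ℤ[X]).Monic := by
    have := monic_X_pow_sub_C (1 : ℤ) (n := 2) (by norm_num)
    rwa [C_1] at this
  have h2 := h1.natDegree_mul PP_monic
  rw [PP_mul] at h2
  have h3 : (X ^ 512 - 1 : ℤ[X]).natDegree = 512 := by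
    exact mat1a_deg 512
  have h4 : (X ^ 2 - 1 : ℤ[X]).natDegree = 2 := by
    have := natDegree_X_pow_sub_C (R := ℤ) (n := 2) (r := 1)
    rwa [C_1] at this
  omega

/-- the polynomials `p₃ = X (-2763520 + (X²+1) Q)`, `p₄ = -8290560 + (3X²+1) Q`; `p₁ = -1020 X`, `p₂ = 688840`.
Identity (I) for `c = ± 1`: `256 - 64(X+c)p₁ + 16(X+c)²p₂ - 4(X+c)³p₃ + (X+c)⁴p₄ = P`.
The coefficient of `Q` is `(X+c)³((X+c)(3X²+1) - 4X(X²+1)) = (X+c)³(c-X)³ = (1-X²)³` since `c² = 1`. -/
theorem identity_I (Q : ℤ[X])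
    (hQ : (1 - X ^ 2) * (256 - 32640 * (1 - X ^ 2) + 2763520 * (1 - X ^ 2) ^ 2 + (1 - X ^ 2) ^ 3 * Q) =
      1 - X ^ 512) (c : ℤ) (hc : c = 1 ∨ c = -1) :
    256 - 64 * (X + C c) * (-1020 * X) + 16 * (X + C c) ^ 2 * 688840
      - 4 * (X + C c) ^ 3 * (X * (-2763520 + (X ^ 2 + 1) * Q))
      + (X + C c) ^ 4 * (-8290560 + (3 * X ^ 2 + 1) * Q) = PP := by
  have hne : (X ^ 2 - 1 : ℤ[X]) ≠ 0 := by
    have := monic_X_pow_sub_C (1 : ℤ) (n := 2) (by norm_num)
    rw [C_1] at this
    exact this.ne_zero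
  apply mul_left_cancel₀ hne
  rw [PP_mul]
  have e : (X : ℤ[X]) ^ 512 - 1 = -(1 - X ^ 512) := by ring
  rw [e, ← hQ]
  rcases hc with rfl | rfl
  · rw [C_1]; ring
  · rw [C_neg, C_1]; ring

/-- `Q_c = (X²-1)p₄ - 4(X-c)p₃ = -(X-c)⁴ Q + 2763520 (X-c)(X-3c)`: monic of degree 508 -/
theorem Qc_eq (Q : ℤ[X]) (c : ℤ) (hc : c = 1 ∨ c = -1) :
    (X ^ 2 - 1) * (-8290560 + (3 * X ^ 2 + 1) * Q) - 4 * (X - C c) * (X * (-2763520 + (X ^ 2 + 1) * Q)) =
      -(X - C c) ^ 4 * Q + 2763520 * (X - C c) * (X - 3 * C c) := by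
  rcases hc with rfl | rfl
  · rw [C_1]; ring
  · rw [C_neg, C_1]; ring

theorem Qc_monic (Q : ℤ[X]) (h1 : Q.natDegree = 504) (h2 : Q.leadingCoeff = -1) (c : ℤ) (hc : c = 1 ∨ c = -1) :
    (-(X - C c) ^ 4 * Q + 2763520 * (X - C c) * (X - 3 * C c)).Monic ∧
    (-(X - C c) ^ 4 * Q + 2763520 * (X - C c) * (X - 3 * C c)).natDegree = 508 := by
  have hm4 : ((X - C c) ^ 4 : ℤ[X]).Monic := (monic_X_sub_C c).pow 4
  have hQm : (-Q).Monic := by
    rw [Monic, leadingCoeff_neg, h2]; norm_num
  have hA : ((X - C c) ^ 4 * (-Q) : ℤ[X]).Monic := hm4.mul hQm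
  have hAd : ((X - C c) ^ 4 * (-Q) : ℤ[X]).natDegree = 508 := by
    rw [hm4.natDegree_mul hQm, natDegree_neg, h1, (monic_X_sub_C c).natDegree_pow, natDegree_X_sub_C]
  have hB : (2763520 * (X - C c) * (X - 3 * C c) : ℤ[X]).natDegree ≤ 2 := by
    have e : (2763520 * (X - C c) * (X - 3 * C c) : ℤ[X]) =
        C 2763520 * ((X - C c) * (X - C (3 * c))) := by
      rw [C_mul]
      have e1 : (C 2763520 : ℤ[X]) = 2763520 := rfl
      have e2 : (C 3 : ℤ[X]) = 3 := rfl
      rw [e1, e2]; ring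
    rw [e]
    refine (natDegree_C_mul_le _ _).trans (natDegree_mul_le.trans ?_)
    rw [natDegree_X_sub_C, natDegree_X_sub_C]
  have hlt : (2763520 * (X - C c) * (X - 3 * C c) : ℤ[X]).degree <
      ((X - C c) ^ 4 * (-Q) : ℤ[X]).degree := by
    apply degree_lt_degree
    rw [hAd]
    omega
  have e : -(X - C c) ^ 4 * Q = (X - C c) ^ 4 * (-Q) := by ring
  rw [e]
  refine ⟨hA.add_of_left hlt, ?_⟩
  rw [natDegree_add_eq_left_of_degree_lt hlt, hAd]

end Pool.Agent.Bovdi
end
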