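import Pool.Agent.Lib.MP_0d8f30_al.Mg.G004
import Pool.Agent.Lib.MP_0d8f30_al.Mg.G001
import Pool.Agent.Lib.MP_0d8f30_al.Mg.G006

section

set_option autoImplicit false

/-! # Task L1b: conjugacy in ℚG from equal traces -/

namespace Pool.Agent.Bovdi

open Finset

variable {G : Type} [Group G] [Fintype G]

/-- The linear form `a ↦ tr (y ↦ g y a)` kills commutators. -/
theorem trace_mul_comm_right (g : G) (a b : MonoidAlgebra ℚ G) :
    LinearMap.trace ℚ (MonoidAlgebra ℚ G)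
        (LinearMap.mulLeft ℚ (el g) ∘ₗ LinearMap.mulRight ℚ (a * b)) =
      LinearMap.trace ℚ (MonoidAlgebra ℚ G)
        (LinearMap.mulLeft ℚ (el g) ∘ₗ LinearMap.mulRight ℚ (b * a)) := by
  have h1 : LinearMap.mulLeft ℚ (el g) ∘ₗ LinearMap.mulRight ℚ (a * b) =
      (LinearMap.mulLeft ℚ (el g) * LinearMap.mulRight ℚ b) * LinearMap.mulRight ℚ a := by
    apply LinearMap.ext; intro y
    simp [mul_assoc]
  have h2 : LinearMap.mulLeft ℚ (el g) ∘ₗ LinearMap.mulRight ℚ (b * a) =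
      LinearMap.mulRight ℚ a * (LinearMap.mulLeft ℚ (el g) * LinearMap.mulRight ℚ b) := by
    apply LinearMap.ext; intro y
    simp [mul_assoc]
  rw [h1, h2, LinearMap.trace_mul_comm]

theorem trace_eq_of_eqv (g : G) {a b : MonoidAlgebra ℚ G} (h : Eqv a b) :
    LinearMap.trace ℚ (MonoidAlgebra ℚ G)
        (LinearMap.mulLeft ℚ (el g) ∘ₗ LinearMap.mulRight ℚ a) =
      LinearMap.trace ℚ (MonoidAlgebra ℚ G)
        (LinearMap.mulLeft ℚ (el g) ∘ₗ LinearMap.mulRight ℚ b) := by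
  let φ : MonoidAlgebra ℚ G →ₗ[ℚ] ℚ :=
    { toFun := fun a => LinearMap.trace ℚ (MonoidAlgebra ℚ G)
        (LinearMap.mulLeft ℚ (el g) ∘ₗ LinearMap.mulRight ℚ a)
      map_add' := fun x y => by
        rw [← map_add]; congr 1
        apply LinearMap.ext; intro z
        simp [mul_add]
      map_smul' := fun q x => by
        rw [RingHom.id_apply, ← map_smul]; congr 1
        apply LinearMap.ext; intro z
        simp }
  exact Eqv.apply φ (fun a b => trace_mul_comm_right g a b) h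

/-- for `u ^ o = 1` the representation `(g, c) y = g y u^{c}` of `G × ℤ/o` on `ℚG`; here the second factor is
commutative, so right multiplication by powers of `u` is a representation. -/
noncomputable def rep (o : ℕ) (u : MonoidAlgebra ℚ G) (hu : u ^ o = 1) :
    Representation ℚ (G × Multiplicative (ZMod o)) (MonoidAlgebra ℚ G) :=
  if h : o = 0 then 1 else
  haveI : NeZero o := ⟨h⟩
  { toFun := fun c => LinearMap.mulLeft ℚ (el c.1) ∘ₗ
      LinearMap.mulRight ℚ (u ^ (ZMod.val (Multiplicative.toAdd c.2)))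
    map_one' := by
      apply LinearMap.ext; intro y
      simp only [LinearMap.comp_apply, LinearMap.mulLeft_apply, LinearMap.mulRight_apply,
        Prod.fst_one, Prod.snd_one, toAdd_one, map_one, ZMod.val_zero, pow_zero, mul_one, one_mul,
        Module.End.one_apply]
    map_mul' := fun c d => by
      apply LinearMap.ext; intro y
      simp only [LinearMap.comp_apply, LinearMap.mulLeft_apply, LinearMap.mulRight_apply,
        Module.End.mul_apply, Prod.fst_mul, Prod.snd_mul, toAdd_mul, map_mul, ZMod.val_add]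
      rw [← pow_eq_pow_mod _ hu, add_comm, pow_add]
      simp only [mul_assoc] }

theorem rep_apply (o : ℕ) [NeZero o] (u : MonoidAlgebra ℚ G) (hu : u ^ o = 1) (g : G) (k : ℕ) (y : MonoidAlgebra ℚ G) :
    rep o u hu (g, Multiplicative.ofAdd (k : ZMod o)) y = el g * y * u ^ k := by
  rw [rep, dif_neg (NeZero.ne o)]
  simp only [MonoidHom.coe_mk, OneHom.coe_mk, LinearMap.comp_apply, LinearMap.mulLeft_apply,
    LinearMap.mulRight_apply, toAdd_ofAdd, ZMod.val_natCast]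
  rw [← pow_eq_pow_mod _ hu, mul_assoc]

/-- Lemma 1 of the paper.  Apply `exists_equiv_of_char` to `rep o u` and `rep o u'` (equal traces by `trace_eq_of_eqv`):
a linear isomorphism `ψ` with `ψ(g y) = g ψ(y)`, `ψ(y u) = ψ(y) u'`.  By linearity `ψ(a y) = a ψ(y)`, so `ψ(y) = y c` with
`c = ψ 1`; `c` is a unit since `ψ` is bijective; `u c = ψ(u) = ψ(1 u) = c u'`. -/
theorem exists_conj (o : ℕ) (ho : 0 < o) (u u' : MonoidAlgebra ℚ G) (hu : u ^ o = 1) (hu' : u' ^ o = 1)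
    (h : ∀ k : ℕ, Eqv (u ^ k) (u' ^ k)) : ∃ c : (MonoidAlgebra ℚ G)ˣ, u * c = c * u' := by
  have : NeZero o := ⟨ho.ne'⟩
  have hkey : ∀ c : G × Multiplicative (ZMod o),
      LinearMap.trace ℚ _ (rep o u hu c) = LinearMap.trace ℚ _ (rep o u' hu' c) := by
    rintro ⟨g, c⟩
    have hc : c = Multiplicative.ofAdd (((ZMod.val (Multiplicative.toAdd c) : ℕ)) : ZMod o) := by
      simp
    have e : ∀ (w : MonoidAlgebra ℚ G) (hw : w ^ o = 1), rep o w hw (g, c) =
        LinearMap.mulLeft ℚ (el g) ∘ₗ LinearMap.mulRight ℚ (w ^ ZMod.val (Multiplicative.toAdd c)) := by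
      intro w hw
      apply LinearMap.ext; intro y
      conv_lhs => rw [hc, rep_apply]
      simp [mul_assoc]
    rw [e, e]
    exact trace_eq_of_eqv g (h _)
  obtain ⟨ψ, hψ⟩ := exists_equiv_of_char (rep o u hu) (rep o u' hu') hkey
  have h1 : ∀ (g : G) (y : MonoidAlgebra ℚ G), ψ (el g * y) = el g * ψ y := by
    intro g y
    have := hψ (g, Multiplicative.ofAdd ((0 : ℕ) : ZMod o)) y
    rw [rep_apply, rep_apply] at this
    simpa only [pow_zero, mul_one] using this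
  have h2 : ∀ y : MonoidAlgebra ℚ G, ψ (y * u) = ψ y * u' := by
    intro y
    have := hψ (1, Multiplicative.ofAdd ((1 : ℕ) : ZMod o)) y
    rw [rep_apply, rep_apply] at this
    simpa only [map_one, one_mul, pow_one] using this
  have h3 : ∀ a y : MonoidAlgebra ℚ G, ψ (a * y) = a * ψ y := by
    intro a y
    induction a using MonoidAlgebra.induction_on with
    | of g => exact h1 g y
    | add a b ha hb => rw [add_mul, map_add, ha, hb, add_mul]
    | smul r a ha => rw [smul_mul_assoc, map_smul, ha, smul_mul_assoc]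
  have h4 : ∀ y, ψ y = y * ψ 1 := by
    intro y
    have := h3 y 1
    rwa [mul_one] at this
  have e1 : ψ.symm 1 * ψ 1 = 1 := by
    rw [← h4, LinearEquiv.apply_symm_apply]
  have e2 : ψ 1 * ψ.symm 1 = 1 := by
    apply ψ.injective
    rw [h3, LinearEquiv.apply_symm_apply, mul_one]
  refine ⟨⟨ψ 1, ψ.symm 1, e2, e1⟩, ?_⟩
  change u * ψ 1 = ψ 1 * u'
  rw [← h4, ← h2, one_mul]

end Pool.Agent.Bovdi
end

section

set_option autoImplicit false

/-! # Task M1: the general gluing theorem -/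

namespace Pool.Agent.Bovdi

open Finset

variable {G : Type} [Group G] [Fintype G]

/-- Sections 4 and 5.  `exists_conj`: `u₂ h = h u₃`.  `ud_groupAlgebra`: `h = ∏(1 + aᵢ) c` with `c = (1 - e) + e c e`, so `c`
commutes with `u₃`; hence `u₂ b = b u₃`, `b = ∏(1 + aᵢ)`, i.e. `u₂ = path l u₃ 1` (`path_one`), `u₃ = path l u₃ 0`.  `exists_int_of_polyPath` and
`path_conj`. -/
theorem exists_integral (o : ℕ) (ho : 0 < o) (u2 u3 : MonoidAlgebra ℚ G) (h2 : u2 ^ o = 1) (h3 : u3 ^ o = 1)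
    (htr : ∀ k : ℕ, Eqv (u2 ^ k) (u3 ^ k)) (hi2 : Int2 u2) (hi3 : Int3 u3)
    (e : MonoidAlgebra ℚ G) (he : e * e = e)
    (hfull : ∀ I : TwoSidedIdeal (MonoidAlgebra ℚ G), e ∈ I → (1 : MonoidAlgebra ℚ G) ∈ I)
    (heu : e * u3 = u3 * e) (hcomm : ∀ y : MonoidAlgebra ℚ G, (e * y * e) * u3 = u3 * (e * y * e)) :
    ∃ (b : MonoidAlgebra ℤ G) (c : (MonoidAlgebra ℚ G)ˣ), toQ G b = c * u3 * (c⁻¹ : (MonoidAlgebra ℚ G)ˣ) := by
  obtain ⟨h, hh⟩ := exists_conj o ho u2 u3 h2 h3 htr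
  obtain ⟨l, c, hl, hlc, hc⟩ := ud_groupAlgebra G e he hfull h
  have hcu : (c : MonoidAlgebra ℚ G) * u3 = u3 * c := by
    rw [hc, add_mul, mul_add, hcomm, sub_mul, mul_sub, one_mul, mul_one, heu]
  obtain ⟨d, hd, hd1⟩ := path_conj l hl u3 1
  have hd' : (d : MonoidAlgebra ℚ G) = (l.map (fun a => 1 + a)).prod := by
    rw [hd]
    simp only [one_smul]
  have h5 : u2 * d * (c : MonoidAlgebra ℚ G) = d * u3 * (c : MonoidAlgebra ℚ G) := by
    rw [mul_assoc, hd', ← hlc, hh, hlc, mul_assoc, hcu, mul_assoc]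
  have h6 : u2 * d = d * u3 := (Units.mul_left_inj c).1 h5
  have h7 : path l u3 1 = u2 := by
    rw [hd1, ← h6, mul_assoc, Units.mul_inv, mul_one]
  obtain ⟨t, b, hb⟩ := exists_int_of_polyPath (path l u3) (polyPath_path l u3)
    (by rw [path_zero]; exact hi3) (by rw [h7]; exact hi2)
  obtain ⟨c', _, hc'⟩ := path_conj l hl u3 (t : ℚ)
  exact ⟨b, c', by rw [hb, hc']⟩

/-- The final form: a unit `u` of `ℤG` of order `o = 2 ^ (m + 1)`, with prescribed sums of coefficients.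
`b ^ o = 1` by injectivity of `toQ`; `b ^ (o/2) ≠ 1` since `u3 ^ (o/2) ≠ 1`; so `orderOf = o` (prime power). -/
theorem exists_unit (m : ℕ) (u2 u3 : MonoidAlgebra ℚ G) (h2 : u2 ^ (2 ^ (m + 1)) = 1) (h3 : u3 ^ (2 ^ (m + 1)) = 1)
    (h3' : u3 ^ (2 ^ m) ≠ 1)
    (htr : ∀ k : ℕ, Eqv (u2 ^ k) (u3 ^ k)) (hi2 : Int2 u2) (hi3 : Int3 u3)
    (e : MonoidAlgebra ℚ G) (he : e * e = e)
    (hfull : ∀ I : TwoSidedIdeal (MonoidAlgebra ℚ G), e ∈ I → (1 : MonoidAlgebra ℚ G) ∈ I)
    (heu : e * u3 = u3 * e) (hcomm : ∀ y : MonoidAlgebra ℚ G, (e * y * e) * u3 = u3 * (e * y * e)) :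
    ∃ u : (MonoidAlgebra ℤ G)ˣ, orderOf u = 2 ^ (m + 1) ∧ Eqv (toQ G (u : MonoidAlgebra ℤ G)) u3 := by
  obtain ⟨b, c, hb⟩ := exists_integral (2 ^ (m + 1)) (by positivity) u2 u3 h2 h3 htr hi2 hi3 e he
    hfull heu hcomm
  have hpow : ∀ k : ℕ, toQ G (b ^ k) = c * u3 ^ k * (c⁻¹ : (MonoidAlgebra ℚ G)ˣ) := by
    intro k
    rw [map_pow, hb]
    induction k with
    | zero => rw [pow_zero, pow_zero, mul_one, Units.mul_inv]
    | succ k ih =>
      rw [pow_succ, ih, pow_succ]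
      calc (c : MonoidAlgebra ℚ G) * u3 ^ k * (c⁻¹ : (MonoidAlgebra ℚ G)ˣ) *
            (c * u3 * (c⁻¹ : (MonoidAlgebra ℚ G)ˣ))
          = c * u3 ^ k * ((c⁻¹ : (MonoidAlgebra ℚ G)ˣ) * c) * u3 *
            (c⁻¹ : (MonoidAlgebra ℚ G)ˣ) := by simp only [mul_assoc]
        _ = c * (u3 ^ k * u3) * (c⁻¹ : (MonoidAlgebra ℚ G)ˣ) := by
          rw [Units.inv_mul, mul_one]
          simp only [mul_assoc]
  have hb1 : b ^ (2 ^ (m + 1)) = 1 := by
    apply toQ_injective
    rw [hpow, h3, mul_one, Units.mul_inv, map_one]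
  have hb2 : b ^ (2 ^ m) ≠ 1 := by
    intro hcon
    apply h3'
    have h4 := hpow (2 ^ m)
    rw [hcon, map_one] at h4
    have h5 : (c : MonoidAlgebra ℚ G) * u3 ^ (2 ^ m) = c := by
      have h6 := congrArg (fun y => y * (c : MonoidAlgebra ℚ G)) h4
      simp only [one_mul] at h6
      rw [mul_assoc, Units.inv_mul, mul_one] at h6
      exact h6.symm
    exact (Units.mul_right_inj c).1 (by rw [h5, mul_one])
  have hpos : 2 ^ (m + 1) - 1 + 1 = 2 ^ (m + 1) := Nat.sub_add_cancel Nat.one_le_two_pow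
  let u : (MonoidAlgebra ℤ G)ˣ :=
    { val := b
      inv := b ^ (2 ^ (m + 1) - 1)
      val_inv := by rw [← pow_succ', hpos, hb1]
      inv_val := by rw [← pow_succ, hpos, hb1] }
  have hu : (u : MonoidAlgebra ℤ G) = b := rfl
  refine ⟨u, ?_, ?_⟩
  · have : Fact (Nat.Prime 2) := ⟨Nat.prime_two⟩
    apply orderOf_eq_prime_pow
    · intro hcon
      apply hb2
      have h4 := congrArg (fun y : (MonoidAlgebra ℤ G)ˣ => (y : MonoidAlgebra ℤ G)) hcon
      simpa [hu] using h4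
    · apply Units.ext
      rw [Units.val_pow_eq_pow_val, hu, hb1, Units.val_one]
  · rw [hu, hb]
    exact Eqv.conj (c : MonoidAlgebra ℚ G) _ u3 (Units.inv_mul c)

end Pool.Agent.Bovdi
end
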