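import Pool.Agent.Lib.MP_0d8f30_al.BV.P4
import Pool.Agent.Lib.MP_0d8f30_al.Mg.G007
import Pool.Agent.Lib.MP_0d8f30_al.BV.X2
import Pool.Agent.Lib.MP_0d8f30_al.Mg.G004
import Pool.Agent.Lib.MP_0d8f30_al.BV.A3
import Pool.Agent.Lib.MP_0d8f30_al.Mg.G005
import Pool.Agent.Lib.MP_0d8f30_al.BV.F3

section

set_option autoImplicit false

/-! # Task P6: the traces of the powers of the 2-adic form -/

namespace Pool.Agent.Bovdi

open Finset

variable {G : Type} [Group G] [Fintype G] {n : ℕ} (D : Dat G n)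

/-- `s^i e_Θ = ∑ s^i f_j ~ ∑ f_j s^i f_j = 0` -/
theorem Dat.eqv_s_eT (i : ℕ) (hi : ¬ n ∣ i) : Eqv (el (D.s ^ i) * D.eT) 0 := by
  have h0 : Eqv (el (D.s ^ i) * D.f) 0 := Eqv.idem_zero' D.f _ D.f_idem (D.f_s_f i hi)
  have e : el (D.s ^ i) * D.eT =
      ∑ j ∈ range n, el (D.s ^ j) * (el (D.s ^ i) * D.f) * el (D.s ^ j)⁻¹ := by
    unfold Dat.eT
    rw [Finset.mul_sum]
    refine Finset.sum_congr rfl fun j _ => ?_
    have hc : (el (D.s ^ i) : MonoidAlgebra ℚ G) * el (D.s ^ j) = el (D.s ^ j) * el (D.s ^ i) := by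
      rw [← map_mul, ← map_mul, ← pow_add, ← pow_add, add_comm]
    rw [mul_assoc (el (D.s ^ j)) D.f, ← mul_assoc (el (D.s ^ i)), hc]
    simp only [mul_assoc]
  rw [e]
  have h1 : Eqv (∑ j ∈ range n, el (D.s ^ j) * (el (D.s ^ i) * D.f) * el (D.s ^ j)⁻¹)
      (∑ j ∈ range n, (0 : MonoidAlgebra ℚ G)) :=
    Eqv.sum _ fun j _ => (Eqv.el_conj _ _).trans h0
  simpa using h1

/-- `z y ~ z` for `y ∈ N` (`exists_sqrt`), so `z avg H ~ z` for `H = N', N` -/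
theorem Dat.eqv_z_avg (H : Subgroup G) (hH : H ≤ D.N) : Eqv (D.z * avg H) D.z := by
  classical
  have h1 : ∀ y ∈ D.N, Eqv (D.z * el y) D.z := by
    intro y hy
    have e : (D.z * el y : MonoidAlgebra ℚ G) = el (D.s ^ n * y) := by
      unfold Dat.z; rw [← map_mul]
    rw [e]
    unfold Dat.z
    refine Eqv.el_of_conj (y ^ 2) ?_
    have h2 := D.exists_sqrt (y⁻¹) (D.N.inv_mem hy)
    have h3 := D.zN y hy
    rw [h3, h2]
    group
  have h2 := Eqv.smul ((Nat.card H : ℚ)⁻¹) (Eqv.sum_const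
    ((univ : Finset G).filter (fun g => g ∈ H)) (a := fun g => D.z * el g) (b := D.z)
    (fun g hg => h1 g (hH (Finset.mem_filter.mp hg).2)))
  have e1 : D.z * avg H = (Nat.card H : ℚ)⁻¹ •
      ∑ g ∈ (univ : Finset G).filter (fun g => g ∈ H), D.z * el g := by
    unfold avg
    rw [mul_smul_comm, Finset.mul_sum]
  have e2 : ((Nat.card H : ℚ)⁻¹ • ((((univ : Finset G).filter (fun g => g ∈ H)).card : ℚ) • D.z)) =
      D.z := by
    have hc : ((univ : Finset G).filter (fun g => g ∈ H)).card = Nat.card H := by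
      rw [Nat.card_eq_fintype_card, Fintype.card_subtype]
    have hpos : (Nat.card H : ℚ) ≠ 0 := Nat.cast_ne_zero.mpr (Nat.card_pos).ne'
    rw [hc, smul_smul, inv_mul_cancel₀ hpos, one_smul]
  rw [e1]
  rw [e2] at h2
  exact h2

theorem Dat.eqv_z_f : Eqv (D.z * D.f) 0 := by
  have h := Eqv.sub (D.eqv_z_avg D.N' D.N'N) (D.eqv_z_avg D.N le_rfl)
  rw [sub_self, ← mul_sub] at h
  exact h

theorem Dat.eqv_z_eT : Eqv (D.z * D.eT) 0 := by
  have e : D.z * D.eT = ∑ j ∈ range n, el (D.s ^ j) * (D.z * D.f) * el (D.s ^ j)⁻¹ := by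
    unfold Dat.eT
    rw [Finset.mul_sum]
    refine Finset.sum_congr rfl fun j _ => ?_
    have hc : D.z * el (D.s ^ j) = el (D.s ^ j) * D.z := by
      unfold Dat.z
      rw [← map_mul, ← map_mul, ← pow_add, ← pow_add, add_comm]
    rw [mul_assoc (el (D.s ^ j)) D.f, ← mul_assoc D.z, hc]
    simp only [mul_assoc]
  rw [e]
  have h1 : Eqv (∑ j ∈ range n, el (D.s ^ j) * (D.z * D.f) * el (D.s ^ j)⁻¹)
      (∑ j ∈ range n, (0 : MonoidAlgebra ℚ G)) :=
    Eqv.sum _ fun j _ => (Eqv.el_conj _ _).trans D.eqv_z_f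
  simpa using h1

theorem Dat.eqv_eT : Eqv D.eT ((n : ℚ) • D.f) := by
  have h := Eqv.sum_const (range n) (a := fun j => el (D.s ^ j) * D.f * el (D.s ^ j)⁻¹)
    (b := D.f) (fun j _ => Eqv.el_conj _ _)
  rw [Finset.card_range] at h
  exact h

/-- `n = h 2^m`, `o = 2^(m+1)`: `s^(hk) e_Θ ~ n f` if `o ∣ k` and `~ 0` otherwise (cases: `2^m ∤ k`; `2^m ∣ k`, `o ∤ k`: `s^(hk) = z`; `o ∣ k`) -/
theorem Dat.eqv_sk_eT (h m : ℕ) (hn : n = h * 2 ^ m) (k : ℕ) :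
    Eqv (el (D.s ^ (h * k)) * D.eT) (if 2 ^ (m + 1) ∣ k then (n : ℚ) • D.f else 0) := by
  have hs : D.s ^ (2 * n) = 1 := D.s_pow_two_n
  by_cases h1 : 2 ^ (m + 1) ∣ k
  · rw [if_pos h1]
    obtain ⟨q, hq⟩ := h1
    have e : D.s ^ (h * k) = 1 := by
      have : h * k = 2 * n * q := by rw [hq, hn]; ring
      rw [this, pow_mul, hs, one_pow]
    rw [e, map_one, one_mul]
    exact D.eqv_eT
  · rw [if_neg h1]
    by_cases h2 : 2 ^ m ∣ k
    · obtain ⟨q, hq⟩ := h2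
      have hodd : ¬ 2 ∣ q := by
        rintro ⟨t, ht⟩
        exact h1 ⟨t, by rw [hq, ht]; ring⟩
      have hodd' : q % 2 = 1 := by omega
      have e : D.s ^ (h * k) = D.s ^ n := by
        have : h * k = 2 * n * (q / 2) + n := by
          have hq2 : q = 2 * (q / 2) + 1 := by omega
          calc h * k = n * q := by rw [hq, hn]; ring
            _ = n * (2 * (q / 2) + 1) := by rw [← hq2]
            _ = 2 * n * (q / 2) + n := by ring
        rw [this, pow_add, pow_mul, hs, one_pow, one_mul]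
      rw [e]
      exact D.eqv_z_eT
    · refine D.eqv_s_eT _ ?_
      intro hd
      apply h2
      have hpos : 0 < h := by
        have := D.npos
        rcases Nat.eq_zero_or_pos h with h0 | h0
        · rw [h0, zero_mul] at hn; omega
        · exact h0
      rw [hn] at hd
      exact Nat.dvd_of_mul_dvd_mul_left hpos hd

omit [Fintype G] in
private theorem p6_comb (t ρ : ℚ) (a b c : MonoidAlgebra ℚ G) :
    t • a + (t + ρ) • b + (t - ρ) • c = t • (a + b + c) + ρ • (b - c) := by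
  module

/-- the trace of `u₂^k` -/
theorem Dat.u2_trace (h m r : ℕ) (hn : n = h * 2 ^ m) (A B C : Matrix (Fin n) (Fin n) ℚ)
    (hA : ∀ k : ℕ, (A ^ k).trace = if 2 ^ (m + 1) ∣ k then (n : ℚ) else 0)
    (hB : ∀ k : ℕ, (B ^ k).trace = (A ^ k).trace + r * (1 - (-1) ^ k))
    (hC : ∀ k : ℕ, (C ^ k).trace = (A ^ k).trace - r * (1 - (-1) ^ k)) (k : ℕ) :
    Eqv ((D.u2 h A B C) ^ k)
      (el (D.s ^ (h * k)) + ((r : ℚ) * (1 - (-1) ^ k)) • (D.z - el (D.v * D.s ^ n))) := by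
  have h1 : Eqv (D.blk (A ^ k) (B ^ k) (C ^ k))
      ((A ^ k).trace • D.kz + (B ^ k).trace • D.kp + (C ^ k).trace • D.km) :=
    Eqv.add (Eqv.add (D.phi_eqv D.kz D.kz_f D.f_kz _) (D.phi_eqv D.kp D.kp_f D.f_kp _))
      (D.phi_eqv D.km D.km_f D.f_km _)
  rw [hB k, hC k, p6_comb, D.k_sum, D.kp_sub_km] at h1
  have h2 := h1.trans (Eqv.add (Eqv.refl ((A ^ k).trace • D.f))
    (Eqv.smul ((r : ℚ) * (1 - (-1) ^ k)) D.eqv_f_del'))
  have h3 : Eqv (el (D.s ^ (h * k)) * (1 - D.eT))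
      (el (D.s ^ (h * k)) - (A ^ k).trace • D.f) := by
    have h4 := Eqv.sub (Eqv.refl (el (D.s ^ (h * k)))) (D.eqv_sk_eT h m hn k)
    have e : (if 2 ^ (m + 1) ∣ k then (n : ℚ) • D.f else 0) = (A ^ k).trace • D.f := by
      rw [hA k]
      by_cases hd : 2 ^ (m + 1) ∣ k
      · rw [if_pos hd, if_pos hd]
      · rw [if_neg hd, if_neg hd, zero_smul]
    rw [e] at h4
    rwa [mul_sub, mul_one]
  have h5 := Eqv.add h3 h2
  rw [← D.u2_pow] at h5
  have e : el (D.s ^ (h * k)) - (A ^ k).trace • D.f + ((A ^ k).trace • D.f +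
      ((r : ℚ) * (1 - (-1) ^ k)) • (D.z - el (D.v * D.s ^ n))) =
      el (D.s ^ (h * k)) + ((r : ℚ) * (1 - (-1) ^ k)) • (D.z - el (D.v * D.s ^ n)) := by
    rw [← add_assoc, sub_add_cancel]
  rwa [e] at h5

end Pool.Agent.Bovdi
end

section

set_option autoImplicit false
set_option linter.unusedSectionVars false

/-! # Task X3: traces and integrality of the 3-adic form -/

namespace Pool.Agent.Bovdi

open Finset

variable {G : Type} [Group G] [Fintype G] {n : ℕ} (D : Dat G n)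

/-- `E s^i ~ E s^i E = 0` -/
theorem Dat.eqv_E_s (ε : ℚ) (hε : ε * ε = 1) (i : ℕ) (hi : ¬ 2 * n ∣ i) : Eqv (D.E ε * el (D.s ^ i)) 0 :=
  Eqv.idem_zero _ _ (D.E_idem ε hε) (D.E_sj_E ε ε i hi)

/-- `s^i · s^-l E s^l ~ E s^i`, so `s^i Ξ ~ 0` -/
theorem Dat.eqv_s_Xi (h r : ℕ) (ε : ℚ) (hε : ε * ε = 1) (i : ℕ) (hi : ¬ 2 * n ∣ i) :
    Eqv (el (D.s ^ i) * D.Xi h r ε) 0 := by
  unfold Dat.Xi
  rw [Finset.mul_sum]
  have key : ∀ l ∈ (range (2 * n)).filter (fun l => l % h < 2 * r),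
      Eqv (el (D.s ^ i) * (el (D.s ^ l)⁻¹ * D.E ε * el (D.s ^ l))) (0 : MonoidAlgebra ℚ G) := by
    intro l _
    have h1 : el (D.s ^ i) * (el (D.s ^ l)⁻¹ * D.E ε * el (D.s ^ l)) =
        (el (D.s ^ i) * el (D.s ^ l)⁻¹) * (D.E ε * el (D.s ^ l)) := by
      simp only [mul_assoc]
    have h2 : (D.E ε * el (D.s ^ l)) * (el (D.s ^ i) * el (D.s ^ l)⁻¹) = D.E ε * el (D.s ^ i) := by
      have h3 : el (D.s ^ l) * (el (D.s ^ i) * el (D.s ^ l)⁻¹) =
          (el (D.s ^ i) : MonoidAlgebra ℚ G) := by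
        rw [← map_mul, ← map_mul, ← mul_assoc, ← pow_add, add_comm, pow_add, mul_inv_cancel_right]
      rw [mul_assoc, h3]
    rw [h1]
    exact (Eqv.mul_comm _ _).trans ((Eqv.of_eq h2).trans (D.eqv_E_s ε hε i hi))
  exact (Eqv.sum _ key).trans (Eqv.of_eq (by rw [Finset.sum_const_zero]))

theorem Dat.eqv_Xi (h o r : ℕ) (ho : h * o = 2 * n) (hr : 2 * r ≤ h) (ε : ℚ) :
    Eqv (D.Xi h r ε) (((2 * r * o : ℕ) : ℚ) • D.E ε) := by
  unfold Dat.Xi
  rw [← card_index n h o r ho hr]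
  exact Eqv.sum_const _ fun l _ => Eqv.el_conj' _ _

/-- `E_ε' Ξ_ε = (1/o) ∑ ε'^i s^(hi) Ξ_ε ~ (1/o) Ξ_ε ~ 2r E_ε` -/
theorem Dat.eqv_Eb_Xi (h o r : ℕ) (ho : h * o = 2 * n) (hr : 2 * r ≤ h) (ε ε' : ℚ) (hε : ε * ε = 1) :
    Eqv (D.Eb h o ε' * D.Xi h r ε) (((2 * r : ℕ) : ℚ) • D.E ε) := by
  have hn := D.npos
  have hh : 0 < h := by
    rcases Nat.eq_zero_or_pos h with h0 | h0
    · rw [h0, zero_mul] at ho; omega
    · exact h0
  have ho' : 0 < o := by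
    rcases Nat.eq_zero_or_pos o with h0 | h0
    · rw [h0, mul_zero] at ho; omega
    · exact h0
  have hoq : (o : ℚ) ≠ 0 := by exact_mod_cast ho'.ne'
  unfold Dat.Eb
  rw [Algebra.smul_mul_assoc, Finset.sum_mul]
  have key : ∀ i ∈ range o, Eqv ((ε' ^ i • el (D.s ^ (h * i))) * D.Xi h r ε)
      (if i = 0 then D.Xi h r ε else 0) := by
    intro i hi
    rw [Finset.mem_range] at hi
    rw [Algebra.smul_mul_assoc]
    by_cases h0 : i = 0
    · rw [if_pos h0, h0, mul_zero, pow_zero, pow_zero, one_smul, map_one, one_mul]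
      exact Eqv.refl _
    · rw [if_neg h0]
      have hdvd : ¬ 2 * n ∣ h * i := by
        intro hd
        have h1 := Nat.le_of_dvd (Nat.mul_pos hh (Nat.pos_of_ne_zero h0)) hd
        rw [← ho] at h1
        have h2 := Nat.le_of_mul_le_mul_left h1 hh
        omega
      have h2 := (D.eqv_s_Xi h r ε hε (h * i) hdvd).smul (ε' ^ i)
      rw [smul_zero] at h2
      exact h2
  have h1 := (Eqv.sum _ key).smul (1 / (o : ℚ))
  rw [Finset.sum_ite_eq' (range o) 0, if_pos (Finset.mem_range.2 ho')] at h1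
  refine h1.trans (((D.eqv_Xi h o r ho hr ε).smul (1 / (o : ℚ))).trans (Eqv.of_eq ?_))
  rw [smul_smul]
  congr 1
  push_cast
  field_simp

/-- `E_+ - E_- = x⁻¹ (lam avg(W') z) x` -/
theorem x3_E_sub : D.E 1 - D.E (-1) = el D.x⁻¹ * (D.lam * avg D.W' * D.z) * el D.x := by
  have h1 : el D.x * el D.x⁻¹ = (1 : MonoidAlgebra ℚ G) := by rw [← map_mul, mul_inv_cancel, map_one]
  have h2 : D.E 1 - D.E (-1) = D.lam' * avg D.W' * D.z' := by
    unfold Dat.E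
    rw [← mul_sub, ← smul_sub]
    congr 1
    have h3 : (1 + (1 : ℚ) • D.z' - (1 + (-1 : ℚ) • D.z')) = (2 : ℚ) • D.z' := by
      rw [neg_smul, one_smul, two_smul]; abel
    rw [h3, smul_smul]
    norm_num
  rw [h2, Dat.lam', Dat.z']
  calc el D.x⁻¹ * D.lam * el D.x * avg D.W' * (el D.x⁻¹ * D.z * el D.x)
      = el D.x⁻¹ * D.lam * (el D.x * avg D.W') * (el D.x⁻¹ * D.z * el D.x) := by
        simp only [mul_assoc]
    _ = el D.x⁻¹ * D.lam * (avg D.W' * el D.x) * (el D.x⁻¹ * D.z * el D.x) := by rw [D.avgW_x]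
    _ = el D.x⁻¹ * (D.lam * avg D.W' * ((el D.x * el D.x⁻¹) * D.z)) * el D.x := by
        simp only [mul_assoc]
    _ = el D.x⁻¹ * (D.lam * avg D.W' * D.z) * el D.x := by rw [h1, one_mul]

/-- `lam z ~ (z - vz)/2` -/
theorem x3_lam_z : Eqv (D.lam * D.z) ((1 / 2 : ℚ) • (D.z - el (D.v * D.s ^ n))) := by
  have h1 : D.lam * D.z = (1 / 4 : ℚ) • (D.z + el (D.w * D.s ^ n) - el (D.v * D.s ^ n) -
      el (D.w * D.v * D.s ^ n)) := by
    unfold Dat.lam Dat.z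
    rw [Algebra.smul_mul_assoc, sub_mul, sub_mul, add_mul, one_mul, ← map_mul, ← map_mul, ← map_mul]
  have h2 : Eqv (el (D.w * D.s ^ n)) D.z := by
    refine Eqv.symm (Eqv.el_of_conj D.v ?_)
    rw [mul_assoc, D.zv, ← mul_assoc, ← mul_assoc, D.ww, one_mul]
  have h3 : Eqv (el (D.w * D.v * D.s ^ n)) (el (D.v * D.s ^ n)) := by
    refine Eqv.symm (Eqv.el_of_conj (D.s ^ n) ?_)
    rw [← mul_assoc, D.zv]
  rw [h1]
  have h4 := (((Eqv.refl D.z).add h2).sub (Eqv.refl (el (D.v * D.s ^ n)))).sub h3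
  refine (h4.smul (1 / 4)).trans (Eqv.of_eq ?_)
  have h5 : D.z + D.z - el (D.v * D.s ^ n) - el (D.v * D.s ^ n) =
      (2 : ℚ) • (D.z - el (D.v * D.s ^ n)) := by
    rw [two_smul]; abel
  rw [h5, smul_smul]
  norm_num

/-- `lam y z ~ lam z` for `y ∈ W'` -/
theorem x3_lam_y_z (y : G) (hy : y ∈ D.W') : Eqv (D.lam * (el y * D.z)) (D.lam * D.z) := by
  obtain ⟨q, hw, hv, hs⟩ := D.W'q y hy
  have h1 : el y * D.z = el q * D.z * el q⁻¹ := by
    unfold Dat.z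
    rw [← map_mul, ← map_mul, ← map_mul, hs, mul_inv_cancel_right]
  have h2 : D.lam * el q = el q * D.lam := by
    unfold Dat.lam
    rw [Algebra.smul_mul_assoc, Algebra.mul_smul_comm, sub_mul, sub_mul, add_mul, one_mul,
      mul_sub, mul_sub, mul_add, mul_one, ← map_mul, ← map_mul, ← map_mul, ← map_mul, ← map_mul,
      ← map_mul, hw, hv, mul_assoc D.w, ← hv, ← mul_assoc, ← hw, mul_assoc]
  rw [h1, ← mul_assoc, ← mul_assoc, h2, mul_assoc (el q)]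
  exact Eqv.el_conj _ _

/-- `lam avg(W') z ~ lam z` -/
theorem x3_lam_avg_z : Eqv (D.lam * avg D.W' * D.z) (D.lam * D.z) := by
  classical
  have hcard : (Nat.card D.W' : ℚ) ≠ 0 := by
    exact_mod_cast (Nat.card_pos (α := D.W')).ne'
  have h1 : D.lam * avg D.W' * D.z = (Nat.card D.W' : ℚ)⁻¹ •
      ∑ y ∈ (univ : Finset G).filter (fun g => g ∈ D.W'), D.lam * (el y * D.z) := by
    unfold avg
    rw [Algebra.mul_smul_comm, Algebra.smul_mul_assoc, Finset.mul_sum, Finset.sum_mul]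
    congr 1
    refine Finset.sum_congr (by congr) fun y _ => ?_
    rw [mul_assoc]
  have h2 : (((univ : Finset G).filter (fun g => g ∈ D.W')).card : ℚ) = Nat.card D.W' := by
    rw [Nat.card_eq_fintype_card, Fintype.card_subtype]
  rw [h1]
  refine ((Eqv.sum_const _ fun y hy => x3_lam_y_z D y (Finset.mem_filter.1 hy).2).smul _).trans
    (Eqv.of_eq ?_)
  rw [smul_smul, h2, inv_mul_cancel₀ hcard, one_smul]

/-- `E_+ - E_- = x⁻¹ (lam avg(W') z) x ~ lam avg(W') z`; `lam y z ~ lam z` for `y ∈ W'`: `y z = q z q⁻¹` (`W'q`) and `q` commutes with `lam`;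
`lam z = (z + wz - vz - wvz)/4 ~ (z - vz)/2`: `w z = v z v⁻¹`, `w v z = z (v z) z⁻¹` -/
theorem Dat.eqv_E_sub : Eqv (D.E 1 - D.E (-1)) ((1 / 2 : ℚ) • (D.z - el (D.v * D.s ^ n))) := by
  rw [x3_E_sub]
  exact (Eqv.el_conj' _ _).trans ((x3_lam_avg_z D).trans (x3_lam_z D))

/-- the trace of `u₃^k` -/
theorem Dat.u3_trace (h o r : ℕ) (ho : h * o = 2 * n) (he : Even o) (hr : 2 * r ≤ h) (k : ℕ) :
    Eqv ((D.u3 h o r) ^ k)
      (el (D.s ^ (h * k)) + ((r : ℚ) * (1 - (-1) ^ k)) • (D.z - el (D.v * D.s ^ n))) := by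
  rcases Nat.even_or_odd k with hk | hk
  · rw [D.u3_pow_even h o r ho he k hk, hk.neg_one_pow, sub_self, mul_zero, zero_smul, add_zero]
    exact Eqv.refl _
  · rw [D.u3_pow_odd h o r ho he k hk, hk.neg_one_pow, add_sub_assoc]
    refine (Eqv.refl _).add ?_
    have h1 : Eqv ((2 : ℚ) • D.a h o r - (2 : ℚ) • D.b h o r)
        ((2 : ℚ) • (((2 * r : ℕ) : ℚ) • D.E 1) - (2 : ℚ) • (((2 * r : ℕ) : ℚ) • D.E (-1))) :=
      ((D.eqv_Eb_Xi h o r ho hr 1 (-1) (by norm_num)).smul 2).sub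
        ((D.eqv_Eb_Xi h o r ho hr (-1) 1 (by norm_num)).smul 2)
    refine h1.trans ?_
    rw [← smul_sub, ← smul_sub]
    refine ((D.eqv_E_sub.smul _).smul _).trans (Eqv.of_eq ?_)
    rw [smul_smul, smul_smul]
    congr 1
    push_cast
    ring

theorem x3_int3_half : ∀ a : MonoidAlgebra ℚ G, Int3 a → Int3 ((1 / 2 : ℚ) • a) := by
  intro a ha
  have h := int3_inv_smul 1 ha
  rwa [pow_one, ← one_div] at h

theorem x3_int3_lam : Int3 D.lam := by
  unfold Dat.lam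
  have h : (1 / 4 : ℚ) = ((2 : ℚ) ^ 2)⁻¹ := by norm_num
  rw [h]
  exact int3_inv_smul 2 (int3_sub (int3_sub (int3_add int3_one (int3_el _)) (int3_el _)) (int3_el _))

theorem Dat.int3_E (ε : ℤ) : Int3 (D.E (ε : ℚ)) := by
  unfold Dat.E
  refine int3_mul (int3_mul ?_ (int3_avg _ D.cardW)) (x3_int3_half _ (int3_add int3_one
    (int3_zsmul _ ?_)))
  · exact int3_mul (int3_mul (int3_el _) (x3_int3_lam D)) (int3_el _)
  · exact int3_mul (int3_mul (int3_el _) (int3_el _)) (int3_el _)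

theorem Dat.int3_Xi (h r : ℕ) (ε : ℤ) : Int3 (D.Xi h r (ε : ℚ)) := by
  unfold Dat.Xi
  exact int3_sum _ _ fun l _ => int3_mul (int3_mul (int3_el _) (D.int3_E ε)) (int3_el _)

theorem Dat.int3_Eb (h m : ℕ) (ε : ℤ) : Int3 (D.Eb h (2 ^ m) (ε : ℚ)) := by
  unfold Dat.Eb
  have h1 : (1 / ((2 ^ m : ℕ) : ℚ)) = ((2 : ℚ) ^ m)⁻¹ := by push_cast; rw [one_div]
  rw [h1]
  refine int3_inv_smul m (int3_sum _ _ fun i _ => ?_)
  have h2 := int3_zsmul (ε ^ i) (int3_el (D.s ^ (h * i)))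
  rwa [Int.cast_pow] at h2

theorem Dat.int3_u3 (h m r : ℕ) : Int3 (D.u3 h (2 ^ m) r) := by
  have h2 : ∀ a : MonoidAlgebra ℚ G, Int3 a → Int3 ((2 : ℚ) • a) := by
    intro a ha
    have h := int3_zsmul 2 ha
    rwa [Int.cast_ofNat] at h
  have ha : Int3 (D.a h (2 ^ m) r) := by
    have h3 := int3_mul (D.int3_Eb h m (-1)) (D.int3_Xi h r 1)
    rw [Int.cast_neg, Int.cast_one] at h3
    exact h3
  have hb : Int3 (D.b h (2 ^ m) r) := by
    have h3 := int3_mul (D.int3_Eb h m 1) (D.int3_Xi h r (-1))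
    rw [Int.cast_neg, Int.cast_one] at h3
    exact h3
  unfold Dat.u3
  exact int3_mul (int3_el _) (int3_sub (int3_sub int3_one (h2 _ ha)) (h2 _ hb))

end Pool.Agent.Bovdi
end

section

set_option autoImplicit false

/-! # Task Fin: the counterexample from the data -/

namespace Pool.Agent.Bovdi

open Finset

variable {G : Type} [Group G] [Fintype G] {n : ℕ} (D : Dat G n)


theorem fin_sum_el [DecidableEq G] (S : Finset G) (a : G) :
    ∑ g ∈ S, (el a : MonoidAlgebra ℚ G).coeff g = if a ∈ S then 1 else 0 := by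
  have h1 : ∀ g, (el a : MonoidAlgebra ℚ G).coeff g = if a = g then 1 else 0 := by
    intro g
    rw [el, MonoidAlgebra.of_apply, MonoidAlgebra.coeff_single, Finsupp.single_apply]
  simp only [h1]
  rw [Finset.sum_ite_eq S a]

theorem fin_sum_rhs [DecidableEq G] (S : Finset G) (a b c : G) (q : ℚ) :
    ∑ g ∈ S, (el a + q • (el b - el c) : MonoidAlgebra ℚ G).coeff g =
      (if a ∈ S then 1 else 0) + q * ((if b ∈ S then 1 else 0) - (if c ∈ S then 1 else 0)) := by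
  simp only [MonoidAlgebra.coeff_add, MonoidAlgebra.coeff_smul, MonoidAlgebra.coeff_sub,
    Finsupp.add_apply, Finsupp.smul_apply, Finsupp.sub_apply, smul_eq_mul]
  rw [Finset.sum_add_distrib, ← Finset.mul_sum, Finset.sum_sub_distrib, fin_sum_el, fin_sum_el,
    fin_sum_el]

theorem fin_sn : D.s ^ n ≠ 1 := by
  intro h
  have h1 := orderOf_dvd_of_pow_eq_one h
  rw [D.ord] at h1
  have := Nat.le_of_dvd D.npos h1
  have := D.npos
  omega

theorem fin_s2n : D.s ^ n * D.s ^ n = 1 := by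
  rw [← pow_add, ← two_mul, ← D.ord, pow_orderOf_eq_one]

theorem fin_order_z : orderOf (D.s ^ n) = 2 := by
  refine orderOf_eq_prime ?_ (fin_sn D)
  rw [pow_two, fin_s2n]

theorem fin_order_vz : orderOf (D.v * D.s ^ n) ≠ 2 := by
  intro h
  have h1 : (D.v * D.s ^ n) ^ 2 = 1 := by rw [← h, pow_orderOf_eq_one]
  apply D.w1
  rw [pow_two] at h1
  calc D.w = D.w * (D.v * D.v) * (D.s ^ n * D.s ^ n) := by rw [D.vv, fin_s2n, mul_one, mul_one]
    _ = (D.w * D.v) * D.v * (D.s ^ n * D.s ^ n) := by simp only [mul_assoc]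
    _ = (D.v * D.w) * D.v * (D.s ^ n * D.s ^ n) := by rw [D.vw]
    _ = D.v * (D.w * D.v * D.s ^ n) * D.s ^ n := by simp only [mul_assoc]
    _ = D.v * (D.s ^ n * D.v) * D.s ^ n := by rw [D.zv]
    _ = D.v * D.s ^ n * (D.v * D.s ^ n) := by simp only [mul_assoc]
    _ = 1 := h1

theorem fin_order_s (h m : ℕ) (hn : n = h * 2 ^ m) (hm : 1 ≤ m) : orderOf (D.s ^ h) ≠ 2 := by
  intro h2
  have h1 : (D.s ^ h) ^ 2 = 1 := by rw [← h2, pow_orderOf_eq_one]
  apply fin_sn D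
  obtain ⟨k, rfl⟩ : ∃ k, m = k + 1 := ⟨m - 1, by omega⟩
  have h3 : D.s ^ n = D.s ^ (h * 2 ^ (k + 1)) := congrArg (fun j => D.s ^ j) hn
  rw [h3, pow_mul, pow_succ', pow_mul, h1, one_pow]

/-- `(s^h)^(2^m) = s^n ≠ 1` -/
theorem Dat.u3_half (h m r : ℕ) (hn : n = h * 2 ^ m) (hm : 1 ≤ m) : (D.u3 h (2 ^ (m + 1)) r) ^ (2 ^ m) ≠ 1 := by
  have ho : h * 2 ^ (m + 1) = 2 * n := by
    rw [hn, pow_succ]
    ring
  have he : Even (2 ^ (m + 1)) := (even_two).pow_of_ne_zero (Nat.succ_ne_zero m)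
  have hk : Even (2 ^ m) := (even_two).pow_of_ne_zero (by omega)
  rw [D.u3_pow_even h _ r ho he _ hk, ← hn]
  intro h1
  have h2 : (el (D.s ^ n) : MonoidAlgebra ℚ G) = el 1 := by rw [h1, map_one]
  exact fin_sn D (MonoidAlgebra.of_injective h2)


theorem Dat.exists_unit (h m r : ℕ) (hn : n = h * 2 ^ m) (hm : 1 ≤ m) (hr : 2 * r < h)
    (W0 Wp Wm Y1 Y2 : Matrix (Fin n) (Fin n) ℤ)
    (h0 : W0 ^ (2 ^ (m + 1)) = 1) (hp : Wp ^ (2 ^ (m + 1)) = 1) (hm' : Wm ^ (2 ^ (m + 1)) = 1)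
    (h1 : Wp = W0 + (8 : ℤ) • Y1) (h2 : Wm = W0 + (8 : ℤ) • Y2)
    (t0 : ∀ k : ℕ, (W0 ^ k).trace = if 2 ^ (m + 1) ∣ k then (n : ℤ) else 0)
    (tp : ∀ k : ℕ, (Wp ^ k).trace = (W0 ^ k).trace + r * (1 - (-1) ^ k))
    (tm : ∀ k : ℕ, (Wm ^ k).trace = (W0 ^ k).trace - r * (1 - (-1) ^ k)) :
    ∃ u : (MonoidAlgebra ℤ G)ˣ, orderOf u = 2 ^ (m + 1) ∧
      Eqv (toQ G (u : MonoidAlgebra ℤ G)) (el (D.s ^ h) + (2 * (r : ℚ)) • (D.z - el (D.v * D.s ^ n))) := by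
  have ho : h * 2 ^ (m + 1) = 2 * n := by
    rw [hn, pow_succ]
    ring
  have he : Even (2 ^ (m + 1)) := (even_two).pow_of_ne_zero (Nat.succ_ne_zero m)
  have hpos : 0 < 2 ^ (m + 1) := by positivity
  have hmap : ∀ (W : Matrix (Fin n) (Fin n) ℤ) (k : ℕ),
      (W.map (Int.cast : ℤ → ℚ)) ^ k = (W ^ k).map (Int.cast : ℤ → ℚ) := by
    intro W k
    exact (map_pow (Int.castRingHom ℚ).mapMatrix W k).symm
  have hmap1 : ∀ (W : Matrix (Fin n) (Fin n) ℤ), W ^ (2 ^ (m + 1)) = 1 →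
      (W.map (Int.cast : ℤ → ℚ)) ^ (2 ^ (m + 1)) = 1 := by
    intro W hW
    rw [hmap, hW]
    exact map_one (Int.castRingHom ℚ).mapMatrix
  have htr : ∀ (W : Matrix (Fin n) (Fin n) ℤ) (k : ℕ),
      ((W.map (Int.cast : ℤ → ℚ)) ^ k).trace = (((W ^ k).trace : ℤ) : ℚ) := by
    intro W k
    rw [hmap, Matrix.trace, Matrix.trace, Int.cast_sum]
    rfl
  have hu3 : ∀ k : ℕ, Eqv ((D.u3 h (2 ^ (m + 1)) r) ^ k)
      (el (D.s ^ (h * k)) + ((r : ℚ) * (1 - (-1) ^ k)) • (D.z - el (D.v * D.s ^ n))) :=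
    fun k => D.u3_trace h _ r ho he hr.le k
  have hu2 : ∀ k : ℕ, Eqv ((D.u2 h (W0.map (Int.cast : ℤ → ℚ)) (Wp.map (Int.cast : ℤ → ℚ))
      (Wm.map (Int.cast : ℤ → ℚ))) ^ k)
      (el (D.s ^ (h * k)) + ((r : ℚ) * (1 - (-1) ^ k)) • (D.z - el (D.v * D.s ^ n))) := by
    intro k
    refine D.u2_trace h m r hn _ _ _ ?_ ?_ ?_ k
    · intro k
      rw [htr, t0]
      split_ifs
      · rw [Int.cast_natCast]
      · rw [Int.cast_zero]
    · intro k
      rw [htr, htr, tp]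
      push_cast
      ring
    · intro k
      rw [htr, htr, tm]
      push_cast
      ring
  obtain ⟨u, hu, hue⟩ := Pool.Agent.Bovdi.exists_unit m
    (D.u2 h (W0.map (Int.cast : ℤ → ℚ)) (Wp.map (Int.cast : ℤ → ℚ)) (Wm.map (Int.cast : ℤ → ℚ)))
    (D.u3 h (2 ^ (m + 1)) r)
    (D.u2_pow_eq_one h _ ho _ _ _ (hmap1 _ h0) (hmap1 _ hp) (hmap1 _ hm'))
    (D.u3_pow_eq_one h _ r ho he) (D.u3_half h m r hn hm)
    (fun k => (hu2 k).trans (hu3 k).symm) (D.int2_u2 h W0 Wp Wm Y1 Y2 h1 h2)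
    (D.int3_u3 h (m + 1) r) (D.ee h (2 ^ (m + 1)) r) (D.ee_idem h _ r ho he hpos)
    (fun I hI => D.ee_full h m r hn hr I hI) (D.ee_u3 h _ r ho he hpos)
    (D.ee_y_ee h _ r ho he hpos)
  refine ⟨u, hu, hue.trans ?_⟩
  have h3 := hu3 1
  have e1 : (r : ℚ) * (1 - (-1) ^ 1) = 2 * r := by ring
  rw [pow_one, mul_one, e1] at h3
  exact h3


open Classical in
/-- augmentation `1`, and the sum of the coefficients over the elements of order 2 is `2r`: `orderOf (s^n) = 2`, `orderOf (v s^n) = 4`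
(`(v s^n)² = w`), `orderOf (s^h) = 2^(m+1) ≠ 2` -/
theorem Dat.counterexample (h m r : ℕ) (hn : n = h * 2 ^ m) (hm : 1 ≤ m) (u : MonoidAlgebra ℤ G)
    (hu : Eqv (toQ G u) (el (D.s ^ h) + (2 * (r : ℚ)) • (D.z - el (D.v * D.s ^ n)))) :
    ∑ g : G, u.coeff g = 1 ∧ ∑ g ∈ univ.filter (fun g : G => orderOf g = 2), u.coeff g = 2 * r := by
  have hS2 : ∀ g ∈ univ.filter (fun g : G => orderOf g = 2), ∀ c : G,
      c * g * c⁻¹ ∈ univ.filter (fun g : G => orderOf g = 2) := by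
    intro g hg c
    rw [Finset.mem_filter] at hg ⊢
    refine ⟨Finset.mem_univ _, ?_⟩
    have h1 : orderOf (c * g * c⁻¹) = orderOf g := by
      exact orderOf_injective (MulAut.conj c).toMonoidHom (MulAut.conj c).injective g
    rw [h1]
    exact hg.2
  have hz : D.z = el (D.s ^ n) := rfl
  rw [hz] at hu
  have k1 := Eqv.sum_coeff hu univ (fun _ _ _ => Finset.mem_univ _)
  have k2 := Eqv.sum_coeff hu _ hS2
  rw [fin_sum_rhs] at k1 k2
  simp only [toQ_apply] at k1 k2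
  constructor
  · rw [if_pos (Finset.mem_univ _), if_pos (Finset.mem_univ _), if_pos (Finset.mem_univ _),
      sub_self, mul_zero, add_zero] at k1
    exact_mod_cast k1
  · rw [if_neg, if_pos, if_neg, zero_add, sub_zero, mul_one] at k2
    · exact_mod_cast k2
    · rw [Finset.mem_filter]
      exact fun hh => fin_order_vz D hh.2
    · rw [Finset.mem_filter]
      exact ⟨Finset.mem_univ _, fin_order_z D⟩
    · rw [Finset.mem_filter]
      exact fun hh => fin_order_s D h m hn hm hh.2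


end Pool.Agent.Bovdi
end
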